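import Pool.Agent.Lib.D9.FamsB

/-!
# MP_5dcbc3_ag: families of graded commuting triples with several generators

All these families are linear: the maps `V0 -> V1` are fixed, the maps `V1 -> V2` are linear in the
parameters.
-/

namespace Pool.Agent.Lib.D10

open Matrix Pool.Agent.Lib.D9

variable {k : Type*} [Field k]

/-- the triple with `X_i s = e_i`, `X_i t = e_(i+1)`, `X_i e_j = G (i + j, .)`
(Hilbert function `(2, 4, c)`) -/
def TG (c : ℕ) (G : Fin 6 × Fin c → k) (i : Fin 3) :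
    Matrix (Fin 2 ⊕ (Fin 4 ⊕ Fin c)) (Fin 2 ⊕ (Fin 4 ⊕ Fin c)) k :=
  Matrix.of fun x y => match x, y with
    | .inr (.inl a), .inl b => if (a : ℕ) = (b : ℕ) + i then 1 else 0
    | .inr (.inr m), .inr (.inl j) => G (⟨(i : ℕ) + j, by omega⟩, m)
    | _, _ => 0

theorem TG_three (G : Fin 6 × Fin 3 → k) (i : Fin 3) : TG 3 G i = TG3 G i := by
  ext x y
  rcases x with x | (x | x) <;> rcases y with y | (y | y) <;> rfl

/-- the basis vector `X_i v_l` of `V1` in `TR`: `f0 = x v0`, `f1 = x v1`, `f2 = y v0 = z v1`,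
`f3 = y v1`, `f4 = z v0` -/
def ra (i : Fin 3) (l : Fin 2) : Fin 5 := ![![0, 1], ![2, 3], ![4, 2]] i l

/-- the value `X_i f_j` in `TR`: `0 = x^2 v0`, `1 = x^2 v1`, `2 = x y v0 = x z v1`, `3 = x y v1`,
`4 = x z v0`, `5 = y^2 v0 = y z v1`, `6 = y^2 v1`, `7 = y z v0 = z^2 v1`, `8 = z^2 v0` -/
def rb (i : Fin 3) (j : Fin 5) : Fin 9 :=
  ![![0, 1, 2, 3, 4], ![2, 3, 5, 6, 7], ![4, 2, 7, 5, 8]] i j

/-- the triple with two generators and the single relation `y v0 = z v1` in degree one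
(Hilbert function `(2, 5, c)`) -/
def TR (c : ℕ) (R : Fin 9 × Fin c → k) (i : Fin 3) :
    Matrix (Fin 2 ⊕ (Fin 5 ⊕ Fin c)) (Fin 2 ⊕ (Fin 5 ⊕ Fin c)) k :=
  Matrix.of fun x y => match x, y with
    | .inr (.inl a), .inl b => if a = ra i b then 1 else 0
    | .inr (.inr m), .inr (.inl j) => R (rb i j, m)
    | _, _ => 0

/-- the triple with `a` generators, no relation in degree one, and `q` further generators in `V1`:
`X_i v_l = (i, l)`, `X_i (j, l) = r (ix i j, l, .)`, `X_i q_l = g (i, l, .)`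
(Hilbert function `(a, 3 a + q, c)`) -/
def TF (a q c : ℕ) (r : Fin 6 × Fin a × Fin c → k) (g : Fin 3 × Fin q × Fin c → k) (i : Fin 3) :
    Matrix (Fin a ⊕ (((Fin 3 × Fin a) ⊕ Fin q) ⊕ Fin c))
      (Fin a ⊕ (((Fin 3 × Fin a) ⊕ Fin q) ⊕ Fin c)) k :=
  Matrix.of fun x y => match x, y with
    | .inr (.inl (.inl j)), .inl l => if j = (i, l) then 1 else 0
    | .inr (.inr m), .inr (.inl (.inl j)) => r (ix i j.1, j.2, m)
    | .inr (.inr m), .inr (.inl (.inr l)) => g (i, l, m)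
    | _, _ => 0

end Pool.Agent.Lib.D10
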