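import Pool.Agent.Lib.D7.Api
import Pool.Agent.Lib.D10.FamsC

/-!
# MP_5dcbc3_ag: recognition of a family in a suitable basis

`cl_of_basis`: if `T i * P = P * S i` for an injective (possibly non-square index types) matrix `P`
between index types of the same cardinality, and `Cl S`, then `Cl T`.
`cl_of_TR`: two vectors `v0, v1` with `y v0 = z v1` such that `v0, v1, x v0, x v1, y v0, y v1,
z v0` and vectors `e m` are a basis, all products of two of `x, y, z` map `v0, v1` to the span of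
the `e m`, and `x, y, z` kill the `e m`: then the triple is in the closure if all `TR c R` are.
-/

namespace Pool.Agent.Lib.D10

open Matrix Pool.Agent.Lib.Q5dc Pool.Agent.Lib.D7 Pool.Agent.Lib.D9

variable {k : Type*} [Field k] {n m : Type*} [Fintype n] [DecidableEq n] [Fintype m]
  [DecidableEq m]

theorem cl_of_basis (hc : Fintype.card m = Fintype.card n) {T : Fin 3 → Matrix n n k}
    {S : Fin 3 → Matrix m m k} (P : Matrix n m k) (hP : ∀ q, P *ᵥ q = 0 → q = 0)
    (h : ∀ i, T i * P = P * S i) (hS : Cl S) : Cl T := by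
  obtain ⟨e⟩ := Fintype.card_eq.1 hc
  set P' : Matrix n n k := P.submatrix id e.symm with hP'
  have h1 : Function.Injective P'.mulVec := by
    have h2 : ∀ q : n → k, P' *ᵥ q = P *ᵥ (q ∘ e) := by
      intro q
      funext i
      simp only [hP', Matrix.mulVec, dotProduct, Matrix.submatrix_apply, id, Function.comp]
      exact (Equiv.sum_comp e (fun x => P i (e.symm x) * q x)).symm.trans (by simp)
    intro q q' hq
    have h3 : P *ᵥ ((q - q') ∘ e) = 0 := by
      rw [← h2, Matrix.mulVec_sub]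
      exact sub_eq_zero.2 hq
    have h4 := hP _ h3
    funext i
    have h5 := congrFun h4 (e.symm i)
    simpa [sub_eq_zero] using h5
  have hu : IsUnit P' := Matrix.mulVec_injective_iff_isUnit.1 h1
  have hd : IsUnit P'.det := (Matrix.isUnit_iff_isUnit_det _).1 hu
  have hS' := Cl.mapEquiv (Matrix.reindexAlgEquiv k k e) hc hS
  have hS2 := Cl.conj P' P'⁻¹ (Matrix.mul_nonsing_inv _ hd) (Matrix.nonsing_inv_mul _ hd) hS'
  have h6 : (fun i => P' * Matrix.reindexAlgEquiv k k e (S i) * P'⁻¹) = T := by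
    funext i
    have h7 : P' * Matrix.reindexAlgEquiv k k e (S i) = T i * P' := by
      have h8 : (P * S i).submatrix id e.symm = (T i * P).submatrix id e.symm := by rw [h i]
      rw [Matrix.reindexAlgEquiv_apply, Matrix.reindex_apply, hP']
      rw [← Matrix.submatrix_mul_equiv (T i) P id (Equiv.refl n) e.symm] at h8
      rw [← Matrix.submatrix_mul_equiv P (S i) id e.symm e.symm] at h8
      exact h8
    rw [h7, Matrix.mul_assoc, Matrix.mul_nonsing_inv _ hd, Matrix.mul_one]
  rwa [h6] at hS2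

/-- `i`-th value `X_i f_j`, `f` = the five vectors of `TR` -/
def fv (x y z : Matrix n n k) (v0 v1 : n → k) : Fin 5 → n → k :=
  ![x *ᵥ v0, x *ᵥ v1, y *ᵥ v0, y *ᵥ v1, z *ᵥ v0]

/-- the nine products -/
def gv (x y z : Matrix n n k) (v0 v1 : n → k) : Fin 9 → n → k :=
  ![x *ᵥ (x *ᵥ v0), x *ᵥ (x *ᵥ v1), x *ᵥ (y *ᵥ v0), x *ᵥ (y *ᵥ v1), x *ᵥ (z *ᵥ v0),
    y *ᵥ (y *ᵥ v0), y *ᵥ (y *ᵥ v1), y *ᵥ (z *ᵥ v0), z *ᵥ (z *ᵥ v0)]

theorem fv_mul {x y z : Matrix n n k} {v0 v1 : n → k} (hxy : x * y = y * x) (hxz : x * z = z * x)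
    (hyz : y * z = z * y) (hv : y *ᵥ v0 = z *ᵥ v1) (i : Fin 3) (j : Fin 5) :
    (![x, y, z] : Fin 3 → Matrix n n k) i *ᵥ fv x y z v0 v1 j = gv x y z v0 v1 (rb i j) := by
  have c1 : ∀ v, y *ᵥ (x *ᵥ v) = x *ᵥ (y *ᵥ v) := by
    intro v
    rw [Matrix.mulVec_mulVec, Matrix.mulVec_mulVec, hxy]
  have c2 : ∀ v, z *ᵥ (x *ᵥ v) = x *ᵥ (z *ᵥ v) := by
    intro v
    rw [Matrix.mulVec_mulVec, Matrix.mulVec_mulVec, hxz]
  have c3 : ∀ v, z *ᵥ (y *ᵥ v) = y *ᵥ (z *ᵥ v) := by
    intro v
    rw [Matrix.mulVec_mulVec, Matrix.mulVec_mulVec, hyz]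
  fin_cases i <;> fin_cases j
  · rfl
  · rfl
  · rfl
  · rfl
  · rfl
  · exact c1 v0
  · exact c1 v1
  · rfl
  · rfl
  · rfl
  · exact c2 v0
  · exact (c2 v1).trans (congrArg _ hv.symm)
  · exact c3 v0
  · exact (c3 v1).trans (congrArg _ hv.symm)
  · rfl

theorem cl_of_TR {c : ℕ} (hcl : ∀ R : Fin 9 × Fin c → k, Cl (TR c R))
    (hcard : Fintype.card n = 7 + c) {x y z : Matrix n n k} (hxy : x * y = y * x)
    (hxz : x * z = z * x) (hyz : y * z = z * y) {v0 v1 : n → k} (hv : y *ᵥ v0 = z *ᵥ v1)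
    (e : Fin c → n → k) (hex : ∀ m, x *ᵥ e m = 0) (hey : ∀ m, y *ᵥ e m = 0)
    (hez : ∀ m, z *ᵥ e m = 0)
    (hR : ∀ j, ∃ r : Fin c → k, gv x y z v0 v1 j = ∑ m, r m • e m)
    (hinj : ∀ (a : Fin 2 → k) (b : Fin 5 → k) (g : Fin c → k),
      a 0 • v0 + a 1 • v1 + ∑ j, b j • fv x y z v0 v1 j + ∑ m, g m • e m = 0 →
        a = 0 ∧ b = 0 ∧ g = 0) : Cl ![x, y, z] := by
  choose R hR using hR
  set P : Matrix n (Fin 2 ⊕ (Fin 5 ⊕ Fin c)) k := Matrix.of fun i j => match j with
    | .inl l => ![v0, v1] l i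
    | .inr (.inl j) => fv x y z v0 v1 j i
    | .inr (.inr m) => e m i with hP
  have hPv : ∀ q, P *ᵥ q = q (.inl 0) • v0 + q (.inl 1) • v1 +
      ∑ j, q (.inr (.inl j)) • fv x y z v0 v1 j + ∑ m, q (.inr (.inr m)) • e m := by
    intro q
    funext i
    simp only [Matrix.mulVec, dotProduct, Fintype.sum_sum_type, Pi.add_apply, Pi.smul_apply,
      Finset.sum_apply, smul_eq_mul, hP, Matrix.of_apply, Fin.sum_univ_two]
    have e1 : ∀ j, fv x y z v0 v1 j i * q (.inr (.inl j)) =
        q (.inr (.inl j)) * fv x y z v0 v1 j i := fun j => mul_comm _ _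
    have e2 : ∀ m, e m i * q (.inr (.inr m)) = q (.inr (.inr m)) * e m i :=
      fun m => mul_comm _ _
    simp only [e1, e2]
    have e3 : (![v0, v1] : Fin 2 → n → k) 0 i = v0 i := rfl
    have e4 : (![v0, v1] : Fin 2 → n → k) 1 i = v1 i := rfl
    rw [e3, e4]
    ring
  refine cl_of_basis (S := TR c fun p => R p.1 p.2) ?_ P ?_ ?_ (hcl _)
  · rw [hcard]
    simp only [Fintype.card_sum, Fintype.card_fin]
    omega
  · intro q hq
    rw [hPv] at hq
    obtain ⟨h1, h2, h3⟩ := hinj (fun l => q (.inl l)) (fun j => q (.inr (.inl j)))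
      (fun m => q (.inr (.inr m))) hq
    funext j
    rcases j with j | (j | j)
    · exact congrFun h1 j
    · exact congrFun h2 j
    · exact congrFun h3 j
  · intro i
    ext r s
    rcases s with l | (j | mm)
    · -- columns `v_l`
      have e1 : ((![x, y, z] : Fin 3 → Matrix n n k) i * P) r (.inl l) =
          ((![x, y, z] : Fin 3 → Matrix n n k) i *ᵥ (![v0, v1] l)) r := rfl
      have e2 : (P * TR c (fun p => R p.1 p.2) i) r (.inl l) = fv x y z v0 v1 (ra i l) r := by
        rw [Matrix.mul_apply]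
        simp only [Fintype.sum_sum_type, TR, Matrix.of_apply, mul_zero, Finset.sum_const_zero,
          zero_add, add_zero, hP]
        simp
      rw [e1, e2]
      fin_cases i <;> fin_cases l
      · rfl
      · rfl
      · rfl
      · rfl
      · rfl
      · exact (congrFun hv r).symm
    · -- columns `f_j`
      have e1 : ((![x, y, z] : Fin 3 → Matrix n n k) i * P) r (.inr (.inl j)) =
          ((![x, y, z] : Fin 3 → Matrix n n k) i *ᵥ fv x y z v0 v1 j) r := rfl
      have e2 : (P * TR c (fun p => R p.1 p.2) i) r (.inr (.inl j)) =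
          (∑ m, R (rb i j) m • e m) r := by
        rw [Matrix.mul_apply]
        simp only [Fintype.sum_sum_type, TR, Matrix.of_apply, mul_zero, Finset.sum_const_zero,
          zero_add, add_zero, hP, Finset.sum_apply, Pi.smul_apply, smul_eq_mul]
        exact Finset.sum_congr rfl fun _ _ => mul_comm _ _
      rw [e1, e2, fv_mul hxy hxz hyz hv, hR]
    · -- columns `e_m`
      have e1 : ((![x, y, z] : Fin 3 → Matrix n n k) i * P) r (.inr (.inr mm)) =
          ((![x, y, z] : Fin 3 → Matrix n n k) i *ᵥ e mm) r := rfl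
      have e2 : (P * TR c (fun p => R p.1 p.2) i) r (.inr (.inr mm)) = 0 := by
        rw [Matrix.mul_apply]
        simp only [Fintype.sum_sum_type, TR, Matrix.of_apply, mul_zero, Finset.sum_const_zero,
          add_zero]
      rw [e1, e2]
      fin_cases i
      · exact congrFun (hex mm) r
      · exact congrFun (hey mm) r
      · exact congrFun (hez mm) r

end Pool.Agent.Lib.D10
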