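import Pool.Agent.Lib.D9.DensX

/-!
# MP_5dcbc3_ag: all triples `T1X 5 1 r g` are limits of curvilinear triples

Exponents: `e_j`: 1, 2, 3, `q_l`: 4, 5, 6, 7, 8, `f_m`: 9.
-/

namespace Pool.Agent.Lib.D10

open Matrix Pool.Agent.Lib.Q5dc Pool.Agent.Lib.D7 Pool.Agent.Lib.D9

namespace Cl181Aux

/-- the exponents -/
def ex : Fin 1 ⊕ ((Fin 3 ⊕ Fin 5) ⊕ Fin 1) ≃ Fin (9 + 1) where
  toFun := Sum.elim (fun _ => 0) (Sum.elim (Sum.elim ![1, 2, 3] ![4, 5, 6, 7, 8]) ![9])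
  invFun := ![.inl 0,
    .inr (.inl (.inl 0)),
    .inr (.inl (.inl 1)),
    .inr (.inl (.inl 2)),
    .inr (.inl (.inr 0)),
    .inr (.inl (.inr 1)),
    .inr (.inl (.inr 2)),
    .inr (.inl (.inr 3)),
    .inr (.inl (.inr 4)),
    .inr (.inr 0)]
  left_inv := by
    intro x
    rcases x with x | ((x | x) | x) <;> fin_cases x <;> rfl
  right_inv := by
    intro x
    fin_cases x <;> rfl

variable {k : Type*} [Field k]

/-- the certificate -/
def Nc (v : (Fin 6 × Fin 1) ⊕ (Fin 3 × Fin 5 × Fin 1) → k) :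
    Matrix (Fin (9 + 1)) (Fin (9 + 1)) k :=
  !![0, 0, 0, 0, 0, 0, 0, 0, 0, 0;
     0,
     v (.inr (0, 4, 0)) - v (.inr (2, 2, 0)),
     v (.inr (1, 4, 0)),
     v (.inr (2, 4, 0)),
     0,
     0,
     0,
     0,
     0,
     0;
     0, 0, 0, 0, 0, 0, 0, 0, 0, 0;
     0,
     v (.inr (0, 2, 0)),
     -v (.inr (0, 3, 0)) + v (.inr (1, 2, 0)),
     0,
     0,
     0,
     0,
     0,
     0,
     0;
     0,
     0,
     0,
     0,
     -v (.inr (0, 4, 0)) - v (.inr (1, 3, 0)) + 3 * v (.inr (2, 2, 0)),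
     0,
     0,
     0,
     0,
     0;
     0,
     -v (.inl (4, 0)) + v (.inr (0, 0, 0)),
     0,
     0,
     0,
     0,
     0,
     0,
     0,
     0;
     0,
     0,
     0,
     1 / 2 * v (.inl (5, 0)) - 1 / 2 * v (.inr (0, 1, 0)),
     v (.inr (2, 0, 0)),
     -v (.inr (0, 3, 0)) + v (.inr (2, 1, 0)),
     0,
     v (.inr (2, 3, 0)),
     0,
     0;
     0,
     0,
     -1 / 2 * v (.inl (2, 0)) + 1 / 2 * v (.inl (3, 0)),
     0,
     -v (.inr (0, 1, 0)) + v (.inr (1, 0, 0)),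
     v (.inr (1, 1, 0)),
     0,
     v (.inr (1, 3, 0)) - v (.inr (2, 2, 0)),
     0,
     0;
     0, 0, 0, 0, 0, 0, 0, 0, 0, 0;
     0,
     0,
     -v (.inl (0, 0)),
     -v (.inl (1, 0)),
     -v (.inl (2, 0)),
     -v (.inl (4, 0)),
     -v (.inr (0, 1, 0)),
     0,
     -v (.inr (0, 3, 0)),
     -v (.inr (2, 2, 0))]

variable (v : (Fin 6 × Fin 1) ⊕ (Fin 3 × Fin 5 × Fin 1) → k)

theorem Nc_col (x : Fin (9 + 1)) : Nc v x 0 = 0 := by
  fin_cases x <;> rfl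

theorem Nc_row (x : Fin (9 + 1)) : Nc v 0 x = 0 := by
  fin_cases x <;> rfl

variable [CharZero k]

theorem Nc_tr : (Nc v).trace = 0 := by
  simp [Nc, Matrix.trace, Fin.sum_univ_succ] <;> ring

theorem Nc_r (a : Fin 6) (m : Fin 1) :
    DensX.Dv (Nc v) (DensX.Pe ex (DensX.ri a)) (DensX.Pe ex (DensX.ci a)) (DensX.Pf ex m) =
      v (.inl (a, m)) := by
  fin_cases a <;> fin_cases m <;>
    simp [DensX.Dv, DensX.Pe, DensX.Pf, DensX.ri, DensX.ci, ex, Nc] <;> ring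

theorem Nc_g (i : Fin 3) (l : Fin 5) (m : Fin 1) :
    DensX.Dv (Nc v) (DensX.Pe ex i) (DensX.Pq ex l) (DensX.Pf ex m) = v (.inr (i, l, m)) := by
  fin_cases i <;> fin_cases l <;> fin_cases m <;>
    simp [DensX.Dv, DensX.Pe, DensX.Pf, DensX.Pq, ex, Nc] <;> ring

end Cl181Aux

open Cl181Aux in
/-- all triples `T1X 5 1 r g` are limits of curvilinear triples -/
theorem cl_T181 {k : Type*} [Field k] [IsAlgClosed k] [CharZero k] (r : Fin 6 × Fin 1 → k)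
    (g : Fin 3 × Fin 5 × Fin 1 → k) : Cl (T1X 5 1 r g) :=
  cl_T1X_of_cert ex rfl Nc Nc_col Nc_row (fun v => Nc_tr v) (fun v => Nc_r v) (fun v => Nc_g v) r g

end Pool.Agent.Lib.D10
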