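import Pool.Agent.Lib.D10.DensH

/-!
# MP_5dcbc3_ag: all triples `TF 2 0 2 r g` are limits of curvilinear triples

Base point: `u = X ^ 4`, `X_i = X ^ 1, X ^ 3, X ^ 2`, `q = `, `f`: t^8, t^9.
-/

namespace Pool.Agent.Lib.D10

open Matrix Polynomial Pool.Agent.Lib.Q5dc Pool.Agent.Lib.D7 Pool.Agent.Lib.D9
open Pool.Agent.Lib.D9.DensX Pool.Agent.Lib.D10 Pool.Agent.Lib.D10.DensG

namespace CertTF202

variable {k : Type*} [Field k]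

/-- the exponents -/
def ex : Fin 2 ⊕ (((Fin 3 × Fin 2) ⊕ Fin 0) ⊕ Fin 2) ≃ Fin (9 + 1) where
  toFun := Sum.elim ![0, 4] (Sum.elim (Sum.elim (fun z => ![![1, 5], ![3, 7], ![2, 6]] z.1 z.2) ![]) ![8, 9])
  invFun := ![.inl 0, .inr (.inl (.inl (0, 0))), .inr (.inl (.inl (2, 0))), .inr (.inl (.inl (1, 0))), .inl 1, .inr (.inl (.inl (0, 1))), .inr (.inl (.inl (2, 1))), .inr (.inl (.inl (1, 1))), .inr (.inr 0), .inr (.inr 1)]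
  left_inv := by
    rintro (x | ((⟨x, y⟩ | x) | x))
    · fin_cases x <;> rfl
    · fin_cases x <;> fin_cases y <;> rfl
    · fin_cases x
    · fin_cases x <;> rfl
  right_inv := by
    intro x
    fin_cases x <;> rfl

/-- the inverse of the basis -/
def Li : Fin 2 ⊕ (((Fin 3 × Fin 2) ⊕ Fin 0) ⊕ Fin 2) → Fin (9 + 1) → k :=
  Sum.elim ![![1, 0, 0, 0, 0, 0, 0, 0, 0, 0], ![0, 0, 0, 0, 1, 0, 0, 0, 0, 0]] (Sum.elim (Sum.elim (fun z => ![![![0, 1, 0, 0, 0, 0, 0, 0, 0, 0], ![0, 0, 0, 0, 0, 1, 0, 0, 0, 0]], ![![0, 0, 0, 1, 0, 0, 0, 0, 0, 0], ![0, 0, 0, 0, 0, 0, 0, 1, 0, 0]], ![![0, 0, 1, 0, 0, 0, 0, 0, 0, 0], ![0, 0, 0, 0, 0, 0, 1, 0, 0, 0]]] z.1 z.2) ![]) ![![0, 0, 0, 0, 0, 0, 0, 0, 1, 0], ![0, 0, 0, 0, 0, 0, 0, 0, 0, 1]])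

/-- coordinates of the products -/
def ro : (Fin 6 × Fin 2) ⊕ (Fin 3 × Fin 0) → Fin 2 ⊕ (((Fin 3 × Fin 2) ⊕ Fin 0) ⊕ Fin 2) → k :=
  Sum.elim (fun z => ![![Sum.elim ![0, 0] (Sum.elim (Sum.elim (fun z => ![![0, 0], ![0, 0], ![1, 0]] z.1 z.2) ![]) ![0, 0]), Sum.elim ![0, 0] (Sum.elim (Sum.elim (fun z => ![![0, 0], ![0, 0], ![0, 1]] z.1 z.2) ![]) ![0, 0])], ![Sum.elim ![0, 1] (Sum.elim (Sum.elim (fun z => ![![0, 0], ![0, 0], ![0, 0]] z.1 z.2) ![]) ![0, 0]), Sum.elim ![0, 0] (Sum.elim (Sum.elim (fun z => ![![0, 0], ![0, 0], ![0, 0]] z.1 z.2) ![]) ![1, 0])], ![Sum.elim ![0, 0] (Sum.elim (Sum.elim (fun z => ![![0, 0], ![1, 0], ![0, 0]] z.1 z.2) ![]) ![0, 0]), Sum.elim ![0, 0] (Sum.elim (Sum.elim (fun z => ![![0, 0], ![0, 1], ![0, 0]] z.1 z.2) ![]) ![0, 0])], ![Sum.elim ![0, 0] (Sum.elim (Sum.elim (fun z => ![![0, 0], ![0,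 0], ![0, 1]] z.1 z.2) ![]) ![0, 0]), Sum.elim ![0, 0] (Sum.elim (Sum.elim (fun z => ![![0, 0], ![0, 0], ![0, 0]] z.1 z.2) ![]) ![0, 0])], ![Sum.elim ![0, 0] (Sum.elim (Sum.elim (fun z => ![![0, 1], ![0, 0], ![0, 0]] z.1 z.2) ![]) ![0, 0]), Sum.elim ![0, 0] (Sum.elim (Sum.elim (fun z => ![![0, 0], ![0, 0], ![0, 0]] z.1 z.2) ![]) ![0, 1])], ![Sum.elim ![0, 1] (Sum.elim (Sum.elim (fun z => ![![0, 0], ![0, 0], ![0, 0]] z.1 z.2) ![]) ![0, 0]), Sum.elim ![0, 0] (Sum.elim (Sum.elim (fun z => ![![0, 0], ![0, 0], ![0, 0]] z.1 z.2) ![]) ![1, 0])]] z.1 z.2) (fun z => z.2.elim0)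

/-- remainders of the products -/
noncomputable def rr : (Fin 6 × Fin 2) ⊕ (Fin 3 × Fin 0) → k[X] :=
  Sum.elim (fun z => ![![0, 0], ![0, 0], ![0, 0], ![0, 1], ![0, 0], ![0, 0]] z.1 z.2) (fun z => z.2.elim0)

/-- a velocity -/
def uu (v : ((Fin 6 × Fin 2) ⊕ (Fin 3 × Fin 0)) × Fin 2 → k) : ℕ → k
  | 2 => v (.inl (3, 1), 0)
  | 3 => v (.inl (3, 1), 1)
  | 4 => v (.inl (5, 1), 0)
  | 5 => -v (.inl (5, 1), 1) + 2 * v (.inl (1, 1), 1) + 2 * v (.inl (2, 1), 0)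
  | 6 => -v (.inl (0, 1), 0) - 2 * v (.inl (2, 1), 1) - v (.inl (3, 0), 0)
  | 7 => -(3 * v (.inl (0, 1), 1)) + v (.inl (3, 0), 1) - 2 * v (.inl (4, 0), 0)
  | 8 => -v (.inl (5, 0), 0)
  | 9 => v (.inl (5, 0), 1) - 2 * v (.inl (1, 0), 1) - 2 * v (.inl (2, 0), 0)
  | _ => 0

/-- a velocity -/
def xx (v : ((Fin 6 × Fin 2) ⊕ (Fin 3 × Fin 0)) × Fin 2 → k) : ℕ → k
  | 1 => -v (.inl (5, 1), 0) + v (.inl (1, 1), 0)
  | 5 => 1 / 2 * v (.inl (1, 0), 0) - 1 / 2 * v (.inl (4, 0), 1)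
  | 8 => 1 / 2 * v (.inl (0, 0), 1)
  | _ => 0

/-- a velocity -/
def yy (v : ((Fin 6 × Fin 2) ⊕ (Fin 3 × Fin 0)) × Fin 2 → k) : ℕ → k
  | 4 => v (.inl (5, 1), 1) - v (.inl (1, 1), 1) - 2 * v (.inl (2, 1), 0)
  | 5 => -v (.inl (0, 1), 0) - v (.inl (2, 1), 1)
  | 6 => -(2 * v (.inl (0, 1), 1)) + v (.inl (3, 0), 1) - v (.inl (4, 0), 0)
  | 7 => -v (.inl (5, 0), 0) + 1 / 2 * v (.inl (1, 0), 0) + 1 / 2 * v (.inl (4, 0), 1)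
  | 8 => v (.inl (5, 0), 1) - v (.inl (1, 0), 1) - 2 * v (.inl (2, 0), 0)
  | 9 => -v (.inl (0, 0), 0) - v (.inl (2, 0), 1)
  | _ => 0

/-- a velocity -/
def zz (v : ((Fin 6 × Fin 2) ⊕ (Fin 3 × Fin 0)) × Fin 2 → k) : ℕ → k
  | 1 => -v (.inl (3, 1), 1) + v (.inl (4, 1), 0)
  | 3 => v (.inl (5, 1), 1) - v (.inl (1, 1), 1) - v (.inl (2, 1), 0)
  | 4 => -v (.inl (0, 1), 0)
  | 5 => -v (.inl (0, 1), 1)
  | 7 => v (.inl (5, 0), 1) - v (.inl (1, 0), 1) - v (.inl (2, 0), 0)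
  | 8 => -v (.inl (0, 0), 0)
  | _ => 0

/-- velocity of `f` -/
def hh (v : ((Fin 6 × Fin 2) ⊕ (Fin 3 × Fin 0)) × Fin 2 → k) : Fin 2 → Fin 2 → k :=
  ![![0, 0], ![0, v (.inl (5, 1), 0) - v (.inl (4, 1), 1)]]

variable (v : ((Fin 6 × Fin 2) ⊕ (Fin 3 × Fin 0)) × Fin 2 → k)

theorem hL (x y : Fin 2 ⊕ (((Fin 3 × Fin 2) ⊕ Fin 0) ⊕ Fin 2)) :
    ∑ m : Fin (9 + 1), (Li x m : k) * (gTF (X ^ 4) ![X ^ 1, X ^ 3, X ^ 2] ![X ^ 5, X ^ 7, X ^ 6] ![] ![X ^ 8, X ^ 9] y : k[X]).coeff m =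
      if x = y then 1 else 0 := by
  rcases x with x | ((⟨x, x'⟩ | x) | x) <;> rcases y with y | ((⟨y, y'⟩ | y) | y) <;>
    fin_cases x <;> fin_cases y <;> (try fin_cases x') <;> (try fin_cases y') <;>
    simp [Li, gTF, Fin.sum_univ_succ, Polynomial.coeff_X_pow, Polynomial.coeff_one,
      Polynomial.coeff_X]

theorem hro (κ : (Fin 6 × Fin 2) ⊕ (Fin 3 × Fin 0)) : (![X ^ 1, X ^ 3, X ^ 2] : Fin 3 → k[X]) (repF 0 κ).1 *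
      gTF (X ^ 4) ![X ^ 1, X ^ 3, X ^ 2] ![X ^ 5, X ^ 7, X ^ 6] ![] ![X ^ 8, X ^ 9] (.inr (.inl (repF 0 κ).2)) = ∑ y, Polynomial.C (ro κ y) * gTF (X ^ 4) ![X ^ 1, X ^ 3, X ^ 2] ![X ^ 5, X ^ 7, X ^ 6] ![] ![X ^ 8, X ^ 9] y +
        Polynomial.X ^ (9 + 1) * rr κ := by
  rcases κ with ⟨x, y⟩ | ⟨x, y⟩ <;> fin_cases x <;> fin_cases y <;>
    simp [repF, ri, ci, ro, rr, gTF, Fin.sum_univ_succ, Fintype.sum_prod_type, map_ofNat] <;> ring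

variable [CharZero k]

theorem la (l : Fin 2) (F : Fin (9 + 1) → k) : ∑ m, (Li (.inr (.inr l)) m : k) * F m =
      ![F 8, F 9] l := by
  fin_cases l <;> simp [Li, Fin.sum_univ_succ] <;> ring

theorem lb (κ : (Fin 6 × Fin 2) ⊕ (Fin 3 × Fin 0)) (F : Fin 2 ⊕ (((Fin 3 × Fin 2) ⊕ Fin 0) ⊕ Fin 2) → k) : ∑ y, (ro κ y : k) * F y =
      (Sum.elim (fun z => ![![F (.inr (.inl (.inl (2, 0)))), F (.inr (.inl (.inl (2, 1))))], ![F (.inl 1), F (.inr (.inr 0))], ![F (.inr (.inl (.inl (1, 0)))), F (.inr (.inl (.inl (1, 1))))], ![F (.inr (.inl (.inl (2, 1)))), 0], ![F (.inr (.inl (.inl (0, 1)))), F (.inr (.inr 1))], ![F (.inl 1), F (.inr (.inr 0))]] z.1 z.2) (fun z => z.2.elim0) : (Fin 6 × Fin 2) ⊕ (Fin 3 × Fin 0) → k) κ := by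
  rcases κ with ⟨x, y⟩ | ⟨x, y⟩ <;> fin_cases x <;> fin_cases y <;>
    simp [ro, Fin.sum_univ_succ, Fintype.sum_prod_type] <;> ring

theorem H (κ : (Fin 6 × Fin 2) ⊕ (Fin 3 × Fin 0)) (l : Fin 2) (U : k[X]) (V D : Fin 3 → k[X]) (W : Fin 0 → k[X])
    (hU : U = pf 9 (uu v)) (hV : ∀ i, V i = pf 9 (![xx v, yy v, zz v] i))
    (hW : ∀ l, W l = pf 9 ((![] : Fin 0 → ℕ → k) l))
    (hD : ∀ i, D i = ![X ^ 1, X ^ 3, X ^ 2] i * U + V i * (X ^ 4)) :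
      ∑ m : Fin (9 + 1), (Li (.inr (.inr l)) m : k) *
        ((V (repF 0 κ).1 * gTF (X ^ 4) ![X ^ 1, X ^ 3, X ^ 2] ![X ^ 5, X ^ 7, X ^ 6] ![] ![X ^ 8, X ^ 9] (.inr (.inl (repF 0 κ).2)) +
          ![X ^ 1, X ^ 3, X ^ 2] (repF 0 κ).1 * Sum.elim (fun z : Fin 3 × Fin 2 => ![V z.1, D z.1] z.2) W (repF 0 κ).2).coeff m -
          ∑ y, ro κ y * (Sum.elim ![0, U] (Sum.elim (Sum.elim (fun z : Fin 3 × Fin 2 => ![V z.1, D z.1] z.2) W)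
            (fun l => ∑ l', Polynomial.C (hh v l l') * ![X ^ 8, X ^ 9] l')) y).coeff m) = v (κ, l) := by
  have cu : ∀ m : ℕ, U.coeff m = if m < 9 + 1 then uu v m else 0 := fun m => by rw [hU, coeff_pf]
  have cv : ∀ (i : Fin 3) (m : ℕ), (V i).coeff m =
      if m < 9 + 1 then ![xx v, yy v, zz v] i m else 0 := fun i m => by rw [hV, coeff_pf]
  have cw : ∀ (i : Fin 0) (m : ℕ), (W i).coeff m =
      if m < 9 + 1 then (![] : Fin 0 → ℕ → k) i m else 0 := fun i m => by rw [hW, coeff_pf]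
  have cd : ∀ (i : Fin 3) (m : ℕ), (D i).coeff m = (![X ^ 1, X ^ 3, X ^ 2] i * U + V i * (X ^ 4)).coeff m :=
    fun i m => by rw [hD]
  refine (la l _).trans ?_
  simp only [lb]
  rcases κ with ⟨x, y⟩ | ⟨x, y⟩ <;> fin_cases x <;> fin_cases y <;> fin_cases l <;>
    simp [repF, ri, ci, gTF, Fin.sum_univ_succ, mul_add, add_mul, mul_sub, sub_mul,
      Polynomial.coeff_mul_X_pow', Polynomial.coeff_X_pow_mul', Polynomial.coeff_X_pow,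
      Polynomial.coeff_X, cu, cv, cw, cd] <;>
    simp [uu, xx, yy, zz, hh] <;> ring

end CertTF202

open CertTF202 in
/-- all triples `TF 2 0 2 r g` are limits of curvilinear triples -/
theorem cl_TF202 {k : Type*} [Field k] [CharZero k] (r : Fin 6 × Fin 2 × Fin 2 → k)
    (g : Fin 3 × Fin 0 × Fin 2 → k) : Cl (TF 2 0 2 r g) := by
  refine cl_TF_of_cert (q := 0) (c := 2) (n := 9) ex (X ^ 4) ![X ^ 1, X ^ 3, X ^ 2] ![X ^ 5, X ^ 7, X ^ 6] ![] ![X ^ 8, X ^ 9] ?_ ?_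
    Li hL ro rr hro uu (fun v => ![xx v, yy v, zz v]) (fun v => ![]) hh (fun v i => ?_)
    (fun v κ l U V D W hU hV hW hD => H v κ l U V D W hU hV hW hD) r g
  · intro i
    fin_cases i <;> simp
  · intro i
    fin_cases i <;> simp <;> ring
  · fin_cases i <;> rfl

end Pool.Agent.Lib.D10
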