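import Pool.Agent.Lib.D10.DensH

/-!
# MP_5dcbc3_ag: all triples `TG 4 G` are limits of curvilinear triples

Base point: `u = X ^ 2`, `X_0 = X ^ 1`, `X_1 = X ^ 3`, `X_2 = X ^ 2 + X ^ 5`, `f`: t^6, t^7, t^8, t^9.
-/

namespace Pool.Agent.Lib.D10

open Matrix Polynomial Pool.Agent.Lib.Q5dc Pool.Agent.Lib.D7 Pool.Agent.Lib.D9
open Pool.Agent.Lib.D9.DensX Pool.Agent.Lib.D10 Pool.Agent.Lib.D10.DensG

namespace CertTG4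

variable {k : Type*} [Field k]

/-- the exponents -/
def ex : Fin 2 ⊕ (Fin 4 ⊕ Fin 4) ≃ Fin (9 + 1) where
  toFun := Sum.elim ![0, 2] (Sum.elim ![1, 3, 5, 4] ![6, 7, 8, 9])
  invFun := ![.inl 0, .inr (.inl 0), .inl 1, .inr (.inl 1), .inr (.inl 3), .inr (.inl 2), .inr (.inr 0), .inr (.inr 1), .inr (.inr 2), .inr (.inr 3)]
  left_inv := by
    intro x
    rcases x with x | (x | x) <;> fin_cases x <;> rfl
  right_inv := by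
    intro x
    fin_cases x <;> rfl

/-- the inverse of the basis -/
def Li : Fin 2 ⊕ (Fin 4 ⊕ Fin 4) → Fin (9 + 1) → k :=
  Sum.elim ![![1, 0, 0, 0, 0, 0, 0, 0, 0, 0], ![0, 0, 1, 0, 0, 0, 0, 0, 0, 0]] (Sum.elim ![![0, 1, 0, 0, 0, 0, 0, 0, 0, 0], ![0, 0, 0, 1, 0, 0, 0, 0, 0, 0], ![0, 0, 0, 0, 0, 1, 0, 0, 0, 0], ![0, 0, 0, 0, 1, 0, 0, 0, 0, 0]] ![![0, 0, 0, 0, 0, 0, 1, 0, 0, 0], ![0, 0, 0, 0, -1, 0, 0, 1, 0, 0], ![0, 0, 0, 0, 0, 0, 0, 0, 1, 0], ![0, 0, 0, 0, 0, 0, 0, 0, 0, 1]])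

/-- coordinates of the products -/
def ro : Fin 6 → Fin 2 ⊕ (Fin 4 ⊕ Fin 4) → k :=
  ![Sum.elim ![0, 1] (Sum.elim ![0, 0, 0, 0] ![0, 0, 0, 0]), Sum.elim ![0, 0] (Sum.elim ![0, 0, 0, 1] ![0, -1, 0, 0]), Sum.elim ![0, 0] (Sum.elim ![0, 0, 0, 0] ![1, 0, 0, 0]), Sum.elim ![0, 0] (Sum.elim ![0, 0, 1, 0] ![0, 0, 1, 0]), Sum.elim ![0, 0] (Sum.elim ![0, 0, 0, 0] ![0, 1, 0, 0]), Sum.elim ![0, 0] (Sum.elim ![0, 0, 0, 0] ![1, 0, 0, 2])]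

/-- remainders of the products -/
noncomputable def rr : Fin 6 → k[X] :=
  ![0, 0, 0, 0, 1, X ^ 2]

/-- velocity of `u` -/
def uu (v : Fin 6 × Fin 4 → k) : ℕ → k
  | 0 => -(1 / 4 * v (0, 0)) + 1 / 4 * v (1, 2) + 1 / 4 * v (4, 2)
  | 4 => -v (1, 0) - v (4, 0)
  | 5 => -v (1, 1) - v (4, 1)
  | 6 => -v (0, 0)
  | 7 => -v (0, 1) - v (1, 0) - v (4, 0)
  | 8 => -v (0, 2)
  | 9 => -v (0, 3)
  | _ => 0

/-- velocity of `x` -/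
def xx (v : Fin 6 × Fin 4 → k) : ℕ → k
  | _ => 0

/-- velocity of `b` -/
def b1 (v : Fin 6 × Fin 4 → k) : k := -(1 / 2 * v (0, 1)) - 1 / 2 * v (1, 0) + 1 / 2 * v (1, 3) - 1 / 2 * v (4, 0) + 1 / 2 * v (4, 3)

/-- velocity of `bb` -/
def bb1 (v : Fin 6 × Fin 4 → k) : k := 0

/-- velocity of `f` -/
def hh (v : Fin 6 × Fin 4 → k) : Fin 4 → Fin 4 → k :=
  ![![-v (2, 0), 1 / 2 * v (0, 0) - 1 / 2 * v (1, 2) - v (2, 1) - 1 / 2 * v (4, 2), -(2 * v (1, 0)) - v (2, 2) - 2 * v (4, 0), -(2 * v (1, 1)) - v (2, 3) - 2 * v (4, 1)], ![-(1 / 2 * v (0, 1)) - 1 / 2 * v (1, 0) + 1 / 2 * v (1, 3) - 3 / 2 * v (4, 0) + 1 / 2 * v (4, 3), -v (4, 1), -v (0, 0) + v (1, 2), -v (0, 1) - 4 * v (1, 0) + v (1, 3) - 4 * v (4, 0)], ![-(3 / 4 * v (0, 0)) + 3 / 4 * v (1, 2) - v (3, 0) + 3 / 4 * v (4, 2), -v (0, 1) - v (1, 0) + v (1, 3) - v (3, 1) - v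 (4, 0) + v (4, 3), -v (3, 2), -v (3, 3)], ![1 / 2 * v (2, 0) - 1 / 2 * v (5, 0), -(7 / 8 * v (0, 0)) + 7 / 8 * v (1, 2) + 1 / 2 * v (2, 1) + 7 / 8 * v (4, 2) - 1 / 2 * v (5, 1), -(1 / 2 * v (0, 1)) - v (1, 0) + 1 / 2 * v (1, 3) + 1 / 2 * v (2, 2) - v (4, 0) + 1 / 2 * v (4, 3) - 1 / 2 * v (5, 2), -(1 / 2 * v (1, 1)) + 1 / 2 * v (2, 3) - 1 / 2 * v (4, 1) - 1 / 2 * v (5, 3)]]

theorem coeff_bu (b : k) (u : k[X]) (m : ℕ) :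
    (bu b u).coeff m = if m = 0 then 0 else b * u.coeff m := by
  rw [bu, Polynomial.coeff_C_mul, Polynomial.coeff_sub, Polynomial.coeff_C]
  split_ifs with h
  · rw [h, sub_self, mul_zero]
  · rw [sub_zero]

variable (v : Fin 6 × Fin 4 → k)

theorem hL (x y : Fin 2 ⊕ (Fin 4 ⊕ Fin 4)) :
    ∑ m : Fin (9 + 1), (Li x m : k) * (gTG (X ^ 2) (X ^ 1) (X ^ 3) (X ^ 5) (X ^ 4 + X ^ 7) ![X ^ 6, X ^ 7, X ^ 8, X ^ 9] y : k[X]).coeff m =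
      if x = y then 1 else 0 := by
  rcases x with x | (x | x) <;> rcases y with y | (y | y) <;> fin_cases x <;> fin_cases y <;>
    simp [Li, gTG, Fin.sum_univ_succ, Polynomial.coeff_X_pow, Polynomial.coeff_one,
      Polynomial.coeff_X]

theorem hro (κ : Fin 6) : ![X ^ 1, X ^ 3, X ^ 2 + X ^ 5] (repG κ).1 * ![X ^ 1, X ^ 3, X ^ 5, X ^ 4 + X ^ 7] (repG κ).2 =
      ∑ y, Polynomial.C (ro κ y) * (gTG (X ^ 2) (X ^ 1) (X ^ 3) (X ^ 5) (X ^ 4 + X ^ 7) ![X ^ 6, X ^ 7, X ^ 8, X ^ 9] y : k[X]) +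
        (Polynomial.X ^ (9 + 1) * rr κ : k[X]) := by
  fin_cases κ <;> simp [repG, ro, rr, gTG, Fin.sum_univ_succ, map_ofNat] <;> ring

variable [CharZero k]

theorem H (κ : Fin 6) (l : Fin 4) (U Y D1 D2 DQ D3 : k[X]) (hU : U = pf 9 (uu v))
    (hY : Y = pf 9 (xx v)) (h1 : D1 = X ^ 1 * U + Y * X ^ 2 + (bu 0 U + bu (b1 v) (X ^ 2)))
    (h2 : D2 = (X ^ 3) * U + D1 * (X ^ 2)) (hq : DQ = D2 + (bu 1 U + bu (bb1 v) (X ^ 2)))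
    (h3 : D3 = (X ^ 2 + X ^ 5) * U + DQ * (X ^ 2)) :
      ∑ m : Fin (9 + 1), (Li (.inr (.inr l)) m : k) *
        ((![Y, D1, DQ] (repG κ).1 * ![X ^ 1, X ^ 3, X ^ 5, X ^ 4 + X ^ 7] (repG κ).2 +
          ![X ^ 1, X ^ 3, X ^ 2 + X ^ 5] (repG κ).1 * ![Y, D1, D2, D3] (repG κ).2).coeff m -
          ∑ y, ro κ y * (Sum.elim ![0, U] (Sum.elim ![Y, D1, D2, D3]
            (fun l => ∑ l', Polynomial.C (hh v l l') * ![X ^ 6, X ^ 7, X ^ 8, X ^ 9] l')) y).coeff m) = v (κ, l) := by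
  have cu : ∀ m : ℕ, U.coeff m = if m < 9 + 1 then uu v m else 0 := fun m => by rw [hU, coeff_pf]
  have cy : ∀ m : ℕ, Y.coeff m = if m < 9 + 1 then xx v m else 0 := fun m => by rw [hY, coeff_pf]
  have c1 : ∀ m : ℕ, D1.coeff m = (X ^ 1 * U + Y * X ^ 2 + (bu 0 U + bu (b1 v) (X ^ 2))).coeff m :=
    fun m => by rw [h1]
  have c2 : ∀ m : ℕ, D2.coeff m = ((X ^ 3) * U + D1 * (X ^ 2)).coeff m := fun m => by rw [h2]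
  have cq : ∀ m : ℕ, DQ.coeff m = (D2 + (bu 1 U + bu (bb1 v) (X ^ 2))).coeff m := fun m => by rw [hq]
  have c3 : ∀ m : ℕ, D3.coeff m = ((X ^ 2 + X ^ 5) * U + DQ * (X ^ 2)).coeff m := fun m => by rw [h3]
  have la : ∀ (l : Fin 4) (F : Fin (9 + 1) → k), ∑ m, (Li (.inr (.inr l)) m : k) * F m =
      ![F 6, -F 4 + F 7, F 8, F 9] l := by
    intro l F
    fin_cases l <;> simp [Li, Fin.sum_univ_succ] <;> ring
  have lb : ∀ (κ : Fin 6) (F : Fin 2 ⊕ (Fin 4 ⊕ Fin 4) → k), ∑ y, (ro κ y : k) * F y =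
      ![F (.inl 1), F (.inr (.inl 3)) - F (.inr (.inr 1)), F (.inr (.inr 0)), F (.inr (.inl 2)) + F (.inr (.inr 2)), F (.inr (.inr 1)), F (.inr (.inr 0)) + 2 * F (.inr (.inr 3))] κ := by
    intro κ F
    fin_cases κ <;> simp [ro, Fin.sum_univ_succ] <;> ring
  refine (la l _).trans ?_
  simp only [lb]
  fin_cases κ <;> fin_cases l <;>
    simp [repG, Fin.sum_univ_succ, mul_add, add_mul, mul_sub, sub_mul,
      Polynomial.coeff_mul_X_pow', Polynomial.coeff_X_pow_mul', Polynomial.coeff_X_pow,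
      Polynomial.coeff_X, coeff_bu, cu, cy, c1, c2, cq, c3] <;>
    simp [uu, xx, b1, bb1, hh] <;> ring

end CertTG4

open CertTG4 in
/-- all triples `TG 4 G` are limits of curvilinear triples -/
theorem cl_TG4 {k : Type*} [Field k] [CharZero k] (G : Fin 6 × Fin 4 → k) : Cl (TG 4 G) := by
  refine cl_TG_of_cert (c := 4) (n := 9) ex (X ^ 2) (X ^ 1) (X ^ 3) (X ^ 5) (X ^ 2 + X ^ 5) (X ^ 4 + X ^ 7) 0 1 ![X ^ 6, X ^ 7, X ^ 8, X ^ 9] ?_ ?_ ?_ ?_ ?_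
    Li hL ro rr hro uu xx b1 bb1 hh (fun v => rfl) (fun v κ l U Y D1 D2 DQ D3 hU hY h1 h2 hq h3 =>
      H v κ l U Y D1 D2 DQ D3 hU hY h1 h2 hq h3) G
  · simp
  all_goals first | ring1 | (simp [bu]; done) | (simp [bu]; ring1)

end Pool.Agent.Lib.D10
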