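import Pool.Agent.Lib.D10.DensH

/-!
# MP_5dcbc3_ag: all triples `TR 3 R` are limits of curvilinear triples

Base point: `u = X ^ 3`, `X_0 = X ^ 1`, `X_1 = X ^ 2`, `X_2 = X ^ 3 + X ^ 5`, `f`: t^7, t^8, t^9.
-/

namespace Pool.Agent.Lib.D10

open Matrix Polynomial Pool.Agent.Lib.Q5dc Pool.Agent.Lib.D7 Pool.Agent.Lib.D9
open Pool.Agent.Lib.D9.DensX Pool.Agent.Lib.D10 Pool.Agent.Lib.D10.DensG

namespace CertTR3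

variable {k : Type*} [Field k]

/-- the exponents -/
def ex : Fin 2 ⊕ (Fin 5 ⊕ Fin 3) ≃ Fin (9 + 1) where
  toFun := Sum.elim ![3, 0] (Sum.elim ![4, 1, 5, 2, 6] ![7, 8, 9])
  invFun := ![.inl 1, .inr (.inl 1), .inr (.inl 3), .inl 0, .inr (.inl 0), .inr (.inl 2), .inr (.inl 4), .inr (.inr 0), .inr (.inr 1), .inr (.inr 2)]
  left_inv := by
    intro x
    rcases x with x | (x | x) <;> fin_cases x <;> rfl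
  right_inv := by
    intro x
    fin_cases x <;> rfl

/-- the inverse of the basis -/
def Li : Fin 2 ⊕ (Fin 5 ⊕ Fin 3) → Fin (9 + 1) → k :=
  Sum.elim ![![0, 0, 0, 1, 0, -1, 0, 0, 0, 0], ![1, 0, 0, 0, 0, 0, 0, 0, 0, 0]] (Sum.elim ![![0, 0, 0, 0, 1, 0, 0, 0, 0, 0], ![0, 1, 0, 0, 0, 0, 0, 0, 0, 0], ![0, 0, 0, 0, 0, 1, 0, 0, 0, 0], ![0, 0, 1, 0, 0, 0, 0, 0, 0, 0], ![0, 0, 0, 0, 0, 0, 1, 0, 0, 0]] ![![0, 0, 0, 0, 0, 0, 0, 1, 0, 0], ![0, 0, 0, 0, 0, 0, -1, 0, 1, 0], ![0, 0, 0, 0, 0, 0, 0, 0, 0, 1]])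

/-- coordinates of the products -/
def ro : Fin 9 → Fin 2 ⊕ (Fin 5 ⊕ Fin 3) → k :=
  ![Sum.elim ![-1, 0] (Sum.elim ![0, 0, 1, 0, 0] ![0, 0, 0]), Sum.elim ![0, 0] (Sum.elim ![0, 0, 0, 1, 0] ![0, 0, 0]), Sum.elim ![0, 0] (Sum.elim ![1, 0, 0, 0, 1] ![0, -1, 0]), Sum.elim ![1, 0] (Sum.elim ![0, 0, 0, 0, 0] ![0, 0, 0]), Sum.elim ![0, 0] (Sum.elim ![0, 0, 0, 0, 0] ![1, 0, 1]), Sum.elim ![-1, 0] (Sum.elim ![0, 0, 1, 0, 0] ![1, 0, 0]), Sum.elim ![0, 0] (Sum.elim ![1, 0, 0, 0, 0] ![0, 0, 0]), Sum.elim ![0, 0] (Sum.elim ![0, 0, 0, 0, 0] ![0, 1, 0]), Sum.elim ![0, 0] (Sum.elim ![0, 0, 0, 0, 0] ![0, 0, 1])]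

/-- remainders of the products -/
noncomputable def rr : Fin 9 → k[X] :=
  ![0, 0, 0, 0, 0, 0, 0, 1, C 2 * X ^ 1 + X ^ 3]

/-- velocity of `u` -/
def uu (v : Fin 9 × Fin 3 → k) : ℕ → k
  | 0 => 1 / 4 * v (0, 1) - 1 / 4 * v (1, 0) + 1 / 2 * v (2, 0) + 1 / 4 * v (3, 1) + 1 / 4 * v (6, 0) - 1 / 4 * v (6, 2) + 1 / 2 * v (7, 0)
  | 1 => 1 / 4 * v (0, 0) - 1 / 4 * v (2, 1) - 1 / 4 * v (4, 2) + 1 / 4 * v (5, 2) - 1 / 4 * v (7, 1) + 1 / 4 * v (8, 2)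
  | 2 => -(7 / 20 * v (0, 1)) + 1 / 20 * v (1, 0) - 1 / 2 * v (2, 0) + 3 / 10 * v (2, 2) - 1 / 20 * v (3, 1) - 1 / 5 * v (4, 1) + 1 / 5 * v (5, 1) - 7 / 20 * v (6, 0) + 1 / 20 * v (6, 2) - 1 / 2 * v (7, 0) + 3 / 10 * v (7, 2) + 1 / 5 * v (8, 1)
  | 3 => 2 * v (0, 0) - v (0, 2) - 2 * v (2, 1) + v (3, 0) + 2 * v (4, 0) - v (4, 2) - 2 * v (5, 0) + v (5, 2) - v (6, 1) - 2 * v (7, 1) - 2 * v (8, 0) + v (8, 2)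
  | 5 => -(2 * v (0, 0)) + v (0, 2) - v (3, 0) + v (6, 1)
  | 6 => -(2 * v (1, 0)) + 2 * v (3, 1) + v (6, 0) - 2 * v (6, 2)
  | 7 => -v (0, 2) - v (3, 0)
  | 8 => -(1 / 2 * v (1, 0)) - v (6, 2)
  | 9 => 1 / 2 * v (0, 2) + 1 / 2 * v (1, 1) - v (3, 2)
  | _ => 0

/-- velocity of `x` -/
def xx (v : Fin 9 × Fin 3 → k) : ℕ → k
  | 2 => -(1 / 2 * v (0, 1)) + 1 / 2 * v (1, 0) - 1 / 2 * v (3, 1) - 1 / 2 * v (6, 0) + 1 / 2 * v (6, 2)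
  | 6 => 1 / 2 * v (1, 0)
  | 7 => 1 / 2 * v (0, 2) + 1 / 2 * v (1, 1)
  | _ => 0

/-- velocity of `y` -/
def yy (v : Fin 9 × Fin 3 → k) : ℕ → k
  | 1 => 7 / 20 * v (0, 1) - 11 / 20 * v (1, 0) + 1 / 2 * v (2, 0) + 1 / 5 * v (2, 2) + 11 / 20 * v (3, 1) + 1 / 5 * v (4, 1) - 1 / 5 * v (5, 1) + 7 / 20 * v (6, 0) - 11 / 20 * v (6, 2) + 1 / 2 * v (7, 0) + 1 / 5 * v (7, 2) - 1 / 5 * v (8, 1)
  | 4 => -v (0, 0)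
  | 5 => -v (1, 0) + v (3, 1) + v (6, 0) - v (6, 2)
  | 6 => -v (0, 2)
  | 9 => -v (1, 2)
  | _ => 0

/-- velocity of `b` -/
def b1 (v : Fin 9 × Fin 3 → k) : k := -(7 / 4 * v (0, 0)) + v (0, 2) + 7 / 4 * v (2, 1) - v (3, 0) - v (4, 0) + 3 / 4 * v (4, 2) + v (5, 0) - 3 / 4 * v (5, 2) + v (6, 1) + 7 / 4 * v (7, 1) + v (8, 0) - 3 / 4 * v (8, 2)

/-- velocity of `f` -/
def hh (v : Fin 9 × Fin 3 → k) : Fin 3 → Fin 3 → k :=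
  ![![2 * v (0, 0) - v (0, 2) - 2 * v (2, 1) + v (3, 0) + 2 * v (4, 0) - v (4, 2) - 3 * v (5, 0) + v (5, 2) - v (6, 1) - 2 * v (7, 1) - 2 * v (8, 0) + v (8, 2), -(7 / 20 * v (0, 1)) + 21 / 20 * v (1, 0) - 1 / 2 * v (2, 0) - 7 / 10 * v (2, 2) - 21 / 20 * v (3, 1) - 1 / 5 * v (4, 1) - 4 / 5 * v (5, 1) - 7 / 20 * v (6, 0) + 21 / 20 * v (6, 2) - 1 / 2 * v (7, 0) - 7 / 10 * v (7, 2) + 1 / 5 * v (8, 1), -(4 * v (0, 0)) + v (0, 2) - v (3, 0) - v (5, 2) + v (6, 1)], ![3 / 20 * v (0, 1) - 19 / 20 * v (1, 0) + 1 / 2 * v (2, 0) + 4 / 5 * v (2, 2) + 19 / 20 * v (3, 1) - 1 / 5 * v (4, 1) + 1 / 5 * v (5, 1) + 3 / 20 * v (6, 0) - 19 / 20 * v (6, 2) - 1 / 2 * v (7, 0) + 4 / 5 * v (7, 2) + 1 / 5 * v (8, 1), 9 / 4 * v (0, 0) - v (0, 2) - 9 / 4 * v (2, 1) + v (3, 0) + 3 * v (4, 0) - 5 / 4 * v (4, 2) - 3 * v (5, 0) + 5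 / 4 * v (5, 2) - v (6, 1) - 13 / 4 * v (7, 1) - 3 * v (8, 0) + 5 / 4 * v (8, 2), -v (1, 0) + v (2, 2) + v (3, 1) - v (6, 2)], ![3 / 4 * v (0, 0) - 3 / 4 * v (2, 1) - 3 / 4 * v (4, 2) + 3 / 4 * v (5, 2) - 3 / 4 * v (7, 1) - v (8, 0) + 3 / 4 * v (8, 2), -(3 / 10 * v (0, 1)) - 3 / 5 * v (1, 0) + 9 / 10 * v (2, 2) + 3 / 5 * v (3, 1) - 3 / 5 * v (4, 1) + 3 / 5 * v (5, 1) - 3 / 10 * v (6, 0) - 3 / 5 * v (6, 2) + 9 / 10 * v (7, 2) - 2 / 5 * v (8, 1), 4 * v (0, 0) - v (0, 2) - 4 * v (2, 1) + v (3, 0) + 4 * v (4, 0) - 3 * v (4, 2) - 4 * v (5, 0) + 3 * v (5, 2) - v (6, 1) - 4 * v (7, 1) - 4 * v (8, 0) + 2 * v (8, 2)]]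

theorem coeff_bu (b : k) (u : k[X]) (m : ℕ) :
    (bu b u).coeff m = if m = 0 then 0 else b * u.coeff m := by
  rw [bu, Polynomial.coeff_C_mul, Polynomial.coeff_sub, Polynomial.coeff_C]
  split_ifs with h
  · rw [h, sub_self, mul_zero]
  · rw [sub_zero]

variable (v : Fin 9 × Fin 3 → k)

theorem hL (x y : Fin 2 ⊕ (Fin 5 ⊕ Fin 3)) :
    ∑ m : Fin (9 + 1), (Li x m : k) * (gTR (X ^ 3) (X ^ 4) (X ^ 1) (X ^ 3 + X ^ 5) (X ^ 2) (X ^ 6 + X ^ 8) ![X ^ 7, X ^ 8, X ^ 9] y : k[X]).coeff m =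
      if x = y then 1 else 0 := by
  rcases x with x | (x | x) <;> rcases y with y | (y | y) <;> fin_cases x <;> fin_cases y <;>
    simp [Li, gTR, Fin.sum_univ_succ, Polynomial.coeff_X_pow, Polynomial.coeff_one,
      Polynomial.coeff_X]

theorem hro (κ : Fin 9) : ![X ^ 1, X ^ 2, X ^ 3 + X ^ 5] (repR κ).1 * ![X ^ 4, X ^ 1, X ^ 3 + X ^ 5, X ^ 2, X ^ 6 + X ^ 8] (repR κ).2 =
      ∑ y, Polynomial.C (ro κ y) * (gTR (X ^ 3) (X ^ 4) (X ^ 1) (X ^ 3 + X ^ 5) (X ^ 2) (X ^ 6 + X ^ 8) ![X ^ 7, X ^ 8, X ^ 9] y : k[X]) +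
        (Polynomial.X ^ (9 + 1) * rr κ : k[X]) := by
  fin_cases κ <;> simp [repR, ro, rr, gTR, Fin.sum_univ_succ, map_ofNat] <;> ring

variable [CharZero k]

theorem la (l : Fin 3) (F : Fin (9 + 1) → k) : ∑ m, (Li (.inr (.inr l)) m : k) * F m =
      ![F 7, -F 6 + F 8, F 9] l := by
  fin_cases l <;> simp [Li, Fin.sum_univ_succ] <;> ring

theorem lb (κ : Fin 9) (F : Fin 2 ⊕ (Fin 5 ⊕ Fin 3) → k) : ∑ y, (ro κ y : k) * F y =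
      ![-F (.inl 0) + F (.inr (.inl 2)), F (.inr (.inl 3)), F (.inr (.inl 0)) + F (.inr (.inl 4)) - F (.inr (.inr 1)), F (.inl 0), F (.inr (.inr 0)) + F (.inr (.inr 2)), -F (.inl 0) + F (.inr (.inl 2)) + F (.inr (.inr 0)), F (.inr (.inl 0)), F (.inr (.inr 1)), F (.inr (.inr 2))] κ := by
  fin_cases κ <;> simp [ro, Fin.sum_univ_succ] <;> ring

theorem H (κ : Fin 9) (l : Fin 3) (U V W D D0 D4 : k[X]) (hU : U = pf 9 (uu v))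
    (hV : V = pf 9 (xx v)) (hW : W = pf 9 (yy v))
    (h1 : D = (X ^ 2) * U + W * (X ^ 3) + (bu 1 U + bu (b1 v) (X ^ 3)))
    (h0 : D0 = (X ^ 1) * U + V * (X ^ 3)) (h4 : D4 = (X ^ 3 + X ^ 5) * U + D * (X ^ 3)) :
      ∑ m : Fin (9 + 1), (Li (.inr (.inr l)) m : k) *
        ((![V, W, D] (repR κ).1 * ![X ^ 4, X ^ 1, X ^ 3 + X ^ 5, X ^ 2, X ^ 6 + X ^ 8] (repR κ).2 +
          ![X ^ 1, X ^ 2, X ^ 3 + X ^ 5] (repR κ).1 * ![D0, V, D, W, D4] (repR κ).2).coeff m -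
          ∑ y, ro κ y * (Sum.elim ![U, 0] (Sum.elim ![D0, V, D, W, D4]
            (fun l => ∑ l', Polynomial.C (hh v l l') * ![X ^ 7, X ^ 8, X ^ 9] l')) y).coeff m) = v (κ, l) := by
  have cu : ∀ m : ℕ, U.coeff m = if m < 9 + 1 then uu v m else 0 := fun m => by rw [hU, coeff_pf]
  have cv : ∀ m : ℕ, V.coeff m = if m < 9 + 1 then xx v m else 0 := fun m => by rw [hV, coeff_pf]
  have cw : ∀ m : ℕ, W.coeff m = if m < 9 + 1 then yy v m else 0 := fun m => by rw [hW, coeff_pf]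
  have c1 : ∀ m : ℕ, D.coeff m = ((X ^ 2) * U + W * (X ^ 3) + (bu 1 U + bu (b1 v) (X ^ 3))).coeff m := fun m => by rw [h1]
  have c0 : ∀ m : ℕ, D0.coeff m = ((X ^ 1) * U + V * (X ^ 3)).coeff m := fun m => by rw [h0]
  have c4 : ∀ m : ℕ, D4.coeff m = ((X ^ 3 + X ^ 5) * U + D * (X ^ 3)).coeff m := fun m => by rw [h4]
  refine (la l _).trans ?_
  simp only [lb]
  fin_cases κ <;> fin_cases l <;>
    simp [repR, Fin.sum_univ_succ, mul_add, add_mul, mul_sub, sub_mul,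
      Polynomial.coeff_mul_X_pow', Polynomial.coeff_X_pow_mul', Polynomial.coeff_X_pow,
      Polynomial.coeff_X, coeff_bu, cu, cv, cw, c1, c0, c4] <;>
    simp [uu, xx, yy, b1, hh] <;> ring

end CertTR3

open CertTR3 in
/-- all triples `TR 3 R` are limits of curvilinear triples -/
theorem cl_TR3 {k : Type*} [Field k] [CharZero k] (R : Fin 9 × Fin 3 → k) : Cl (TR 3 R) := by
  refine cl_TR_of_cert (c := 3) (n := 9) ex (X ^ 3) (X ^ 1) (X ^ 2) (X ^ 3 + X ^ 5) (X ^ 4) (X ^ 6 + X ^ 8) 1 ![X ^ 7, X ^ 8, X ^ 9] ?_ ?_ ?_ ?_ ?_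
    Li hL ro rr hro uu xx yy b1 hh (fun v => rfl) (fun v => rfl)
    (fun v κ l U V W D D0 D4 hU hV hW h1 h0 h4 => H v κ l U V W D D0 D4 hU hV hW h1 h0 h4) R
  · simp
  · simp
  all_goals first | ring1 | (simp [bu]; done) | (simp [bu]; ring1)

end Pool.Agent.Lib.D10
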