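import Pool.Agent.Lib.D9.DensX
import Pool.Agent.Lib.D10.FamsC

/-!
# MP_5dcbc3_ag: a criterion for graded triples to be limits of curvilinear triples, general base point

`TS sg ta G`: `X_i v_a = e_(sg i a)`, `X_i e_j = G (ta i j, .)`. The curves are adapted bases `g s`
of `k[t] / t ^ (n + 1)` together with three elements `xi s`, with exact products on the generators;
only the first-order terms of `g` and `xi` enter the criterion.
-/

namespace Pool.Agent.Lib.D10

open Matrix Pool.Agent.Lib.Q5dc Pool.Agent.Lib.D7 Pool.Agent.Lib.D9 Pool.Agent.Lib.D9.DensX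

variable {k : Type*} [Field k]

/-- graded triple: `X_i v_a = e_(sg i a)`, `X_i e_j = G (ta i j, .)` -/
def TS {A B K : Type*} [DecidableEq B] {c : ℕ} (sg : Fin 3 → A → B) (ta : Fin 3 → B → K)
    (G : K × Fin c → k) (i : Fin 3) :
    Matrix (A ⊕ (B ⊕ Fin c)) (A ⊕ (B ⊕ Fin c)) k :=
  Matrix.of fun x y => match x, y with
    | .inr (.inl j), .inl a => if j = sg i a then 1 else 0
    | .inr (.inr m), .inr (.inl j) => G (ta i j, m)
    | _, _ => 0

namespace DensG

/-! ### jets -/

theorem J.sub {f g : k → k} {a b a' b' : k} (hf : J f a b) (hg : J g a' b') :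
    J (fun s => f s - g s) (a - a') (b - b') := by
  have h := hf.add ((J.const (-1 : k)).mul hg)
  exact h.congr' (fun s => by ring) (by ring) (by ring)

theorem J.poly' {f : k → k} (p : Polynomial k) (h : ∀ s, f s = p.eval s) :
    J f (p.coeff 0) (p.coeff 1) :=
  (J.poly p).congr' (fun s => by rw [h s]) rfl rfl

/-- a jet is a polynomial function -/
theorem J.exists {f : k → k} {a b : k} (h : J f a b) :
    ∃ p : Polynomial k, (∀ s, f s = p.eval s) ∧ p.coeff 0 = a ∧ p.coeff 1 = b := by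
  obtain ⟨w, hw⟩ := h
  refine ⟨Polynomial.C a + Polynomial.X * (Polynomial.C b + Polynomial.X * w), fun s => ?_, ?_, ?_⟩
  · rw [hw]
    simp only [Polynomial.eval_add, Polynomial.eval_mul, Polynomial.eval_C, Polynomial.eval_X]
    ring
  · simp
  · simp [Polynomial.coeff_X_mul, Polynomial.coeff_C]

/-- jets of functions with values in polynomials -/
def JP (f : k → Polynomial k) (a b : Polynomial k) : Prop :=
  ∀ m, J (fun s => (f s).coeff m) (a.coeff m) (b.coeff m)

theorem JP.const (a : Polynomial k) : JP (fun _ => a) a 0 := fun m =>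
  (J.const (a.coeff m)).congr rfl (by simp)

theorem JP.line (a b : Polynomial k) : JP (fun s => a + Polynomial.C s * b) a b := fun m =>
  (J.line (a.coeff m) (b.coeff m)).congr' (fun s => by simp) rfl rfl

theorem JP.add {f g : k → Polynomial k} {a b a' b' : Polynomial k} (hf : JP f a b)
    (hg : JP g a' b') : JP (fun s => f s + g s) (a + a') (b + b') := fun m =>
  ((hf m).add (hg m)).congr' (fun s => by simp) (by simp) (by simp)

theorem JP.mul {f g : k → Polynomial k} {a b a' b' : Polynomial k} (hf : JP f a b)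
    (hg : JP g a' b') : JP (fun s => f s * g s) (a * a') (a * b' + b * a') := fun m =>
  (J.sum (Finset.HasAntidiagonal.antidiagonal m) fun z => (hf z.1).mul (hg z.2)).congr'
    (fun s => Polynomial.coeff_mul _ _ _) (Polynomial.coeff_mul _ _ _).symm (by
      rw [Polynomial.coeff_add, Polynomial.coeff_mul, Polynomial.coeff_mul,
        ← Finset.sum_add_distrib])

theorem JP.C {f : k → k} {a b : k} (hf : J f a b) :
    JP (fun s => Polynomial.C (f s)) (Polynomial.C a) (Polynomial.C b) := by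
  intro m
  by_cases h : m = 0
  · subst h
    exact hf.congr' (fun s => by simp) (by simp) (by simp)
  · exact (J.const 0).congr' (fun s => by rw [Polynomial.coeff_C, if_neg h])
      (by rw [Polynomial.coeff_C, if_neg h]) (by rw [Polynomial.coeff_C, if_neg h])

theorem JP.congr {f : k → Polynomial k} {a b a' b' : Polynomial k} (hf : JP f a b) (ha : a = a')
    (hb : b = b') : JP f a' b' := by
  subst ha hb
  exact hf

/-! ### multiplication -/

/-- vector of the first coefficients -/
def vc (n : ℕ) (p : Polynomial k) (m : Fin (n + 1)) : k := p.coeff m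

theorem mu_vc {n : ℕ} (p q : Polynomial k) (m : Fin (n + 1)) :
    ∑ j, mu (vc n p) m j * vc n q j = (p * q).coeff m := by
  rw [Polynomial.coeff_mul, Finset.Nat.sum_antidiagonal_eq_sum_range_succ
    (fun i j => p.coeff i * q.coeff j), ← Finset.sum_range_reflect]
  simp only [mu_apply, vc, ite_mul, zero_mul]
  rw [Finset.sum_ite, Finset.sum_const_zero, add_zero]
  refine Finset.sum_bij (fun j _ => (j : ℕ)) ?_ ?_ ?_ ?_
  · intro j hj
    have h := (Finset.mem_filter.1 hj).2
    rw [Finset.mem_range]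
    omega
  · intro a _ b _ h
    exact Fin.ext h
  · intro b hb
    have h := Finset.mem_range.1 hb
    have hm := m.2
    exact ⟨⟨b, by omega⟩, Finset.mem_filter.2 ⟨Finset.mem_univ _, by simp only; omega⟩, rfl⟩
  · intro j hj
    have h := (Finset.mem_filter.1 hj).2
    have e1 : (m : ℕ) - (m + 1 - 1 - j) = j := by omega
    have e2 : (m : ℕ) + 1 - 1 - j = (m : ℕ) - j := by omega
    rw [e1, e2]

section Main

variable {A B : Type*} [Fintype A] [DecidableEq A] [Fintype B] [DecidableEq B] {c n : ℕ}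

/-- matrix of a basis -/
def Gam (ex : A ⊕ (B ⊕ Fin c) ≃ Fin (n + 1)) (g : A ⊕ (B ⊕ Fin c) → Polynomial k) :
    Matrix (Fin (n + 1)) (Fin (n + 1)) k :=
  Matrix.of fun a b => (g (ex.symm b)).coeff a

/-- the triple in the basis -/
def Mg (ex : A ⊕ (B ⊕ Fin c) ≃ Fin (n + 1)) (g : A ⊕ (B ⊕ Fin c) → Polynomial k)
    (xi : Fin 3 → Polynomial k) (i : Fin 3) : Matrix (Fin (n + 1)) (Fin (n + 1)) k :=
  adjugate (Gam ex g) * mu (vc n (xi i)) * Gam ex g

variable {ex : A ⊕ (B ⊕ Fin c) ≃ Fin (n + 1)} {g : A ⊕ (B ⊕ Fin c) → Polynomial k}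
  {xi : Fin 3 → Polynomial k}

omit [Fintype A] [DecidableEq A] [Fintype B] [DecidableEq B] in
theorem Mg_cl (h0 : ∀ i, (xi i).coeff 0 = 0) (hd : (Gam ex g).det ≠ 0) : Cl (Mg ex g xi) := by
  have h1 : Cl fun i => mu (vc n (xi i)) := Cl.of_curv (curv_mu _ fun i => h0 i)
  have e1 : ((Gam ex g).det⁻¹ • adjugate (Gam ex g)) * Gam ex g = 1 := by
    rw [Matrix.smul_mul, Matrix.adjugate_mul, smul_smul, inv_mul_cancel₀ hd, one_smul]
  have h2 := D8.cl_smul3 (Cl.conj _ _ e1 (mul_eq_one_comm.1 e1) h1) fun _ => (Gam ex g).det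
  have h3 : (fun i => (Gam ex g).det • (((Gam ex g).det⁻¹ • adjugate (Gam ex g)) *
      mu (vc n (xi i)) * Gam ex g)) = Mg ex g xi := by
    funext i
    rw [Matrix.smul_mul, Matrix.smul_mul, smul_smul, mul_inv_cancel₀ hd, one_smul, Mg]
  rw [h3] at h2
  exact h2

omit [Fintype A] [DecidableEq A] [Fintype B] [DecidableEq B] in
theorem Mg_comm (i j : Fin 3) : Mg ex g xi i * Mg ex g xi j = Mg ex g xi j * Mg ex g xi i := by
  have h1 : ∀ i j : Fin 3, Mg ex g xi i * Mg ex g xi j = (Gam ex g).det •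
      (adjugate (Gam ex g) * (mu (vc n (xi i)) * mu (vc n (xi j))) * Gam ex g) := by
    intro i j
    have h2 : Mg ex g xi i * Mg ex g xi j = adjugate (Gam ex g) * mu (vc n (xi i)) *
        (Gam ex g * adjugate (Gam ex g)) * mu (vc n (xi j)) * Gam ex g := by
      simp only [Mg, Matrix.mul_assoc]
    rw [h2, Matrix.mul_adjugate, Matrix.mul_smul, Matrix.mul_one, Matrix.smul_mul, Matrix.smul_mul]
    simp only [Matrix.mul_assoc]
  rw [h1, h1, mu_comm]

omit [Fintype A] [DecidableEq A] [Fintype B] [DecidableEq B] in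
/-- the column of a basis vector -/
theorem Mg_apply (i : Fin 3) (x : Fin (n + 1)) (y : A ⊕ (B ⊕ Fin c)) :
    Mg ex g xi i x (ex y) = ∑ a : Fin (n + 1), adjugate (Gam ex g) x a * (xi i * g y).coeff a := by
  rw [Mg, Matrix.mul_assoc, Matrix.mul_apply]
  refine Finset.sum_congr rfl fun a _ => ?_
  congr 1
  rw [Matrix.mul_apply, ← mu_vc]
  refine Finset.sum_congr rfl fun b _ => ?_
  rw [Gam, Matrix.of_apply, Equiv.symm_apply_apply]
  rfl

omit [DecidableEq A] [DecidableEq B] in
theorem sum_ex (f : Fin (n + 1) → k) : ∑ b, f b = ∑ y : A ⊕ (B ⊕ Fin c), f (ex y) :=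
  (Equiv.sum_comp ex f).symm

omit [Fintype B] in
/-- the column of a generator -/
theorem Mg_col {sg : Fin 3 → A → B} {i : Fin 3} {a : A} {w : A → k}
    (h : xi i * g (.inl a) = g (.inr (.inl (sg i a))) +
      ∑ a', Polynomial.C (w a') * g (.inl a')) (x : A ⊕ (B ⊕ Fin c)) :
    Mg ex g xi i (ex x) (ex (.inl a)) = (Gam ex g).det * ((if x = .inr (.inl (sg i a)) then 1 else 0) +
      ∑ a', w a' * if x = .inl a' then 1 else 0) := by
  have hadj : ∀ x y : A ⊕ (B ⊕ Fin c), ∑ m : Fin (n + 1), adjugate (Gam ex g) (ex x) m *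
      (g y).coeff m = (Gam ex g).det * if x = y then 1 else 0 := by
    intro x y
    have h1 := congrFun (congrFun (Matrix.adjugate_mul (Gam ex g)) (ex x)) (ex y)
    rw [Matrix.mul_apply, Matrix.smul_apply, Matrix.one_apply, smul_eq_mul] at h1
    simp only [Gam, Matrix.of_apply, Equiv.symm_apply_apply, EmbeddingLike.apply_eq_iff_eq] at h1
    exact h1
  rw [Mg_apply, h]
  simp only [Polynomial.coeff_add, Polynomial.finsetSum_coeff, Polynomial.coeff_C_mul, mul_add,
    Finset.sum_add_distrib]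
  rw [hadj]
  congr 1
  simp only [Finset.mul_sum]
  rw [Finset.sum_comm]
  refine Finset.sum_congr rfl fun a' _ => ?_
  have h2 : ∀ m : Fin (n + 1), adjugate (Gam ex g) (ex x) m * (w a' * (g (.inl a')).coeff m) =
      w a' * (adjugate (Gam ex g) (ex x) m * (g (.inl a')).coeff m) := fun m => by ring
  rw [Finset.sum_congr rfl fun m _ => h2 m, ← Finset.mul_sum, hadj]
  ring

/-- level of a basis vector -/
def lw : A ⊕ (B ⊕ Fin c) → ℕ
  | .inl _ => 0
  | .inr (.inl _) => 1
  | .inr (.inr _) => 2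

theorem cl_TS {K : Type*} [Infinite k] (sg : Fin 3 → A → B) (ta : Fin 3 → B → K)
    (rep : K → Fin 3 × B)
    (hst : ∀ b : Fin 3 → B → k, (∀ i j a, b i (sg j a) = b j (sg i a)) →
      ∀ i j, b (rep (ta i j)).1 (rep (ta i j)).2 = b i j)
    (h0 : ∀ i, (xi i).coeff 0 = 0) (hd : (Gam ex g).det ≠ 0)
    (h : ∀ i a, ∃ w : A → k, xi i * g (.inl a) = g (.inr (.inl (sg i a))) +
      ∑ a', Polynomial.C (w a') * g (.inl a')) {l : k} (hl : l ≠ 0) :
    Cl (TS sg ta fun z : K × Fin c =>
      l * Mg ex g xi (rep z.1).1 (ex (.inr (.inr z.2))) (ex (.inr (.inl (rep z.1).2)))) := by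
  choose w hw using h
  have hcol := fun i a x => Mg_col (ex := ex) (xi := xi) (sg := sg) (hw i a) x
  have h1 : Cl fun i => (Matrix.reindexAlgEquiv k k ex.symm) (Mg ex g xi i) :=
    Cl.mapEquiv _ (Fintype.card_congr ex.symm) (Mg_cl h0 hd)
  have hent : ∀ i x y, (Matrix.reindexAlgEquiv k k ex.symm) (Mg ex g xi i) x y =
      Mg ex g xi i (ex x) (ex y) := by
    intro i x y
    rfl
  have hz : ∀ i (m : Fin c) (a : A), Mg ex g xi i (ex (.inr (.inr m))) (ex (.inl a)) = 0 := by
    intro i m a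
    rw [hcol]
    simp
  have h2 := cl_grad h1 lw (by
    intro i x y hne
    rw [hent] at hne
    rcases y with y | (y | y)
    · rcases x with x | (x | x)
      · simp [lw]
      · simp [lw]
      · exact absurd (hz i x y) hne
    · rcases x with x | (x | x) <;> simp [lw]
    · rcases x with x | (x | x) <;> simp [lw])
  set d : A ⊕ (B ⊕ Fin c) → k := fun x => match x with
    | .inl _ => (Gam ex g).det
    | .inr (.inl _) => 1
    | .inr (.inr _) => l with hdd
  have hd0 : ∀ x, d x ≠ 0 := by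
    intro x
    rcases x with x | (x | x)
    · exact hd
    · exact one_ne_zero
    · exact hl
  have h3 := Cl.conj (Matrix.diagonal d) (Matrix.diagonal fun x => (d x)⁻¹) (by
    rw [Matrix.diagonal_mul_diagonal, ← Matrix.diagonal_one]
    congr 1
    funext a
    exact mul_inv_cancel₀ (hd0 a)) (by
    rw [Matrix.diagonal_mul_diagonal, ← Matrix.diagonal_one]
    congr 1
    funext a
    exact inv_mul_cancel₀ (hd0 a)) h2
  have hsym : ∀ (m : Fin c) (i j : Fin 3) (a : A),
      Mg ex g xi i (ex (.inr (.inr m))) (ex (.inr (.inl (sg j a)))) =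
      Mg ex g xi j (ex (.inr (.inr m))) (ex (.inr (.inl (sg i a)))) := by
    intro m i j a
    have h4 : ∀ i j : Fin 3, (Mg ex g xi i * Mg ex g xi j) (ex (.inr (.inr m))) (ex (.inl a)) =
        Mg ex g xi i (ex (.inr (.inr m))) (ex (.inr (.inl (sg j a)))) * (Gam ex g).det := by
      intro i j
      rw [Matrix.mul_apply, sum_ex (ex := ex), Fintype.sum_sum_type, Fintype.sum_sum_type]
      have e1 : ∑ a' : A, Mg ex g xi i (ex (.inr (.inr m))) (ex (.inl a')) *
          Mg ex g xi j (ex (.inl a')) (ex (.inl a)) = 0 :=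
        Finset.sum_eq_zero fun a' _ => by rw [hz, zero_mul]
      have e2 : ∑ m' : Fin c, Mg ex g xi i (ex (.inr (.inr m))) (ex (.inr (.inr m'))) *
          Mg ex g xi j (ex (.inr (.inr m'))) (ex (.inl a)) = 0 :=
        Finset.sum_eq_zero fun m' _ => by rw [hz, mul_zero]
      rw [e1, e2, zero_add, add_zero, Finset.sum_eq_single (sg j a)]
      · rw [hcol, if_pos rfl]
        simp
      · intro b _ hb
        rw [hcol, if_neg (by simpa using hb)]
        simp
      · simp
    have h5 := h4 i j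
    rw [Mg_comm, h4 j i] at h5
    exact (mul_right_cancel₀ hd h5).symm
  have h4 : (fun i => Matrix.diagonal d * (Matrix.of fun a b => if lw a = 1 + lw b then
      (Matrix.reindexAlgEquiv k k ex.symm) (Mg ex g xi i) a b else 0) *
        Matrix.diagonal fun x => (d x)⁻¹) =
      TS sg ta fun z : K × Fin c =>
      l * Mg ex g xi (rep z.1).1 (ex (.inr (.inr z.2))) (ex (.inr (.inl (rep z.1).2))) := by
    funext i
    ext x y
    rw [Matrix.mul_diagonal, Matrix.diagonal_mul, Matrix.of_apply, hent]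
    rcases x with x | (x | x) <;> rcases y with y | (y | y)
    · simp [lw, TS]
    · simp [lw, TS]
    · simp [lw, TS]
    · rw [hcol]
      simp only [lw, TS, Matrix.of_apply, hdd]
      by_cases h : x = sg i y
      · simp [h, hd]
      · simp [h]
    · simp [lw, TS]
    · simp [lw, TS]
    · simp [lw, TS]
    · have e1 := hst (fun i j => Mg ex g xi i (ex (.inr (.inr x))) (ex (.inr (.inl j))))
        (fun i j a => hsym x i j a) i y
      simp only [lw, TS, Matrix.of_apply, hdd]
      rw [e1]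
      simp
    · simp [lw, TS]
  rw [← h4]
  exact h3

end Main

/-! ### the criterion -/

section Dense

variable {A B : Type*} [Fintype A] [DecidableEq A] [Fintype B] [DecidableEq B] {c n : ℕ}
  {ex : A ⊕ (B ⊕ Fin c) ≃ Fin (n + 1)}

omit [Fintype A] [DecidableEq A] [Fintype B] [DecidableEq B] in
/-- the basis matrices as a matrix of polynomials -/
theorem exists_Phi {g : k → A ⊕ (B ⊕ Fin c) → Polynomial k} {g0 g1 : A ⊕ (B ⊕ Fin c) → Polynomial k}
    (hg : ∀ y, JP (fun s => g s y) (g0 y) (g1 y)) :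
    ∃ Φ : Matrix (Fin (n + 1)) (Fin (n + 1)) (Polynomial k),
      ∀ s, (Polynomial.evalRingHom s).mapMatrix Φ = Gam ex (g s) := by
  have h : ∀ a b : Fin (n + 1), ∃ p : Polynomial k, ∀ s, (g s (ex.symm b)).coeff a = p.eval s := by
    intro a b
    obtain ⟨p, hp, _⟩ := J.exists (hg (ex.symm b) a)
    exact ⟨p, hp⟩
  choose p hp using h
  refine ⟨Matrix.of p, fun s => ?_⟩
  ext a b
  rw [RingHom.mapMatrix_apply, Matrix.map_apply, Matrix.of_apply, Gam, Matrix.of_apply, hp]
  rfl

/-- the jet of an entry of the triple -/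
theorem Mg_jet {g : k → A ⊕ (B ⊕ Fin c) → Polynomial k} {g0 g1 : A ⊕ (B ⊕ Fin c) → Polynomial k}
    (hg : ∀ y, JP (fun s => g s y) (g0 y) (g1 y))
    {xi : k → Fin 3 → Polynomial k} {x0 x1 : Fin 3 → Polynomial k}
    (hx : ∀ i, JP (fun s => xi s i) (x0 i) (x1 i))
    {Li : A ⊕ (B ⊕ Fin c) → Fin (n + 1) → k}
    (hL : ∀ x y, ∑ m : Fin (n + 1), Li x m * (g0 y).coeff m = if x = y then 1 else 0)
    {d1 : k} (hdet : J (fun s => (Gam ex (g s)).det) (Gam ex g0).det d1)
    {i : Fin 3} {j x : A ⊕ (B ⊕ Fin c)} {ro : A ⊕ (B ⊕ Fin c) → k}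
    (h0 : ∀ m : Fin (n + 1), (x0 i * g0 j).coeff m = ∑ y, ro y * (g0 y).coeff m) {v : k}
    (h1 : ∑ m : Fin (n + 1), Li x m * ((x1 i * g0 j + x0 i * g1 j).coeff m -
      ∑ y, ro y * (g1 y).coeff m) = v) :
    J (fun s => Mg ex (g s) (xi s) i (ex x) (ex j)) ((Gam ex g0).det * ro x)
      ((Gam ex g0).det * v + d1 * ro x) := by
  obtain ⟨Φ, hΦ⟩ := exists_Phi (n := n) (ex := ex) hg
  set r1 : A ⊕ (B ⊕ Fin c) → k := fun x => ∑ m : Fin (n + 1), Li x m *
    ((x1 i * g0 j + x0 i * g1 j).coeff m - ∑ y, ro y * (g1 y).coeff m) with hr1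
  -- right inverse
  have hR : ∀ a m : Fin (n + 1), ∑ y : A ⊕ (B ⊕ Fin c), (g0 y).coeff a * Li y m =
      if a = m then 1 else 0 := by
    have e1 : (Matrix.of fun b m : Fin (n + 1) => Li (ex.symm b) m) * Gam ex g0 = 1 := by
      ext a b
      rw [Matrix.mul_apply, Matrix.one_apply]
      simp only [Gam, Matrix.of_apply]
      rw [hL]
      simp
    have e2 := mul_eq_one_comm.1 e1
    intro a m
    have e3 := congrFun (congrFun e2 a) m
    rw [Matrix.mul_apply, sum_ex (ex := ex), Matrix.one_apply] at e3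
    simp only [Gam, Matrix.of_apply, Equiv.symm_apply_apply] at e3
    exact e3
  have hb : ∀ a : Fin (n + 1), ∑ y, (g0 y).coeff a * r1 y =
      (x1 i * g0 j + x0 i * g1 j).coeff a - ∑ y, ro y * (g1 y).coeff a := by
    intro a
    simp only [hr1, Finset.mul_sum]
    rw [Finset.sum_comm]
    have e1 : ∀ m : Fin (n + 1), ∑ y, (g0 y).coeff a * (Li y m *
        ((x1 i * g0 j + x0 i * g1 j).coeff m - ∑ z, ro z * (g1 z).coeff m)) =
        (if a = m then 1 else 0) *
        ((x1 i * g0 j + x0 i * g1 j).coeff m - ∑ z, ro z * (g1 z).coeff m) := by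
      intro m
      rw [← hR, Finset.sum_mul]
      exact Finset.sum_congr rfl fun y _ => by ring
    rw [Finset.sum_congr rfl fun m _ => e1 m]
    simp
  have hw : ∀ a : Fin (n + 1), J (fun s => (xi s i * g s j).coeff a -
      ∑ y, (g s y).coeff a * (ro y + s * r1 y)) 0 0 := by
    intro a
    refine (J.sub (((hx i).mul (hg j)) a)
      (J.sum Finset.univ fun y => (hg y a).mul (J.line (ro y) (r1 y)))).congr ?_ ?_
    · rw [h0, sub_eq_zero]
      exact Finset.sum_congr rfl fun y _ => by ring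
    · rw [Finset.sum_add_distrib, hb, Polynomial.coeff_add, Polynomial.coeff_add]
      have e1 : ∑ y, ro y * (g1 y).coeff a = ∑ y, (g1 y).coeff a * ro y :=
        Finset.sum_congr rfl fun y _ => by ring
      rw [e1]
      ring
  choose w hw using hw
  have hadj : ∀ (s : k) (a b : Fin (n + 1)), adjugate (Gam ex (g s)) a b =
      (adjugate Φ a b).eval s := by
    intro s a b
    rw [← hΦ s, ← RingHom.map_adjugate]
    rfl
  have hmul : ∀ s : k, ∑ a : Fin (n + 1), adjugate (Gam ex (g s)) (ex x) a *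
      ∑ y, (g s y).coeff a * (ro y + s * r1 y) = (Gam ex (g s)).det * (ro x + s * r1 x) := by
    intro s
    simp only [Finset.mul_sum]
    rw [Finset.sum_comm]
    have e1 : ∀ y : A ⊕ (B ⊕ Fin c), ∑ a : Fin (n + 1), adjugate (Gam ex (g s)) (ex x) a *
        ((g s y).coeff a * (ro y + s * r1 y)) =
        (Gam ex (g s)).det * (if x = y then 1 else 0) * (ro y + s * r1 y) := by
      intro y
      have h1 := congrFun (congrFun (Matrix.adjugate_mul (Gam ex (g s))) (ex x)) (ex y)
      rw [Matrix.mul_apply, Matrix.smul_apply, Matrix.one_apply, smul_eq_mul] at h1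
      simp only [EmbeddingLike.apply_eq_iff_eq] at h1
      rw [← h1, Finset.sum_mul]
      refine Finset.sum_congr rfl fun a _ => ?_
      rw [Gam, Matrix.of_apply, Equiv.symm_apply_apply]
      ring
    rw [Finset.sum_congr rfl fun y _ => e1 y]
    simp
  have hJ : J (fun s => (Gam ex (g s)).det * (ro x + s * r1 x)) ((Gam ex g0).det * ro x)
      ((Gam ex g0).det * v + d1 * ro x) :=
    (hdet.mul (J.line (ro x) (r1 x))).congr rfl (by rw [← h1])
  obtain ⟨u, hu⟩ := hJ
  refine ⟨u + ∑ a : Fin (n + 1), adjugate Φ (ex x) a * w a, fun s => ?_⟩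
  dsimp only at hu ⊢
  rw [Mg_apply]
  have e1 : ∀ a : Fin (n + 1), adjugate (Gam ex (g s)) (ex x) a * (xi s i * g s j).coeff a =
      adjugate (Gam ex (g s)) (ex x) a * (∑ y, (g s y).coeff a * (ro y + s * r1 y)) +
      s ^ 2 * (adjugate Φ (ex x) a * w a).eval s := by
    intro a
    have h2 := hw a s
    dsimp only at h2
    rw [sub_eq_iff_eq_add] at h2
    rw [h2, Polynomial.eval_mul, ← hadj]
    ring
  rw [Finset.sum_congr rfl fun a _ => e1 a, Finset.sum_add_distrib, hmul, hu,
    Polynomial.eval_add, Polynomial.eval_finsetSum, ← Finset.mul_sum]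
  ring

end Dense

end DensG

open DensG MvPolynomial in
/-- criterion: all triples `TS sg ta G` are limits of curvilinear triples -/
theorem cl_TS_of_cert [CharZero k] {A B K : Type*} [Finite K] [Fintype A] [DecidableEq A] [Fintype B]
    [DecidableEq B] {c n : ℕ} (ex : A ⊕ (B ⊕ Fin c) ≃ Fin (n + 1))
    (sg : Fin 3 → A → B) (ta : Fin 3 → B → K) (rep : K → Fin 3 × B)
    (hst : ∀ b : Fin 3 → B → k, (∀ i j a, b i (sg j a) = b j (sg i a)) →
      ∀ i j, b (rep (ta i j)).1 (rep (ta i j)).2 = b i j)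
    (g0 : A ⊕ (B ⊕ Fin c) → Polynomial k) (x0 : Fin 3 → Polynomial k)
    (Li : A ⊕ (B ⊕ Fin c) → Fin (n + 1) → k)
    (hL : ∀ x y, ∑ m : Fin (n + 1), Li x m * (g0 y).coeff m = if x = y then 1 else 0)
    (ro : K → A ⊕ (B ⊕ Fin c) → k)
    (hro : ∀ κ (m : Fin (n + 1)), (x0 (rep κ).1 * g0 (.inr (.inl (rep κ).2))).coeff m =
      ∑ y, ro κ y * (g0 y).coeff m)
    (H : ∀ v : K × Fin c → k, ∃ (g : k → A ⊕ (B ⊕ Fin c) → Polynomial k)
      (xi : k → Fin 3 → Polynomial k) (g1 : A ⊕ (B ⊕ Fin c) → Polynomial k)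
      (x1 : Fin 3 → Polynomial k),
      (∀ y, JP (fun s => g s y) (g0 y) (g1 y)) ∧ (∀ i, JP (fun s => xi s i) (x0 i) (x1 i)) ∧
      (∀ s i, (xi s i).coeff 0 = 0) ∧
      (∀ s i a, ∃ w : A → k, xi s i * g s (.inl a) = g s (.inr (.inl (sg i a))) +
        ∑ a', Polynomial.C (w a') * g s (.inl a')) ∧
      ∀ κ l, ∑ m : Fin (n + 1), Li (.inr (.inr l)) m *
        ((x1 (rep κ).1 * g0 (.inr (.inl (rep κ).2)) + x0 (rep κ).1 *
          g1 (.inr (.inl (rep κ).2))).coeff m - ∑ y, ro κ y * (g1 y).coeff m) = v (κ, l))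
    (G : K × Fin c → k) : Cl (TS sg ta G) := by
  have hinf : Infinite k := inferInstance
  set S : Set (K × Fin c → k) := {y | Cl (TS sg ta y)} with hS
  set y0 : K × Fin c → k := fun z => ro z.1 (.inr (.inr z.2)) with hy0
  have hdet0 : (Gam ex g0).det ≠ 0 := by
    have e1 : (Matrix.of fun b m : Fin (n + 1) => Li (ex.symm b) m) * Gam ex g0 = 1 := by
      ext a b
      rw [Matrix.mul_apply, Matrix.one_apply]
      simp only [Gam, Matrix.of_apply]
      rw [hL]
      simp
    have e2 := congrArg Matrix.det e1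
    rw [Matrix.det_mul, Matrix.det_one] at e2
    exact right_ne_zero_of_mul_eq_one e2
  have curve : ∀ v : K × Fin c → k, ∃ u : K × Fin c → Polynomial k,
      (∀ x, (u x).eval 0 = v x) ∧ {s : k | (fun x => y0 x + s * (u x).eval s) ∈ S}.Infinite := by
    intro v
    obtain ⟨g, xi, g1, x1, hg, hx, hx0, hcol, hv⟩ := H v
    obtain ⟨Φ, hΦ⟩ := exists_Phi (n := n) (ex := ex) hg
    have hdete : ∀ s, (Gam ex (g s)).det = Φ.det.eval s := by
      intro s
      rw [← hΦ s, ← RingHom.map_det]
      rfl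
    have hg0 : Gam ex (g 0) = Gam ex g0 := by
      ext a b
      rw [Gam, Gam, Matrix.of_apply, Matrix.of_apply]
      obtain ⟨w, hw⟩ := hg (ex.symm b) a
      have := hw 0
      simpa using this
    set d0 : k := (Gam ex g0).det with hd0
    set d1 : k := Φ.det.coeff 1 with hd1
    have hdet : J (fun s => (Gam ex (g s)).det) d0 d1 := by
      have h1 := J.poly' Φ.det hdete
      rwa [Polynomial.coeff_zero_eq_eval_zero, ← hdete, hg0] at h1
    have hl : J (fun s : k => d0⁻¹ * (1 + s * (-(d1 / d0)))) d0⁻¹ (-(d0⁻¹ * (d1 / d0))) :=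
      ((J.const d0⁻¹).mul (J.line 1 (-(d1 / d0)))).congr (by ring) (by ring)
    have hj : ∀ z : K × Fin c, J (fun s => d0⁻¹ * (1 + s * (-(d1 / d0))) *
        Mg ex (g s) (xi s) (rep z.1).1 (ex (.inr (.inr z.2))) (ex (.inr (.inl (rep z.1).2))))
        (y0 z) (v z) := by
      intro z
      refine (hl.mul (Mg_jet hg hx hL hdet (hro z.1) (hv z.1 z.2))).congr ?_ ?_
      · change d0⁻¹ * (d0 * y0 z) = y0 z
        rw [← mul_assoc, inv_mul_cancel₀ hdet0, one_mul]
      · change d0⁻¹ * (d0 * v z + d1 * y0 z) + -(d0⁻¹ * (d1 / d0)) * (d0 * y0 z) = v z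
        field_simp
        ring
    choose w hw using hj
    refine ⟨fun x => Polynomial.C (v x) + Polynomial.X * w x, fun x => by simp, ?_⟩
    have hfin : ({s : k | (Gam ex (g s)).det = 0} ∪ {s : k | 1 + s * (-(d1 / d0)) = 0}).Finite := by
      refine Set.Finite.union ?_ ?_
      · have h1 : D7.IsPoly fun s : k => (Gam ex (g s)).det := ⟨Φ.det, hdete⟩
        refine h1.finite (s₁ := 0) ?_
        rw [hg0]
        exact hdet0
      · have h1 : D7.IsPoly fun s : k => 1 + s * (-(d1 / d0)) :=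
          ⟨1 + Polynomial.X * Polynomial.C (-(d1 / d0)), fun s => by
            simp only [Polynomial.eval_add, Polynomial.eval_mul, Polynomial.eval_C,
              Polynomial.eval_X, Polynomial.eval_one]⟩
        refine h1.finite (s₁ := 0) ?_
        simp
    refine hfin.infinite_compl.mono ?_
    intro s hs
    have hs1 : (Gam ex (g s)).det ≠ 0 := fun h => hs (Or.inl h)
    have hs2 : 1 + s * (-(d1 / d0)) ≠ 0 := fun h => hs (Or.inr h)
    have h1 := cl_TS (ex := ex) sg ta rep hst (hx0 s) hs1 (hcol s)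
      (mul_ne_zero (inv_ne_zero hdet0) hs2)
    have h2 : (fun x => y0 x + s * (Polynomial.C (v x) + Polynomial.X * w x).eval s) =
        fun z : K × Fin c => d0⁻¹ * (1 + s * (-(d1 / d0))) *
        Mg ex (g s) (xi s) (rep z.1).1 (ex (.inr (.inr z.2))) (ex (.inr (.inl (rep z.1).2))) := by
      funext x
      refine Eq.trans ?_ (hw x s).symm
      simp only [Polynomial.eval_add, Polynomial.eval_mul, Polynomial.eval_C, Polynomial.eval_X]
      ring
    have h3 : (fun x => y0 x + s * (Polynomial.C (v x) + Polynomial.X * w x).eval s) ∈ S := by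
      rw [h2]
      exact h1
    exact h3
  -- coordinates of the triples are polynomials
  have hpol : ∀ z : Fin 3 × (A ⊕ (B ⊕ Fin c)) × (A ⊕ (B ⊕ Fin c)),
      ∃ P : MvPolynomial (K × Fin c) k, ∀ y : K × Fin c → k,
          TS sg ta y z.1 z.2.1 z.2.2 = eval y P := by
    rintro ⟨i, x, y⟩
    rcases x with x | (x | x) <;> rcases y with y | (y | y)
    · exact ⟨0, fun v => by simp [TS]⟩
    · exact ⟨0, fun v => by simp [TS]⟩
    · exact ⟨0, fun v => by simp [TS]⟩
    · refine ⟨C (if x = sg i y then 1 else 0), fun v => ?_⟩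
      rw [eval_C]
      rfl
    · exact ⟨0, fun v => by simp [TS]⟩
    · exact ⟨0, fun v => by simp [TS]⟩
    · exact ⟨0, fun v => by simp [TS]⟩
    · refine ⟨X (ta i y, x), fun v => ?_⟩
      rw [eval_X]
      rfl
    · exact ⟨0, fun v => by simp [TS]⟩
  choose P hP using hpol
  intro F hF
  have hev : ∀ y : K × Fin c → k, eval y (aeval P F) = eval (co (TS sg ta y)) F := by
    intro y
    have h1 : ((aeval y : MvPolynomial (K × Fin c) k →ₐ[k] k).comp (aeval P)) =
        (aeval (co (TS sg ta y)) :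
          MvPolynomial (Fin 3 × (A ⊕ (B ⊕ Fin c)) × (A ⊕ (B ⊕ Fin c))) k →ₐ[k] k) := by
      apply MvPolynomial.algHom_ext
      intro z
      simp only [AlgHom.comp_apply, aeval_X]
      exact (hP z y).symm
    exact congrArg (fun f => f F) h1
  have h3 : aeval P F = 0 := by
    refine eq_zero_of_curves S y0 curve _ ?_
    intro y hy
    rw [hev]
    exact hy F hF
  rw [← hev, h3, map_zero]

end Pool.Agent.Lib.D10
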