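import Pool.Agent.Lib.D10.DensG

/-!
# MP_5dcbc3_ag: density criteria for the families `TG`, `TR`, `TF 2`

Curves: `v = 1`, `w = u`, and the exact products are polynomial in `u` and the elements `x_i`.
-/

namespace Pool.Agent.Lib.D10

open Matrix Polynomial Pool.Agent.Lib.Q5dc Pool.Agent.Lib.D7 Pool.Agent.Lib.D9
open Pool.Agent.Lib.D9.DensX

variable {k : Type*} [Field k]

namespace DensG

/-- polynomial with given coefficients -/
noncomputable def pf (n : ℕ) (w : ℕ → k) : k[X] :=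
  ∑ m ∈ Finset.range (n + 1), Polynomial.C (w m) * Polynomial.X ^ m

theorem coeff_pf (n : ℕ) (w : ℕ → k) (m : ℕ) :
    (pf n w).coeff m = if m < n + 1 then w m else 0 := by
  simp only [pf, Polynomial.finsetSum_coeff, Polynomial.coeff_C_mul, Polynomial.coeff_X_pow,
    mul_ite, mul_one, mul_zero]
  rw [Finset.sum_ite_eq]
  simp

theorem coeff_of_eq {ι : Type*} [Fintype ι] {n : ℕ} {a : k[X]} {g0 : ι → k[X]} {ro : ι → k}
    {r : k[X]} (h : a = ∑ y, Polynomial.C (ro y) * g0 y + Polynomial.X ^ (n + 1) * r)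
    (m : Fin (n + 1)) : a.coeff m = ∑ y, ro y * (g0 y).coeff m := by
  have hm := m.2
  rw [h, Polynomial.coeff_add, Polynomial.coeff_X_pow_mul', if_neg (by omega), add_zero,
    Polynomial.finsetSum_coeff]
  simp only [Polynomial.coeff_C_mul]

/-- the part `b (u - u(0))` -/
noncomputable def bu (b : k) (u : k[X]) : k[X] :=
  Polynomial.C b * (u - Polynomial.C (u.coeff 0))

theorem JP.bu {b : k → k} {u : k → k[X]} {b0 b1 : k} {u0 u1 : k[X]} (hb : J b b0 b1)
    (hu : JP u u0 u1) : JP (fun s => bu (b s) (u s)) (bu b0 u0) (bu b0 u1 + bu b1 u0) := by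
  have h1 : JP (fun s => u s - Polynomial.C ((u s).coeff 0)) (u0 - Polynomial.C (u0.coeff 0))
      (u1 - Polynomial.C (u1.coeff 0)) := by
    intro m
    refine (J.sub (hu m) (JP.C (hu 0) m)).congr' (fun s => ?_) ?_ ?_ <;>
      rw [Polynomial.coeff_sub]
  exact (JP.C hb).mul h1

theorem bu_coeff_zero (b : k) (u : k[X]) : (bu b u).coeff 0 = 0 := by
  simp [bu]

/-! ### the family `TG` -/

/-- value of the maps `V0 → V1` of `TG` -/
def sgG (i : Fin 3) (b : Fin 2) : Fin 4 := ⟨(b : ℕ) + i, by omega⟩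

/-- class of a product in `TG` -/
def taG (i : Fin 3) (j : Fin 4) : Fin 6 := ⟨(i : ℕ) + j, by omega⟩

/-- representatives of the classes in `TG` -/
def repG : Fin 6 → Fin 3 × Fin 4 := ![(0, 0), (0, 1), (0, 2), (0, 3), (1, 3), (2, 3)]

theorem TG_eq (c : ℕ) (G : Fin 6 × Fin c → k) : TG c G = TS sgG taG G := by
  funext i
  ext x y
  rcases x with x | (x | x) <;> rcases y with y | (y | y)
  · rfl
  · rfl
  · rfl
  · simp [TG, TS, sgG, Fin.ext_iff]
  · rfl
  · rfl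
  · rfl
  · rfl
  · rfl

omit [Field k] in
theorem hstG (b : Fin 3 → Fin 4 → k) (h : ∀ i j a, b i (sgG j a) = b j (sgG i a)) (i : Fin 3)
    (j : Fin 4) : b (repG (taG i j)).1 (repG (taG i j)).2 = b i j := by
  have h01 : b 0 1 = b 1 0 := h 0 1 0
  have h02 : b 0 2 = b 1 1 := h 0 1 1
  have h02' : b 0 2 = b 2 0 := h 0 2 0
  have h03 : b 0 3 = b 2 1 := h 0 2 1
  have h12 : b 1 2 = b 2 1 := h 1 2 0
  have h13 : b 1 3 = b 2 2 := h 1 2 1
  fin_cases i <;> fin_cases j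
  · rfl
  · rfl
  · rfl
  · rfl
  · exact h01
  · exact h02
  · exact h03.trans h12.symm
  · rfl
  · exact h02'
  · exact h03
  · exact h13
  · rfl

/-- the adapted basis of `TG` -/
noncomputable def gTG {c : ℕ} (u e0 e1 e2 e3 : k[X]) (f : Fin c → k[X]) :
    Fin 2 ⊕ (Fin 4 ⊕ Fin c) → k[X] :=
  Sum.elim ![1, u] (Sum.elim ![e0, e1, e2, e3] f)

theorem cl_TG_of_cert [CharZero k] {c n : ℕ} (ex : Fin 2 ⊕ (Fin 4 ⊕ Fin c) ≃ Fin (n + 1))
    (u0 x0 P1 P2 Q P3 : k[X]) (b0 bb0 : k) (f0 : Fin c → k[X]) (hx0 : x0.coeff 0 = 0)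
    (hP1 : P1 = x0 * u0 + bu b0 u0) (hP2 : P2 = P1 * u0) (hQ : Q = P2 + bu bb0 u0)
    (hP3 : P3 = Q * u0) (Li : Fin 2 ⊕ (Fin 4 ⊕ Fin c) → Fin (n + 1) → k)
    (hL : ∀ x y, ∑ m : Fin (n + 1), Li x m * (gTG u0 x0 P1 P2 P3 f0 y).coeff m =
      if x = y then 1 else 0)
    (ro : Fin 6 → Fin 2 ⊕ (Fin 4 ⊕ Fin c) → k) (rr : Fin 6 → k[X])
    (hro : ∀ κ, ![x0, P1, Q] (repG κ).1 * ![x0, P1, P2, P3] (repG κ).2 =
      ∑ y, Polynomial.C (ro κ y) * gTG u0 x0 P1 P2 P3 f0 y + Polynomial.X ^ (n + 1) * rr κ)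
    (uu xx : (Fin 6 × Fin c → k) → ℕ → k) (b1 bb1 : (Fin 6 × Fin c → k) → k)
    (hh : (Fin 6 × Fin c → k) → Fin c → Fin c → k) (hxx : ∀ v, xx v 0 = 0)
    (H : ∀ v κ l, ∀ U Y D1 D2 DQ D3 : k[X], U = pf n (uu v) → Y = pf n (xx v) →
      D1 = x0 * U + Y * u0 + (bu b0 U + bu (b1 v) u0) → D2 = P1 * U + D1 * u0 →
      DQ = D2 + (bu bb0 U + bu (bb1 v) u0) → D3 = Q * U + DQ * u0 →
      ∑ m : Fin (n + 1), Li (.inr (.inr l)) m *
        ((![Y, D1, DQ] (repG κ).1 * ![x0, P1, P2, P3] (repG κ).2 +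
          ![x0, P1, Q] (repG κ).1 * ![Y, D1, D2, D3] (repG κ).2).coeff m -
          ∑ y, ro κ y * (Sum.elim ![0, U] (Sum.elim ![Y, D1, D2, D3]
            (fun l => ∑ l', Polynomial.C (hh v l l') * f0 l')) y).coeff m) = v (κ, l))
    (G : Fin 6 × Fin c → k) : Cl (TG c G) := by
  rw [TG_eq]
  refine cl_TS_of_cert ex sgG taG repG hstG (gTG u0 x0 P1 P2 P3 f0) ![x0, P1, Q] Li hL ro
    (fun κ m => ?_) (fun v => ?_) G
  · refine Eq.trans ?_ (coeff_of_eq (hro κ) m)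
    congr 2
  · set U : k[X] := pf n (uu v) with hU
    set Y : k[X] := pf n (xx v) with hY
    have hY0 : Y.coeff 0 = 0 := by
      rw [hY, coeff_pf, if_pos (Nat.succ_pos n), hxx]
    have ju : JP (fun s : k => u0 + Polynomial.C s * U) u0 U := JP.line _ _
    have jx : JP (fun s : k => x0 + Polynomial.C s * Y) x0 Y := JP.line _ _
    have jb : J (fun s : k => b0 + s * b1 v) b0 (b1 v) := J.line _ _
    have jbb : J (fun s : k => bb0 + s * bb1 v) bb0 (bb1 v) := J.line _ _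
    have j1 := (jx.mul ju).add (JP.bu jb ju)
    have j2 := j1.mul ju
    have jq := j2.add (JP.bu jbb ju)
    have j3 := jq.mul ju
    set us : k → k[X] := fun s => u0 + Polynomial.C s * U with hus
    set xs : k → k[X] := fun s => x0 + Polynomial.C s * Y with hxs
    set X1 : k → k[X] := fun s => xs s * us s + bu (b0 + s * b1 v) (us s) with hX1
    set X2 : k → k[X] := fun s => X1 s * us s + bu (bb0 + s * bb1 v) (us s) with hX2
    obtain ⟨D1, hD1⟩ : ∃ D1, D1 = x0 * U + Y * u0 + (bu b0 U + bu (b1 v) u0) := ⟨_, rfl⟩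
    obtain ⟨D2, hD2⟩ : ∃ D2, D2 = P1 * U + D1 * u0 := ⟨_, rfl⟩
    obtain ⟨DQ, hDQ⟩ : ∃ DQ, DQ = D2 + (bu bb0 U + bu (bb1 v) u0) := ⟨_, rfl⟩
    obtain ⟨D3, hD3⟩ : ∃ D3, D3 = Q * U + DQ * u0 := ⟨_, rfl⟩
    rw [← hP1, ← hD1] at j1
    rw [← hP1, ← hP2, ← hD1, ← hD2] at j2
    rw [← hP1, ← hP2, ← hD1, ← hD2, ← hQ, ← hDQ] at jq
    rw [← hP1, ← hP2, ← hD1, ← hD2, ← hQ, ← hDQ, ← hP3, ← hD3] at j3
    refine ⟨fun s => gTG (us s) (xs s) (X1 s) (X1 s * us s) (X2 s * us s)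
      (fun l => f0 l + Polynomial.C s * ∑ l', Polynomial.C (hh v l l') * f0 l'),
      fun s => ![xs s, X1 s, X2 s],
      Sum.elim ![0, U] (Sum.elim ![Y, D1, D2, D3]
            (fun l => ∑ l', Polynomial.C (hh v l l') * f0 l')), ![Y, D1, DQ], ?_, ?_, ?_, ?_, ?_⟩
    · rintro (y | (y | y))
      · fin_cases y
        · exact JP.const 1
        · exact ju
      · fin_cases y
        · exact jx
        · exact j1
        · exact j2
        · exact j3
      · exact JP.line _ _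
    · intro i
      fin_cases i
      · exact jx
      · exact j1
      · exact jq
    · intro s i
      have e0 : (xs s).coeff 0 = 0 := by
        rw [hxs]
        simp [hx0, hY0]
      have e1 : (X1 s).coeff 0 = 0 := by
        rw [hX1]
        simp only [Polynomial.coeff_add, Polynomial.mul_coeff_zero, e0, zero_mul, bu_coeff_zero,
          add_zero]
      have e2 : (X2 s).coeff 0 = 0 := by
        rw [hX2]
        simp only [Polynomial.coeff_add, Polynomial.mul_coeff_zero, e1, zero_mul, bu_coeff_zero,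
          add_zero]
      fin_cases i
      · exact e0
      · exact e1
      · exact e2
    · intro s i a
      have hc : ∀ (b : k) (u : k[X]), bu b u = Polynomial.C b * u - Polynomial.C (b * u.coeff 0) := by
        intro b u
        rw [bu, Polynomial.C_mul]
        ring
      fin_cases i <;> fin_cases a
      · exact ⟨![0, 0], by simp [gTG, sgG]⟩
      · refine ⟨![(b0 + s * b1 v) * (us s).coeff 0, -(b0 + s * b1 v)], ?_⟩
        simp only [Fin.sum_univ_two]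
        show xs s * us s = X1 s + (Polynomial.C ((b0 + s * b1 v) * (us s).coeff 0) * 1 +
          Polynomial.C (-(b0 + s * b1 v)) * us s)
        rw [hX1]
        dsimp only
        rw [hc, Polynomial.C_neg]
        ring
      · exact ⟨![0, 0], by simp [gTG, sgG]⟩
      · exact ⟨![0, 0], by simp [gTG, sgG]⟩
      · refine ⟨![-((bb0 + s * bb1 v) * (us s).coeff 0), (bb0 + s * bb1 v)], ?_⟩
        simp only [Fin.sum_univ_two]
        show X2 s * 1 = X1 s * us s + (Polynomial.C (-((bb0 + s * bb1 v) * (us s).coeff 0)) * 1 +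
          Polynomial.C (bb0 + s * bb1 v) * us s)
        rw [hX2]
        dsimp only
        rw [hc, Polynomial.C_neg]
        ring
      · exact ⟨![0, 0], by simp [gTG, sgG]⟩
    · intro κ l
      exact H v κ l U Y D1 D2 DQ D3 hU hY hD1 hD2 hDQ hD3

/-! ### the family `TR` -/

/-- representatives of the classes in `TR` -/
def repR : Fin 9 → Fin 3 × Fin 5 :=
  ![(0, 0), (0, 1), (0, 2), (0, 3), (0, 4), (1, 2), (1, 3), (1, 4), (2, 4)]

theorem TR_eq (c : ℕ) (G : Fin 9 × Fin c → k) : TR c G = TS ra rb G := by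
  funext i
  ext x y
  rcases x with x | (x | x) <;> rcases y with y | (y | y) <;> rfl

omit [Field k] in
theorem hstR (b : Fin 3 → Fin 5 → k) (h : ∀ i j a, b i (ra j a) = b j (ra i a)) (i : Fin 3)
    (j : Fin 5) : b (repR (rb i j)).1 (repR (rb i j)).2 = b i j := by
  have h1 : b 0 2 = b 1 0 := h 0 1 0
  have h2 : b 0 3 = b 1 1 := h 0 1 1
  have h3 : b 0 4 = b 2 0 := h 0 2 0
  have h4 : b 0 2 = b 2 1 := h 0 2 1
  have h5 : b 1 4 = b 2 2 := h 1 2 0
  have h6 : b 1 2 = b 2 3 := h 1 2 1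
  fin_cases i <;> fin_cases j
  · rfl
  · rfl
  · rfl
  · rfl
  · rfl
  · exact h1
  · exact h2
  · rfl
  · rfl
  · rfl
  · exact h3
  · exact h4
  · exact h5
  · exact h6
  · rfl

/-- the adapted basis of `TR` -/
noncomputable def gTR {c : ℕ} (u e0 e1 e2 e3 e4 : k[X]) (f : Fin c → k[X]) :
    Fin 2 ⊕ (Fin 5 ⊕ Fin c) → k[X] :=
  Sum.elim ![u, 1] (Sum.elim ![e0, e1, e2, e3, e4] f)

theorem cl_TR_of_cert [CharZero k] {c n : ℕ} (ex : Fin 2 ⊕ (Fin 5 ⊕ Fin c) ≃ Fin (n + 1))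
    (u0 x0 y0 z0 P0 P4 : k[X]) (b0 : k) (f0 : Fin c → k[X]) (hx0 : x0.coeff 0 = 0)
    (hy0 : y0.coeff 0 = 0) (hz : z0 = y0 * u0 + bu b0 u0) (hP0 : P0 = x0 * u0)
    (hP4 : P4 = z0 * u0) (Li : Fin 2 ⊕ (Fin 5 ⊕ Fin c) → Fin (n + 1) → k)
    (hL : ∀ x y, ∑ m : Fin (n + 1), Li x m * (gTR u0 P0 x0 z0 y0 P4 f0 y).coeff m =
      if x = y then 1 else 0)
    (ro : Fin 9 → Fin 2 ⊕ (Fin 5 ⊕ Fin c) → k) (rr : Fin 9 → k[X])
    (hro : ∀ κ, ![x0, y0, z0] (repR κ).1 * ![P0, x0, z0, y0, P4] (repR κ).2 =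
      ∑ y, Polynomial.C (ro κ y) * gTR u0 P0 x0 z0 y0 P4 f0 y + Polynomial.X ^ (n + 1) * rr κ)
    (uu xx yy : (Fin 9 × Fin c → k) → ℕ → k) (b1 : (Fin 9 × Fin c → k) → k)
    (hh : (Fin 9 × Fin c → k) → Fin c → Fin c → k) (hxx : ∀ v, xx v 0 = 0)
    (hyy : ∀ v, yy v 0 = 0)
    (H : ∀ v κ l, ∀ U V W D D0 D4 : k[X], U = pf n (uu v) → V = pf n (xx v) → W = pf n (yy v) →
      D = y0 * U + W * u0 + (bu b0 U + bu (b1 v) u0) → D0 = x0 * U + V * u0 →
      D4 = z0 * U + D * u0 →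
      ∑ m : Fin (n + 1), Li (.inr (.inr l)) m *
        ((![V, W, D] (repR κ).1 * ![P0, x0, z0, y0, P4] (repR κ).2 +
          ![x0, y0, z0] (repR κ).1 * ![D0, V, D, W, D4] (repR κ).2).coeff m -
          ∑ y, ro κ y * (Sum.elim ![U, 0] (Sum.elim ![D0, V, D, W, D4]
            (fun l => ∑ l', Polynomial.C (hh v l l') * f0 l')) y).coeff m) = v (κ, l))
    (G : Fin 9 × Fin c → k) : Cl (TR c G) := by
  rw [TR_eq]
  refine cl_TS_of_cert ex ra rb repR hstR (gTR u0 P0 x0 z0 y0 P4 f0) ![x0, y0, z0] Li hL ro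
    (fun κ m => ?_) (fun v => ?_) G
  · refine Eq.trans ?_ (coeff_of_eq (hro κ) m)
    congr 2
  · set U : k[X] := pf n (uu v) with hU
    set V : k[X] := pf n (xx v) with hV
    set W : k[X] := pf n (yy v) with hW
    have hV0 : V.coeff 0 = 0 := by
      rw [hV, coeff_pf, if_pos (Nat.succ_pos n), hxx]
    have hW0 : W.coeff 0 = 0 := by
      rw [hW, coeff_pf, if_pos (Nat.succ_pos n), hyy]
    have ju : JP (fun s : k => u0 + Polynomial.C s * U) u0 U := JP.line _ _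
    have jx : JP (fun s : k => x0 + Polynomial.C s * V) x0 V := JP.line _ _
    have jy : JP (fun s : k => y0 + Polynomial.C s * W) y0 W := JP.line _ _
    have jb : J (fun s : k => b0 + s * b1 v) b0 (b1 v) := J.line _ _
    have jz := (jy.mul ju).add (JP.bu jb ju)
    have j0 := jx.mul ju
    have j4 := jz.mul ju
    set us : k → k[X] := fun s => u0 + Polynomial.C s * U with hus
    set xs : k → k[X] := fun s => x0 + Polynomial.C s * V with hxs
    set ys : k → k[X] := fun s => y0 + Polynomial.C s * W with hys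
    set zs : k → k[X] := fun s => ys s * us s + bu (b0 + s * b1 v) (us s) with hzs
    obtain ⟨D, hD⟩ : ∃ D, D = y0 * U + W * u0 + (bu b0 U + bu (b1 v) u0) := ⟨_, rfl⟩
    obtain ⟨D0, hD0⟩ : ∃ D0, D0 = x0 * U + V * u0 := ⟨_, rfl⟩
    obtain ⟨D4, hD4⟩ : ∃ D4, D4 = z0 * U + D * u0 := ⟨_, rfl⟩
    rw [← hz, ← hD] at jz
    rw [← hP0, ← hD0] at j0
    rw [← hz, ← hD, ← hP4, ← hD4] at j4
    refine ⟨fun s => gTR (us s) (xs s * us s) (xs s) (zs s) (ys s) (zs s * us s)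
      (fun l => f0 l + Polynomial.C s * ∑ l', Polynomial.C (hh v l l') * f0 l'),
      fun s => ![xs s, ys s, zs s],
      Sum.elim ![U, 0] (Sum.elim ![D0, V, D, W, D4]
            (fun l => ∑ l', Polynomial.C (hh v l l') * f0 l')), ![V, W, D], ?_, ?_, ?_, ?_, ?_⟩
    · rintro (y | (y | y))
      · fin_cases y
        · exact ju
        · exact JP.const 1
      · fin_cases y
        · exact j0
        · exact jx
        · exact jz
        · exact jy
        · exact j4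
      · exact JP.line _ _
    · intro i
      fin_cases i
      · exact jx
      · exact jy
      · exact jz
    · intro s i
      have e0 : (xs s).coeff 0 = 0 := by
        rw [hxs]
        simp [hx0, hV0]
      have e1 : (ys s).coeff 0 = 0 := by
        rw [hys]
        simp [hy0, hW0]
      have e2 : (zs s).coeff 0 = 0 := by
        rw [hzs]
        simp only [Polynomial.coeff_add, Polynomial.mul_coeff_zero, e1, zero_mul, bu_coeff_zero,
          add_zero]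
      fin_cases i
      · exact e0
      · exact e1
      · exact e2
    · intro s i a
      have hc : ∀ (b : k) (u : k[X]), bu b u = Polynomial.C b * u - Polynomial.C (b * u.coeff 0) := by
        intro b u
        rw [bu, Polynomial.C_mul]
        ring
      fin_cases i <;> fin_cases a
      · exact ⟨![0, 0], by simp [gTR, ra]⟩
      · exact ⟨![0, 0], by simp [gTR, ra]⟩
      · refine ⟨![-(b0 + s * b1 v), (b0 + s * b1 v) * (us s).coeff 0], ?_⟩
        simp only [Fin.sum_univ_two]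
        show ys s * us s = zs s + (Polynomial.C (-(b0 + s * b1 v)) * us s +
          Polynomial.C ((b0 + s * b1 v) * (us s).coeff 0) * 1)
        rw [hzs]
        dsimp only
        rw [hc, Polynomial.C_neg]
        ring
      · exact ⟨![0, 0], by simp [gTR, ra]⟩
      · exact ⟨![0, 0], by simp [gTR, ra]⟩
      · exact ⟨![0, 0], by simp [gTR, ra]⟩
    · intro κ l
      exact H v κ l U V W D D0 D4 hU hV hW hD hD0 hD4

/-! ### the family `TF 2` -/

/-- value of the maps `V0 → V1` of `TF 2` -/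
def sgF (q : ℕ) (i : Fin 3) (l : Fin 2) : (Fin 3 × Fin 2) ⊕ Fin q := .inl (i, l)

/-- class of a product in `TF 2` -/
def taF (q : ℕ) (i : Fin 3) : (Fin 3 × Fin 2) ⊕ Fin q → (Fin 6 × Fin 2) ⊕ (Fin 3 × Fin q)
  | .inl j => .inl (ix i j.1, j.2)
  | .inr l => .inr (i, l)

/-- representatives of the classes in `TF 2` -/
def repF (q : ℕ) : (Fin 6 × Fin 2) ⊕ (Fin 3 × Fin q) → Fin 3 × ((Fin 3 × Fin 2) ⊕ Fin q)
  | .inl z => (ri z.1, .inl (ci z.1, z.2))
  | .inr z => (z.1, .inr z.2)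

theorem TF_eq (q c : ℕ) (r : Fin 6 × Fin 2 × Fin c → k) (g : Fin 3 × Fin q × Fin c → k) :
    TF 2 q c r g = TS (sgF q) (taF q) fun z => match z with
      | (.inl a, m) => r (a.1, a.2, m)
      | (.inr a, m) => g (a.1, a.2, m) := by
  funext i
  ext x y
  rcases x with x | ((x | x) | x) <;> rcases y with y | ((y | y) | y)
  · rfl
  · rfl
  · rfl
  · rfl
  · simp [TF, TS, sgF]
  · rfl
  · rfl
  · rfl
  · simp [TF, TS, sgF]
  · rfl
  · rfl
  · rfl
  · rfl
  · rfl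
  · rfl
  · rfl

omit [Field k] in
theorem hstF (q : ℕ) (b : Fin 3 → (Fin 3 × Fin 2) ⊕ Fin q → k)
    (h : ∀ i j a, b i (sgF q j a) = b j (sgF q i a)) (i : Fin 3)
    (j : (Fin 3 × Fin 2) ⊕ Fin q) : b (repF q (taF q i j)).1 (repF q (taF q i j)).2 = b i j := by
  rcases j with ⟨j, a⟩ | j
  · have h1 : ∀ i j : Fin 3, b i (.inl (j, a)) = b j (.inl (i, a)) := fun i j => h i j a
    change b (ri (ix i j)) (.inl (ci (ix i j), a)) = b i (.inl (j, a))
    fin_cases i <;> fin_cases j <;> first | rfl | exact h1 _ _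
  · rfl

/-- the adapted basis of `TF 2` -/
noncomputable def gTF {q c : ℕ} (u : k[X]) (e e' : Fin 3 → k[X]) (w : Fin q → k[X])
    (f : Fin c → k[X]) : Fin 2 ⊕ (((Fin 3 × Fin 2) ⊕ Fin q) ⊕ Fin c) → k[X] :=
  Sum.elim ![1, u] (Sum.elim (Sum.elim (fun z => ![e z.1, e' z.1] z.2) w) f)

theorem cl_TF_of_cert [CharZero k] {q c n : ℕ}
    (ex : Fin 2 ⊕ (((Fin 3 × Fin 2) ⊕ Fin q) ⊕ Fin c) ≃ Fin (n + 1))
    (u0 : k[X]) (x0 P : Fin 3 → k[X]) (q0 : Fin q → k[X]) (f0 : Fin c → k[X])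
    (hx0 : ∀ i, (x0 i).coeff 0 = 0) (hP : ∀ i, P i = x0 i * u0)
    (Li : Fin 2 ⊕ (((Fin 3 × Fin 2) ⊕ Fin q) ⊕ Fin c) → Fin (n + 1) → k)
    (hL : ∀ x y, ∑ m : Fin (n + 1), Li x m * (gTF u0 x0 P q0 f0 y).coeff m =
      if x = y then 1 else 0)
    (ro : (Fin 6 × Fin 2) ⊕ (Fin 3 × Fin q) → Fin 2 ⊕ (((Fin 3 × Fin 2) ⊕ Fin q) ⊕ Fin c) → k)
    (rr : (Fin 6 × Fin 2) ⊕ (Fin 3 × Fin q) → k[X])
    (hro : ∀ κ, x0 (repF q κ).1 * gTF u0 x0 P q0 f0 (.inr (.inl (repF q κ).2)) =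
      ∑ y, Polynomial.C (ro κ y) * gTF u0 x0 P q0 f0 y + Polynomial.X ^ (n + 1) * rr κ)
    (uu : (((Fin 6 × Fin 2) ⊕ (Fin 3 × Fin q)) × Fin c → k) → ℕ → k)
    (xx : (((Fin 6 × Fin 2) ⊕ (Fin 3 × Fin q)) × Fin c → k) → Fin 3 → ℕ → k)
    (qq : (((Fin 6 × Fin 2) ⊕ (Fin 3 × Fin q)) × Fin c → k) → Fin q → ℕ → k)
    (hh : (((Fin 6 × Fin 2) ⊕ (Fin 3 × Fin q)) × Fin c → k) → Fin c → Fin c → k)
    (hxx : ∀ v i, xx v i 0 = 0)
    (H : ∀ v κ l, ∀ (U : k[X]) (V D : Fin 3 → k[X]) (W : Fin q → k[X]), U = pf n (uu v) →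
      (∀ i, V i = pf n (xx v i)) → (∀ l, W l = pf n (qq v l)) → (∀ i, D i = x0 i * U + V i * u0) →
      ∑ m : Fin (n + 1), Li (.inr (.inr l)) m *
        ((V (repF q κ).1 * gTF u0 x0 P q0 f0 (.inr (.inl (repF q κ).2)) +
          x0 (repF q κ).1 * Sum.elim (fun z => ![V z.1, D z.1] z.2) W (repF q κ).2).coeff m -
          ∑ y, ro κ y * (Sum.elim ![0, U] (Sum.elim (Sum.elim (fun z => ![V z.1, D z.1] z.2) W)
            (fun l => ∑ l', Polynomial.C (hh v l l') * f0 l')) y).coeff m) = v (κ, l))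
    (r : Fin 6 × Fin 2 × Fin c → k) (g : Fin 3 × Fin q × Fin c → k) : Cl (TF 2 q c r g) := by
  rw [TF_eq]
  refine cl_TS_of_cert ex (sgF q) (taF q) (repF q) (hstF q) (gTF u0 x0 P q0 f0) x0 Li hL ro
    (fun κ m => coeff_of_eq (hro κ) m) (fun v => ?_) _
  set U : k[X] := pf n (uu v) with hU
  set V : Fin 3 → k[X] := fun i => pf n (xx v i) with hV
  set W : Fin q → k[X] := fun i => pf n (qq v i) with hW
  have hV0 : ∀ i, (V i).coeff 0 = 0 := by
    intro i
    rw [hV]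
    dsimp only
    rw [coeff_pf, if_pos (Nat.succ_pos n), hxx]
  have ju : JP (fun s : k => u0 + Polynomial.C s * U) u0 U := JP.line _ _
  have jx : ∀ i, JP (fun s : k => x0 i + Polynomial.C s * V i) (x0 i) (V i) := fun i => JP.line _ _
  obtain ⟨D, hD⟩ : ∃ D : Fin 3 → k[X], ∀ i, D i = x0 i * U + V i * u0 := ⟨_, fun i => rfl⟩
  have jd := fun i => (jx i).mul ju
  simp only [← hP, ← hD] at jd
  refine ⟨fun s => gTF (u0 + Polynomial.C s * U) (fun i => x0 i + Polynomial.C s * V i)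
    (fun i => (x0 i + Polynomial.C s * V i) * (u0 + Polynomial.C s * U))
    (fun l => q0 l + Polynomial.C s * W l)
    (fun l => f0 l + Polynomial.C s * ∑ l', Polynomial.C (hh v l l') * f0 l'),
    fun s i => x0 i + Polynomial.C s * V i,
    Sum.elim ![0, U] (Sum.elim (Sum.elim (fun z => ![V z.1, D z.1] z.2) W)
            (fun l => ∑ l', Polynomial.C (hh v l l') * f0 l')), V, ?_, ?_, ?_, ?_, ?_⟩
  · rintro (y | ((⟨y, a⟩ | y) | y))
    · fin_cases y
      · exact JP.const 1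
      · exact ju
    · fin_cases a
      · exact jx y
      · exact jd y
    · exact JP.line _ _
    · exact JP.line _ _
  · exact jx
  · intro s i
    simp [hx0, hV0]
  · intro s i a
    refine ⟨fun _ => 0, ?_⟩
    fin_cases a
    · simp [gTF, sgF]
    · simp [gTF, sgF]
  · intro κ l
    refine Eq.trans ?_ (H v κ l U V D W hU (fun i => rfl) (fun i => rfl) hD)
    refine Finset.sum_congr rfl fun m _ => ?_
    congr 3

end DensG

end Pool.Agent.Lib.D10
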