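import Pool.Agent.Lib.D10.X21R

/-!
# MP_5dcbc3_ag: types `(3, 3, 2, 1^p)`, `p >= 3`, case I: no maximal bad triple (end of proof)

The parameters are moved to the generic point of `X21R` along a segment.
-/

namespace Pool.Agent.Lib.D10

open Matrix Pool.Agent.Lib.Q5dc Pool.Agent.Lib.D7 Pool.Agent.Lib.D9

theorem isPoly_det {k : Type*} [Field k] {m : Type*} [Fintype m] [DecidableEq m]
    {M : k → Matrix m m k} (hM : ∀ x y, D7.IsPoly fun s => M s x y) :
    D7.IsPoly fun s => (M s).det := by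
  choose p hp using hM
  refine ⟨(Matrix.of fun i j => p i j).det, fun s => ?_⟩
  rw [← Polynomial.coe_evalRingHom, RingHom.map_det]
  have e : M s = (Polynomial.evalRingHom s).mapMatrix (Matrix.of fun i j => p i j) := by
    ext i j
    exact hp i j s
  rw [← e]

theorem isPoly_BX {k : Type*} [Field k] {e u p : ℕ} {N M : k → Matrix (Fin e) (Fin e) k}
    {a c : k → Matrix (Fin u) (Fin e) k} {w : k → Matrix (Fin p) (Fin e) k}
    {b d : k → Matrix (Fin e) (Fin u) k} {nu : k → Matrix (Fin u) (Fin u) k}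
    {pi : k → Matrix (Fin p) (Fin u) k} {th : k → Matrix (Fin e) (Fin p) k}
    {et : k → Matrix (Fin u) (Fin p) k}
    (hN : ∀ x y, D7.IsPoly fun s => N s x y) (hM : ∀ x y, D7.IsPoly fun s => M s x y)
    (ha : ∀ x y, D7.IsPoly fun s => a s x y) (hc : ∀ x y, D7.IsPoly fun s => c s x y)
    (hw : ∀ x y, D7.IsPoly fun s => w s x y) (hb : ∀ x y, D7.IsPoly fun s => b s x y)
    (hd : ∀ x y, D7.IsPoly fun s => d s x y) (hnu : ∀ x y, D7.IsPoly fun s => nu s x y)
    (hpi : ∀ x y, D7.IsPoly fun s => pi s x y) (hth : ∀ x y, D7.IsPoly fun s => th s x y)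
    (het : ∀ x y, D7.IsPoly fun s => et s x y) :
    ∀ x y, D7.IsPoly fun s =>
      (BX (N s) (M s) (a s) (c s) (w s) (b s) (d s) (nu s) (pi s) (th s) (et s) :
        Matrix (Ix e u p) (Ix e u p) k) x y := by
  intro x y
  rcases x with (i | i | i) | ((i | i) | i) <;> rcases y with (j | j | j) | ((j | j) | j) <;>
    first
      | exact hN i j
      | exact hM i j
      | exact ha i j
      | exact hc i j
      | exact hw i j
      | exact hb i j
      | exact hd i j
      | exact hnu i j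
      | exact hpi i j
      | exact hth i j
      | exact het i j
      | exact D7.IsPoly.const 0

namespace X21GAux

open N33111Aux X21RAux

variable {k : Type*} [Field k] {p : ℕ} {ρ : ℕ → ℕ} {N M N' M' : Matrix (Fin 2) (Fin 2) k}
  {a c a' c' : Matrix (Fin 1) (Fin 2) k} {w w' : Matrix (Fin p) (Fin 2) k}
  {d d' : Matrix (Fin 2) (Fin 1) k} {nu nu' : Matrix (Fin 1) (Fin 1) k}
  {th th' : Matrix (Fin 2) (Fin p) k} {et et' : Matrix (Fin 1) (Fin p) k}

theorem main [IsAlgClosed k] [CharZero k] (h3 : ρ 3 = 0)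
    (hT : MaxR ρ (Tr N M a c w d nu th et N' M' a' c' w' d' nu' th' et'))
    (lw : Matrix (Fin 2) (Fin p) k) (v : Matrix (Fin p) (Fin 1) k) (mu : Matrix (Fin 1) (Fin p) k)
    (hlw : lw * w = 1) (hlv : lw * v = 0) (hmw : mu * w = 0) (hmv : mu * v = 1) : False := by
  obtain ⟨r2, r3⟩ := Tr.rel hT
  obtain ⟨Q, hQ⟩ : ∃ Q : Matrix (Fin p) (Fin p) k, Q = 1 - w * lw := ⟨_, rfl⟩
  have hQw : Q * w = 0 := by
    rw [hQ, Matrix.sub_mul, Matrix.one_mul, Matrix.mul_assoc, hlw, Matrix.mul_one, sub_self]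
  have hQ1 : w * lw + Q = 1 := by rw [hQ]; abel
  have hmQ : mu * Q = mu := by
    rw [hQ, Matrix.mul_sub, Matrix.mul_one, ← Matrix.mul_assoc, hmw, Matrix.zero_mul, sub_zero]
  obtain ⟨ws, hws⟩ : ∃ ws : Matrix (Fin p) (Fin 2) k,
    ws = w * (!![1, 0; 0, 0] : Matrix (Fin 2) (Fin 2) k) +
      v * (!![0, 1] : Matrix (Fin 1) (Fin 2) k) := ⟨_, rfl⟩
  obtain ⟨ts, hts⟩ : ∃ ts : Matrix (Fin 2) (Fin p) k,
    ts = (!![1, 0; 0, 0] : Matrix (Fin 2) (Fin 2) k) * lw +
      (!![0; 1] : Matrix (Fin 2) (Fin 1) k) * mu := ⟨_, rfl⟩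
  have hmws : mu * ws = !![0, 1] := by
    rw [hws, Matrix.mul_add, ← Matrix.mul_assoc, ← Matrix.mul_assoc, hmw, hmv, Matrix.zero_mul,
      Matrix.one_mul, zero_add]
  have hlws : lw * ws = !![1, 0; 0, 0] := by
    rw [hws, Matrix.mul_add, ← Matrix.mul_assoc, ← Matrix.mul_assoc, hlw, hlv, Matrix.zero_mul,
      Matrix.one_mul, add_zero]
  have htws : ts * ws = 1 := by
    rw [hts, Matrix.add_mul, Matrix.mul_assoc, Matrix.mul_assoc, hlws, hmws]
    ext i j
    fin_cases i <;> fin_cases j <;> simp [Matrix.mul_apply, Fin.sum_univ_two]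
  -- the family
  set Nf : k → Matrix (Fin 2) (Fin 2) k := fun s => (1 - s) • N + s • 0 with hNf
  set af : k → Matrix (Fin 1) (Fin 2) k := fun s => (1 - s) • a + s • 0 with haf
  set df : k → Matrix (Fin 2) (Fin 1) k := fun s => (1 - s) • d + s • 0 with hdf
  set nuf : k → Matrix (Fin 1) (Fin 1) k := fun s => (1 - s) • nu + s • 0 with hnuf
  set af' : k → Matrix (Fin 1) (Fin 2) k := fun s => (1 - s) • a' + s • !![1, 0] with haf'
  set wf' : k → Matrix (Fin p) (Fin 2) k := fun s => (1 - s) • w' + s • ws with hwf'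
  set thf : k → Matrix (Fin 2) (Fin p) k := fun s => (1 - s) • th + s • ts with hthf
  set etf : k → Matrix (Fin 1) (Fin p) k := fun s => (1 - s) • et + s • 0 with hetf
  set RE : k → Matrix (Fin 2) (Fin 2) k := fun s =>
    Nf s * N' - N' * Nf s + (df s * af' s - d' * af s) + thf s * wf' s with hRE
  set RU : k → Matrix (Fin 1) (Fin 2) k := fun s =>
    af s * N' - af' s * Nf s + (nuf s * af' s - nu' * af s) + etf s * wf' s with hRU
  set thf' : k → Matrix (Fin 2) (Fin p) k := fun s =>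
    RE s * lw + ((1 - s) • th' + s • 0) * Q with hthf'
  set etf' : k → Matrix (Fin 1) (Fin p) k := fun s =>
    RU s * lw + ((1 - s) • et' + s • mu) * Q with hetf'
  have pN := poly_seg N 0
  have pa := poly_seg a 0
  have pd := poly_seg d 0
  have pnu := poly_seg nu 0
  have pa' := poly_seg a' !![1, 0]
  have pw' := poly_seg w' ws
  have pth := poly_seg th ts
  have pet := poly_seg et 0
  have pRE : ∀ x y, D7.IsPoly fun s => RE s x y :=
    poly_add (poly_add (poly_sub (poly_mul pN (poly_const N')) (poly_mul (poly_const N') pN))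
      (poly_sub (poly_mul pd pa') (poly_mul (poly_const d') pa))) (poly_mul pth pw')
  have pRU : ∀ x y, D7.IsPoly fun s => RU s x y :=
    poly_add (poly_add (poly_sub (poly_mul pa (poly_const N')) (poly_mul pa' pN))
      (poly_sub (poly_mul pnu pa') (poly_mul (poly_const nu') pa))) (poly_mul pet pw')
  have pth' : ∀ x y, D7.IsPoly fun s => thf' s x y :=
    poly_add (poly_mul pRE (poly_const lw)) (poly_mul (poly_seg th' 0) (poly_const Q))
  have pet' : ∀ x y, D7.IsPoly fun s => etf' s x y :=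
    poly_add (poly_mul pRU (poly_const lw)) (poly_mul (poly_seg et' mu) (poly_const Q))
  have kw : ∀ s, thf' s * w = RE s := by
    intro s
    show (RE s * lw + _ * Q) * w = _
    rw [Matrix.add_mul, Matrix.mul_assoc, Matrix.mul_assoc, hlw, hQw, Matrix.mul_one,
      Matrix.mul_zero, add_zero]
  have kw2 : ∀ s, etf' s * w = RU s := by
    intro s
    show (RU s * lw + _ * Q) * w = _
    rw [Matrix.add_mul, Matrix.mul_assoc, Matrix.mul_assoc, hlw, hQw, Matrix.mul_one,
      Matrix.mul_zero, add_zero]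
  have n0 : Nf 0 = N := by simp only [hNf, sub_zero, one_smul, zero_smul, add_zero]
  have a0 : af 0 = a := by simp only [haf, sub_zero, one_smul, zero_smul, add_zero]
  have d0 : df 0 = d := by simp only [hdf, sub_zero, one_smul, zero_smul, add_zero]
  have nu0 : nuf 0 = nu := by simp only [hnuf, sub_zero, one_smul, zero_smul, add_zero]
  have a0' : af' 0 = a' := by simp only [haf', sub_zero, one_smul, zero_smul, add_zero]
  have w0' : wf' 0 = w' := by simp only [hwf', sub_zero, one_smul, zero_smul, add_zero]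
  have th0 : thf 0 = th := by simp only [hthf, sub_zero, one_smul, zero_smul, add_zero]
  have et0 : etf 0 = et := by simp only [hetf, sub_zero, one_smul, zero_smul, add_zero]
  have RE0 : RE 0 = th' * w := by
    show Nf 0 * N' - N' * Nf 0 + (df 0 * af' 0 - d' * af 0) + thf 0 * wf' 0 = _
    rw [n0, a0, d0, a0', w0', th0]
    have e : N * N' - N' * N + (d * a' - d' * a) + th * w' =
        (N * N' + d * a' + th * w') - N' * N - d' * a := by abel
    rw [e, r2]
    abel
  have RU0 : RU 0 = et' * w := by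
    show af 0 * N' - af' 0 * Nf 0 + (nuf 0 * af' 0 - nu' * af 0) + etf 0 * wf' 0 = _
    rw [n0, a0, nu0, a0', w0', et0]
    have e : a * N' - a' * N + (nu * a' - nu' * a) + et * w' =
        (a * N' + nu * a' + et * w') - a' * N - nu' * a := by abel
    rw [e, r3]
    abel
  have th0' : thf' 0 = th' := by
    show RE 0 * lw + ((1 - 0 : k) • th' + (0 : k) • 0) * Q = th'
    rw [RE0, sub_zero, one_smul, zero_smul, add_zero, Matrix.mul_assoc, ← Matrix.mul_add, hQ1,
      Matrix.mul_one]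
  have et0' : etf' 0 = et' := by
    show RU 0 * lw + ((1 - 0 : k) • et' + (0 : k) • mu) * Q = et'
    rw [RU0, sub_zero, one_smul, zero_smul, add_zero, Matrix.mul_assoc, ← Matrix.mul_add, hQ1,
      Matrix.mul_one]
  obtain ⟨E', hE', hgood⟩ := hT.deform (fun s => Tr (Nf s) M (af s) c w (df s) (nuf s) (thf s)
    (etf s) N' M' (af' s) c' (wf' s) d' nu' (thf' s) (etf' s)) (by
      intro i
      fin_cases i
      · exact fun x y => D7.IsPoly.const _
      · exact isPoly_BX pN (poly_const M) pa (poly_const c) (poly_const w) (poly_const 0) pd pnu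
          (poly_const 0) pth pet
      · exact isPoly_BX (poly_const N') (poly_const M') pa' (poly_const c') pw' (poly_const 0)
          (poly_const d') (poly_const nu') (poly_const 0) pth' pet') (by
      show Tr (Nf 0) M (af 0) c w (df 0) (nuf 0) (thf 0) (etf 0) N' M' (af' 0) c' (wf' 0) d' nu'
        (thf' 0) (etf' 0) = _
      rw [n0, a0, d0, nu0, a0', w0', th0, et0, th0', et0']) Set.finite_empty (by
      intro s _
      refine Tr.cn ?_ ?_
      · rw [kw]
        show Nf s * N' + df s * af' s + thf s * wf' s =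
          N' * Nf s + d' * af s + (Nf s * N' - N' * Nf s + (df s * af' s - d' * af s) +
            thf s * wf' s)
        abel
      · rw [kw2]
        show af s * N' + nuf s * af' s + etf s * wf' s =
          af' s * Nf s + nu' * af s + (af s * N' - af' s * Nf s + (nuf s * af' s - nu' * af s) +
            etf s * wf' s)
        abel)
  -- the two conditions
  have pDD : ∀ x y, D7.IsPoly fun s => DD (thf' s) (etf' s) w v x y := by
    intro x y
    rcases x with x | x <;> rcases y with y | y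
    · exact poly_mul pth' (poly_const w) x y
    · exact poly_mul pth' (poly_const v) x y
    · exact poly_mul pet' (poly_const w) x y
    · exact poly_mul pet' (poly_const v) x y
  have f1 := isPoly_det pDD
  have pq : ∀ x y, D7.IsPoly fun s => (af' s - af s * (lw * wf' s)) x y :=
    poly_sub pa' (poly_mul pa (poly_mul (poly_const lw) pw'))
  have pr : ∀ x y, D7.IsPoly fun s => (mu * wf' s) x y := poly_mul (poly_const mu) pw'
  have f2 : D7.IsPoly fun s => (af' s - af s * (lw * wf' s)) 0 0 * (mu * wf' s) 0 1 -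
      (af' s - af s * (lw * wf' s)) 0 1 * (mu * wf' s) 0 0 :=
    ((pq 0 0).mul (pr 0 1)).sub ((pq 0 1).mul (pr 0 0))
  have n1 : Nf 1 = 0 := by simp only [hNf, sub_self, zero_smul, one_smul, add_zero]
  have a1 : af 1 = 0 := by simp only [haf, sub_self, zero_smul, one_smul, add_zero]
  have d1 : df 1 = 0 := by simp only [hdf, sub_self, zero_smul, one_smul, add_zero]
  have nu1 : nuf 1 = 0 := by simp only [hnuf, sub_self, zero_smul, one_smul, add_zero]
  have a1' : af' 1 = !![1, 0] := by simp only [haf', sub_self, zero_smul, one_smul, zero_add]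
  have w1' : wf' 1 = ws := by simp only [hwf', sub_self, zero_smul, one_smul, zero_add]
  have th1 : thf 1 = ts := by simp only [hthf, sub_self, zero_smul, one_smul, zero_add]
  have et1 : etf 1 = 0 := by simp only [hetf, sub_self, zero_smul, one_smul, add_zero]
  have RE1 : RE 1 = 1 := by
    show Nf 1 * N' - N' * Nf 1 + (df 1 * af' 1 - d' * af 1) + thf 1 * wf' 1 = _
    rw [n1, a1, d1, w1', th1, htws]
    simp
  have RU1 : RU 1 = 0 := by
    show af 1 * N' - af' 1 * Nf 1 + (nuf 1 * af' 1 - nu' * af 1) + etf 1 * wf' 1 = _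
    rw [n1, a1, nu1, et1]
    simp
  have th1' : thf' 1 = lw := by
    show RE 1 * lw + ((1 - 1 : k) • th' + (1 : k) • 0) * Q = lw
    rw [RE1]
    simp
  have et1' : etf' 1 = mu := by
    show RU 1 * lw + ((1 - 1 : k) • et' + (1 : k) • mu) * Q = mu
    rw [RU1, sub_self, zero_smul, one_smul, zero_add, Matrix.zero_mul, zero_add, hmQ]
  have g1 := f1.finite (s₁ := 1) (by
    show (DD (thf' 1) (etf' 1) w v).det ≠ 0
    rw [th1', et1', DD, hlw, hlv, hmw, hmv, fromBlocks_one, Matrix.det_one]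
    exact one_ne_zero)
  have g2 := f2.finite (s₁ := 1) (by
    show (af' 1 - af 1 * (lw * wf' 1)) 0 0 * (mu * wf' 1) 0 1 -
      (af' 1 - af 1 * (lw * wf' 1)) 0 1 * (mu * wf' 1) 0 0 ≠ 0
    rw [a1', a1, w1', hmws]
    simp)
  obtain ⟨s, hs⟩ := ((hE'.union g1).union g2).infinite_compl.nonempty
  simp only [Set.mem_compl_iff, Set.mem_union, not_or, Set.mem_ofPred_eq] at hs
  obtain ⟨⟨hs0, hs1⟩, hs2⟩ := hs
  exact gen h3 (hgood s hs0) lw v mu hlw hmw hs1 hs2

/-- the left inverse -/
theorem exists_lw (hp : 3 ≤ p) (hw : Inj2 w) : ∃ (lw : Matrix (Fin 2) (Fin p) k)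
    (v : Matrix (Fin p) (Fin 1) k) (mu : Matrix (Fin 1) (Fin p) k), lw * w = 1 ∧ lw * v = 0 ∧
      mu * w = 0 ∧ mu * v = 1 := by
  obtain ⟨i, j, hij⟩ := hw
  have hne : i ≠ j := by
    rintro rfl
    apply hij
    ring
  obtain ⟨l, hli, hlj⟩ : ∃ l : Fin p, l ≠ i ∧ l ≠ j := by
    by_contra hc
    push Not at hc
    have h1 : (Finset.univ : Finset (Fin p)) ⊆ {i, j} := by
      intro l _
      rw [Finset.mem_insert, Finset.mem_singleton]
      by_cases h : l = i
      · exact Or.inl h
      · exact Or.inr (hc l h)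
    have h2 := Finset.card_le_card h1
    rw [Finset.card_univ, Fintype.card_fin] at h2
    have h3 := Finset.card_le_two (a := i) (b := j)
    omega
  obtain ⟨m, hm⟩ : ∃ m, m = w i 0 * w j 1 - w i 1 * w j 0 := ⟨_, rfl⟩
  rw [← hm] at hij
  obtain ⟨lw, hlw⟩ : ∃ lw : Matrix (Fin 2) (Fin p) k, ∀ r x, lw r x =
      m⁻¹ * (![w j 1, -w j 0] r * (Pi.single i 1 : Fin p → k) x +
        ![-w i 1, w i 0] r * (Pi.single j 1 : Fin p → k) x) := ⟨_, fun _ _ => rfl⟩
  have hl : ∀ x : Fin p → k, ∀ r, (lw *ᵥ x) r =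
      m⁻¹ * (![w j 1, -w j 0] r * x i + ![-w i 1, w i 0] r * x j) := by
    intro x r
    have e : lw r = m⁻¹ • (![w j 1, -w j 0] r • (Pi.single i 1 : Fin p → k) +
        ![-w i 1, w i 0] r • (Pi.single j 1 : Fin p → k)) := by
      funext y
      rw [hlw]
      simp
    show lw r ⬝ᵥ x = _
    rw [e, smul_dotProduct, add_dotProduct, smul_dotProduct, smul_dotProduct,
      single_one_dotProduct, single_one_dotProduct]
    simp
  have hlw1 : lw * w = 1 := by
    ext r t
    have e : (lw * w) r t = (lw *ᵥ fun x => w x t) r := rfl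
    rw [e, hl]
    fin_cases r <;> fin_cases t <;> simp [Matrix.one_apply]
    · rw [hm] at hij ⊢
      field_simp
      ring
    · ring_nf
      simp
    · ring_nf
      simp
    · rw [hm] at hij ⊢
      field_simp
      ring
  obtain ⟨v, hv⟩ : ∃ v : Matrix (Fin p) (Fin 1) k, v = Matrix.of fun x _ =>
    (Pi.single l 1 : Fin p → k) x := ⟨_, rfl⟩
  have hlv : lw * v = 0 := by
    ext r t
    have e : (lw * v) r t = (lw *ᵥ (Pi.single l 1 : Fin p → k)) r := by rw [hv]; rfl
    rw [e, hl, Pi.single_eq_of_ne hli.symm, Pi.single_eq_of_ne hlj.symm]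
    fin_cases r <;> simp
  obtain ⟨m0, hm0⟩ : ∃ m0 : Matrix (Fin 1) (Fin p) k, m0 = Matrix.of fun _ x =>
    (Pi.single l 1 : Fin p → k) x := ⟨_, rfl⟩
  have hm0v : m0 * v = 1 := by
    ext r t
    rw [Subsingleton.elim r 0, Subsingleton.elim t 0, Matrix.mul_apply, hm0, hv]
    simp [Pi.single_apply]
  refine ⟨lw, v, m0 - m0 * w * lw, hlw1, hlv, ?_, ?_⟩
  · rw [Matrix.sub_mul, Matrix.mul_assoc (m0 * w), hlw1, Matrix.mul_one, sub_self]
  · rw [Matrix.sub_mul, Matrix.mul_assoc (m0 * w), hlv, Matrix.mul_zero, sub_zero, hm0v]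

end X21GAux

open X21GAux in
/-- case I, `w` injective -/
theorem no_inj21 {k : Type*} [Field k] [IsAlgClosed k] [CharZero k] {p : ℕ} {ρ : ℕ → ℕ}
    (h3 : ρ 3 = 0) (hp : 3 ≤ p) : NoInj k ρ 1 p := by
  intro N M a c w d nu th et N' M' a' c' w' d' nu' th' et' hT hw
  obtain ⟨lw, v, mu, h1, h2, h4, h5⟩ := exists_lw hp hw
  exact main h3 hT lw v mu h1 h2 h4 h5

/-- case I -/
theorem no_I21 {k : Type*} [Field k] [IsAlgClosed k] [CharZero k] {p : ℕ} {ρ : ℕ → ℕ}
    (h3 : ρ 3 = 0) (hp : 3 ≤ p) {N M N' M' : Matrix (Fin 2) (Fin 2) k}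
    {a c a' c' : Matrix (Fin 1) (Fin 2) k} {w w' : Matrix (Fin p) (Fin 2) k}
    {d d' : Matrix (Fin 2) (Fin 1) k} {nu nu' : Matrix (Fin 1) (Fin 1) k}
    {th th' : Matrix (Fin 2) (Fin p) k} {et et' : Matrix (Fin 1) (Fin p) k}
    (hT : MaxR ρ ![JX k 2 1 p, BX N M a c w 0 d nu 0 th et,
      BX N' M' a' c' w' 0 d' nu' 0 th' et']) : False :=
  X2.of_inj (no_inj21 h3 hp) (by omega) (by omega) hT

end Pool.Agent.Lib.D10
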