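import Pool.Agent.Lib.D10.X21Red
import Pool.Agent.Lib.D10.X21G

/-!
# MP_5dcbc3_ag: no maximal bad triple of type `(3, 3, 2, 1^p)`, `p >= 3`
-/

namespace Pool.Agent.Lib.D10

open Matrix Pool.Agent.Lib.Q5dc Pool.Agent.Lib.D7 Pool.Agent.Lib.D9

theorem no_X21 {k : Type*} [Field k] [IsAlgClosed k] [CharZero k] {p : ℕ} (hp : 3 ≤ p)
    {ρ : ℕ → ℕ} {T : Fin 3 → Matrix (Ix 2 1 p) (Ix 2 1 p) k} (hT : MaxR ρ T)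
    (hρ : ∀ i, ρ i = (JX k 2 1 p ^ i).rank) (h0 : T 0 = JX k 2 1 p) : False :=
  no_X21_of_I (fun h3 _ _ _ _ _ _ _ _ _ _ _ _ _ _ _ _ _ _ h => no_I21 h3 hp h) hT hρ h0

end Pool.Agent.Lib.D10
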