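import Pool.Agent.Lib.D9.BlkShape
import Pool.Agent.Lib.D9.BlkRank
import Pool.Agent.Lib.D9.T3321

/-!
# MP_5dcbc3_ag: types `(3, 3, 2, 1^p)`: reduction to case I (`b = pi = 0` for both)

A maximal bad triple with `b = b' = 0` has `pi = pi' = 0` (case I) or `et = et' = 0`. In the
second case `pi' = 0`, `a' = 0`, `th' pi = 0` after a linear change. If `a = 0` the dual triple is
in case I; if `a <> 0` the entry `et` can be made nonzero in a family, which contradicts
`pi et = 0`.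
-/

namespace Pool.Agent.Lib.D10

open Matrix Pool.Agent.Lib.Q5dc Pool.Agent.Lib.D7 Pool.Agent.Lib.D9

/-- there is no maximal bad triple in case I -/
def NoI (k : Type*) [Field k] (ρ : ℕ → ℕ) (p : ℕ) : Prop :=
  ∀ (N M : Matrix (Fin 2) (Fin 2) k) (a c : Matrix (Fin 1) (Fin 2) k)
    (w : Matrix (Fin p) (Fin 2) k) (d : Matrix (Fin 2) (Fin 1) k) (nu : Matrix (Fin 1) (Fin 1) k)
    (th : Matrix (Fin 2) (Fin p) k) (et : Matrix (Fin 1) (Fin p) k)
    (N' M' : Matrix (Fin 2) (Fin 2) k) (a' c' : Matrix (Fin 1) (Fin 2) k)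
    (w' : Matrix (Fin p) (Fin 2) k) (d' : Matrix (Fin 2) (Fin 1) k)
    (nu' : Matrix (Fin 1) (Fin 1) k) (th' : Matrix (Fin 2) (Fin p) k)
    (et' : Matrix (Fin 1) (Fin p) k),
    MaxR ρ ![JX k 2 1 p, BX N M a c w 0 d nu 0 th et, BX N' M' a' c' w' 0 d' nu' 0 th' et'] →
      False

namespace X21RedAux

open T3321Aux

variable {k : Type*} [Field k] {p : ℕ}

theorem exists_basis {a : Matrix (Fin 1) (Fin 2) k} (ha : a ≠ 0) :
    ∃ (g f : Matrix (Fin 2) (Fin 1) k) (h : Matrix (Fin 1) (Fin 2) k),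
      a * g = 1 ∧ a * f = 0 ∧ g * a + f * h = 1 := by
  by_cases h0 : a 0 0 = 0
  · have h1 : a 0 1 ≠ 0 := by
      intro h1
      apply ha
      ext i j
      rw [Subsingleton.elim i 0]
      fin_cases j
      exacts [h0, h1]
    refine ⟨!![0; (a 0 1)⁻¹], !![1; 0], !![1, 0], ?_, ?_, ?_⟩
    · ext i j
      rw [Subsingleton.elim i 0, Subsingleton.elim j 0]
      simp [Matrix.mul_apply, Fin.sum_univ_two, h1]
    · ext i j
      rw [Subsingleton.elim i 0, Subsingleton.elim j 0]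
      simp [Matrix.mul_apply, Fin.sum_univ_two, h0]
    · ext i j
      rw [Matrix.add_apply, Matrix.mul_apply, Matrix.mul_apply, Fin.sum_univ_one,
        Fin.sum_univ_one]
      fin_cases i <;> fin_cases j <;> simp [h0, h1]
  · refine ⟨!![(a 0 0)⁻¹; 0], !![-(a 0 1) * (a 0 0)⁻¹; 1], !![0, 1], ?_, ?_, ?_⟩
    · ext i j
      rw [Subsingleton.elim i 0, Subsingleton.elim j 0]
      simp [Matrix.mul_apply, Fin.sum_univ_two, h0]
    · ext i j
      rw [Subsingleton.elim i 0, Subsingleton.elim j 0]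
      simp [Matrix.mul_apply, Fin.sum_univ_two]
      field_simp
      ring
    · ext i j
      rw [Matrix.add_apply, Matrix.mul_apply, Matrix.mul_apply, Fin.sum_univ_one,
        Fin.sum_univ_one]
      fin_cases i <;> fin_cases j <;> simp [h0]
      ring

theorem exists_row {x : Matrix (Fin p) (Fin 1) k} (hx : x ≠ 0) :
    ∃ xi : Matrix (Fin 1) (Fin p) k, xi * x = 1 := by
  obtain ⟨i, hi⟩ : ∃ i, x i 0 ≠ 0 := by
    by_contra hc
    push Not at hc
    apply hx
    ext i j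
    rw [Subsingleton.elim j 0]
    exact hc i
  refine ⟨Matrix.of fun _ => (x i 0)⁻¹ • (Pi.single i 1 : Fin p → k), ?_⟩
  ext r t
  rw [Subsingleton.elim r 0, Subsingleton.elim t 0]
  show (((x i 0)⁻¹ • (Pi.single i 1 : Fin p → k)) ⬝ᵥ fun y => x y 0) = _
  rw [smul_dotProduct, single_one_dotProduct]
  simp [hi]

theorem raise_data {a : Matrix (Fin 1) (Fin 2) k} (ha : a ≠ 0) (w : Matrix (Fin p) (Fin 2) k)
    (N : Matrix (Fin 2) (Fin 2) k) (ze : Matrix (Fin 1) (Fin p) k) :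
    ∃ (n : Matrix (Fin 2) (Fin 2) k) (δ : Matrix (Fin 2) (Fin 1) k)
      (τ : Matrix (Fin 2) (Fin p) k),
      a * n = - (ze * w) ∧ N * n + τ * w = n * N + δ * a := by
  obtain ⟨g, f, h, e1, e2, e3⟩ := exists_basis ha
  by_cases hw : w * f = 0
  · have e4 : w = (w * g) * a := by
      have e5 : w = w * (g * a + f * h) := by rw [e3, Matrix.mul_one]
      rw [Matrix.mul_add, ← Matrix.mul_assoc w f, hw, Matrix.zero_mul, add_zero,
        ← Matrix.mul_assoc] at e5
      exact e5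
    refine ⟨-((ze * (w * g)) 0 0 • 1), 0, 0, ?_, ?_⟩
    · have e5 : ze * w = (ze * (w * g)) * a := by
        conv_lhs => rw [e4]
        rw [Matrix.mul_assoc ze]
      rw [e5, Matrix.mul_neg, Matrix.mul_smul, Matrix.mul_one]
      generalize ze * (w * g) = y
      congr 1
      ext i j
      rw [Subsingleton.elim i 0, Matrix.smul_apply, Matrix.mul_apply, Fin.sum_univ_one]
      rfl
    · simp
  · obtain ⟨xi, hxi⟩ := exists_row hw
    obtain ⟨n, hn⟩ : ∃ n, n = -(g * (ze * w)) := ⟨_, rfl⟩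
    obtain ⟨K, hK⟩ : ∃ K, K = N * n - n * N := ⟨_, rfl⟩
    refine ⟨n, (K - K * f * xi * w) * g, -(K * f * xi), ?_, ?_⟩
    · rw [hn, Matrix.mul_neg, ← Matrix.mul_assoc, e1, Matrix.one_mul]
    · have e4 : (K - K * f * xi * w) * f = 0 := by
        rw [Matrix.sub_mul, Matrix.mul_assoc (K * f * xi), Matrix.mul_assoc (K * f), hxi,
          Matrix.mul_one, sub_self]
      have e5 : K - K * f * xi * w = (K - K * f * xi * w) * g * a := by
        have e6 : K - K * f * xi * w = (K - K * f * xi * w) * (g * a + f * h) := by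
          rw [e3, Matrix.mul_one]
        rw [Matrix.mul_add, ← Matrix.mul_assoc, ← Matrix.mul_assoc, e4, Matrix.zero_mul,
          add_zero] at e6
        exact e6
      rw [← e5, hK, Matrix.neg_mul]
      abel

section

variable [IsAlgClosed k] [CharZero k] {ρ : ℕ → ℕ}

/-- the case `a <> 0`: the entry `et` can be made nonzero -/
theorem fin_a (h1 : ρ 1 ≤ 2 * 2 + 1)
    {N M N' M' : Matrix (Fin 2) (Fin 2) k} {a c c' : Matrix (Fin 1) (Fin 2) k}
    {w w' : Matrix (Fin p) (Fin 2) k} {d d' : Matrix (Fin 2) (Fin 1) k}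
    {th th' : Matrix (Fin 2) (Fin p) k}
    {nu nu' : Matrix (Fin 1) (Fin 1) k} {pi : Matrix (Fin p) (Fin 1) k}
    (hT : MaxR ρ ![JX k 2 1 p, BX N M a c w 0 d nu pi th 0,
      BX N' M' 0 c' w' 0 d' nu' 0 th' 0]) (hpi : pi ≠ 0) (ha : a ≠ 0) : False := by
  obtain ⟨-, r2, r3, -, r5, -, -⟩ := (BX_comm ..).1 (hT.cn.1 1 2)
  simp only [Matrix.mul_zero, Matrix.zero_mul, add_zero, zero_add] at r2 r3 r5
  obtain ⟨ze, hze⟩ := exists_row hpi
  obtain ⟨n, δ, τ, e1, e2⟩ := raise_data ha w' N ze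
  have key : ∀ s : k, CN ![JX k 2 1 p,
      BX N M a c w 0 d nu pi th 0 + s • BX 0 0 0 0 0 0 0 0 0 τ ze,
      BX N' M' 0 c' w' 0 d' nu' 0 th' 0 + s • BX n 0 0 0 0 0 δ 0 0 0 0] := by
    intro s
    rw [BX_smul, BX_smul, BX_add, BX_add]
    refine cnX _ _ _ _ _ _ _ _ _ _ _ _ _ _ _ _ _ _ _ _ _ _ ?_ ?_ ?_ ?_ ?_ ?_ ?_
    · simp
    · have e3 : s • (N * n) + s • (τ * w') = s • (n * N) + s • (δ * a) := by
        rw [← smul_add, e2, smul_add]
      simp only [smul_zero, add_zero, Matrix.mul_zero, Matrix.zero_mul, Matrix.mul_add,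
        Matrix.add_mul, Matrix.smul_mul, Matrix.mul_smul]
      calc N * N' + s • (N * n) + (th * w' + s • (τ * w'))
          = (N * N' + th * w') + (s • (N * n) + s • (τ * w')) := by abel
        _ = (N' * N + d' * a + th' * w) + (s • (n * N) + s • (δ * a)) := by rw [r2, e3]
        _ = N' * N + s • (n * N) + (d' * a + s • (δ * a)) + th' * w := by abel
    · simp [Matrix.mul_add, e1, r3]
    · simp
    · simpa using r5
    · simp
    · simp
  obtain ⟨s, hs, h⟩ := D8.MaxR.line2 hT _ _ key (Set.finite_singleton 0)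
  rw [BX_smul, BX_smul, BX_add, BX_add] at h
  have h2 := R2X h h1 (D8.mem0 _ _ _) (D8.mem1 _ _ _)
  simp only [smul_zero, add_zero, zero_add, Matrix.mul_smul] at h2
  rcases smul_eq_zero.1 h2 with h3 | h3
  · exact hs h3
  · rcases col_row h3 with h4 | h4
    · exact hpi h4
    · rw [h4, Matrix.zero_mul] at hze
      exact zero_ne_one hze

theorem mainC (hI : NoI k ρ p) (h1 : ρ 1 ≤ 2 * 2 + 1)
    {N M N' M' : Matrix (Fin 2) (Fin 2) k} {a c a' c' : Matrix (Fin 1) (Fin 2) k}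
    {w w' : Matrix (Fin p) (Fin 2) k} {d d' : Matrix (Fin 2) (Fin 1) k}
    {th th' : Matrix (Fin 2) (Fin p) k}
    {nu nu' : Matrix (Fin 1) (Fin 1) k} {pi pi' : Matrix (Fin p) (Fin 1) k}
    (hT : MaxR ρ ![JX k 2 1 p, BX N M a c w 0 d nu pi th 0,
      BX N' M' a' c' w' 0 d' nu' pi' th' 0]) (hpi : pi ≠ 0) : False := by
  obtain ⟨-, -, -, r4, -, -, -⟩ := (BX_comm ..).1 (hT.cn.1 1 2)
  by_cases h0 : a = 0
  · subst h0
    rw [Matrix.mul_zero] at r4
    have ha' : a' = 0 := (col_row r4).resolve_left hpi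
    subst ha'
    have h4 := MaxR.dualX hT
    simp only [Matrix.transpose_zero] at h4
    exact hI _ _ _ _ _ _ _ _ _ _ _ _ _ _ _ _ _ _ h4
  · obtain ⟨i, hi⟩ : ∃ i, pi i 0 ≠ 0 := by
      by_contra hc
      push Not at hc
      apply hpi
      ext i j
      rw [Subsingleton.elim j 0]
      exact hc i
    have ea : a' = (pi' i 0 / pi i 0) • a := by
      ext r t
      have h2 := congrFun (congrFun r4 i) t
      rw [Matrix.mul_apply, Matrix.mul_apply, Finset.univ_unique, Finset.sum_singleton,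
        Finset.sum_singleton] at h2
      rw [Subsingleton.elim r default, Matrix.smul_apply, smul_eq_mul, div_mul_eq_mul_div,
        eq_div_iff hi, mul_comm]
      exact h2
    have h := D8.MaxR.lin hT 1 0 (- (pi' i 0 / pi i 0)) 1 0 0 0 0 (by simp)
    rw [one_smul, one_smul, zero_smul, zero_smul, zero_smul, add_zero, add_zero, add_zero,
      add_zero, add_zero, BX_smul, BX_add] at h
    have e3 : - (pi' i 0 / pi i 0) • a + a' = 0 := by
      rw [ea, neg_smul, neg_add_cancel]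
    rw [e3] at h
    simp only [smul_zero, add_zero] at h
    generalize - (pi' i 0 / pi i 0) • pi + pi' = pi'' at h
    obtain ⟨-, -, -, r4', -, -, -⟩ := (BX_comm ..).1 (h.cn.1 1 2)
    rw [Matrix.mul_zero] at r4'
    have hp : pi'' = 0 := (col_row r4'.symm).resolve_right h0
    subst hp
    exact fin_a h1 h hpi h0

theorem mainB (hI : NoI k ρ p) (h1 : ρ 1 ≤ 2 * 2 + 1) (h2 : ρ 2 ≤ 2)
    {N M N' M' : Matrix (Fin 2) (Fin 2) k} {a c a' c' : Matrix (Fin 1) (Fin 2) k}
    {w w' : Matrix (Fin p) (Fin 2) k} {d d' : Matrix (Fin 2) (Fin 1) k}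
    {th th' : Matrix (Fin 2) (Fin p) k} {nu nu' : Matrix (Fin 1) (Fin 1) k}
    {pi pi' : Matrix (Fin p) (Fin 1) k} {et et' : Matrix (Fin 1) (Fin p) k}
    (hT : MaxR ρ ![JX k 2 1 p, BX N M a c w 0 d nu pi th et,
      BX N' M' a' c' w' 0 d' nu' pi' th' et']) : False := by
  have m0 := D8.mem0 (JX k 2 1 p) (BX N M a c w 0 d nu pi th et)
    (BX N' M' a' c' w' 0 d' nu' pi' th' et')
  have m1 := D8.mem1 (JX k 2 1 p) (BX N M a c w 0 d nu pi th et)
    (BX N' M' a' c' w' 0 d' nu' pi' th' et')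
  have m2 := D8.mem2 (JX k 2 1 p) (BX N M a c w 0 d nu pi th et)
    (BX N' M' a' c' w' 0 d' nu' pi' th' et')
  have m3 := add_mem m1 m2
  rw [BX_add] at m3
  have e1 := R2X hT h1 m0 m1
  have e2 := R2X hT h1 m0 m2
  have e3 := R2X hT h1 m0 m3
  by_cases hp : pi = 0
  · by_cases hp' : pi' = 0
    · subst hp hp'
      exact hI _ _ _ _ _ _ _ _ _ _ _ _ _ _ _ _ _ _ hT
    · have h4 : et' = 0 := (col_row e2).resolve_left hp'
      subst h4 hp
      rw [zero_add, add_zero] at e3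
      have h3 : et = 0 := (col_row e3).resolve_left hp'
      subst h3
      exact mainC hI h1 (D8.MaxR.swap hT) hp'
  · have h3 : et = 0 := (col_row e1).resolve_left hp
    subst h3
    have h4 : et' = 0 := by
      by_contra hc
      have hp' : pi' = 0 := (col_row e2).resolve_right hc
      subst hp'
      rw [zero_add, add_zero] at e3
      exact hc ((col_row e3).resolve_left hp)
    subst h4
    exact mainC hI h1 hT hp

end

end X21RedAux

open X21RedAux T3321Aux

theorem no_X21_of_I {k : Type*} [Field k] [IsAlgClosed k] [CharZero k] {p : ℕ} {ρ : ℕ → ℕ}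
    (hI : ρ 3 = 0 → NoI k ρ p) {T : Fin 3 → Matrix (Ix 2 1 p) (Ix 2 1 p) k} (hT : MaxR ρ T)
    (hρ : ∀ i, ρ i = (JX k 2 1 p ^ i).rank) (h0 : T 0 = JX k 2 1 p) : False := by
  have h1 : ρ 1 ≤ 2 * 2 + 1 := by
    rw [hρ, pow_one]
    exact JX_rank
  have h2 : ρ 2 ≤ 2 := by
    rw [hρ]
    exact JX_rank_sq
  have h3 : ρ 3 = 0 := by
    rw [hρ, JX_cube, Matrix.rank_zero]
  obtain ⟨N, M, a, c, w, b, d, nu, pi, th, et, N', M', a', c', w', b', d', nu', pi', th', et',
    h⟩ := shapeX hT hρ h0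
  have m0 := D8.mem0 (JX k 2 1 p) (BX N M a c w b d nu pi th et)
    (BX N' M' a' c' w' b' d' nu' pi' th' et')
  have m1 := D8.mem1 (JX k 2 1 p) (BX N M a c w b d nu pi th et)
    (BX N' M' a' c' w' b' d' nu' pi' th' et')
  have m2 := D8.mem2 (JX k 2 1 p) (BX N M a c w b d nu pi th et)
    (BX N' M' a' c' w' b' d' nu' pi' th' et')
  have e11 := ba0X h h3 m0 m1 m1
  have e12 := ba0X h h3 m0 m1 m2
  have e21 := ba0X h h3 m0 m2 m1
  have e22 := ba0X h h3 m0 m2 m2
  have hd := MaxR.dualX h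
  by_cases hb : b = 0
  · by_cases hb' : b' = 0
    · subst hb hb'
      exact mainB (hI h3) h1 h2 h
    · have g1 : a = 0 := (col_row e21).resolve_left hb'
      have g2 : a' = 0 := (col_row e22).resolve_left hb'
      subst g1 g2
      simp only [Matrix.transpose_zero] at hd
      exact mainB (hI h3) h1 h2 hd
  · have g1 : a = 0 := (col_row e11).resolve_left hb
    have g2 : a' = 0 := (col_row e12).resolve_left hb
    subst g1 g2
    simp only [Matrix.transpose_zero] at hd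
    exact mainB (hI h3) h1 h2 hd

end Pool.Agent.Lib.D10
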