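import Pool.Agent.Lib.D9.Blk

/-!
# MP_5dcbc3_ag: types `(3, 3, 2^u, 1^p)`, case I (`b = pi = 0` for both): injectivity of `w`

`Tr`: the triples of case I with `e = 2`. Hypothesis `Hinj`: there is no maximal bad triple of this
shape (and the given ranks) in which `w` has a nonzero `2 x 2` minor. Then for every maximal bad
triple of this shape there is a nonzero `f` in `E` with `w f = w' f = 0`.

If `w = om ph`, `w' = om ps` with `ph, ps` independent rows, the family `w + s nu ps`,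
`th + s (th' nu) pi`, `et + s (et' nu) pi` with `pi om = 1` makes `w` injective.
-/

namespace Pool.Agent.Lib.D10

open Matrix Pool.Agent.Lib.Q5dc Pool.Agent.Lib.D7 Pool.Agent.Lib.D9

/-- the triples of case I with `e = 2` -/
abbrev Tr {k : Type*} [Field k] {u p : ℕ} (N M : Matrix (Fin 2) (Fin 2) k)
    (a c : Matrix (Fin u) (Fin 2) k) (w : Matrix (Fin p) (Fin 2) k) (d : Matrix (Fin 2) (Fin u) k)
    (nu : Matrix (Fin u) (Fin u) k) (th : Matrix (Fin 2) (Fin p) k) (et : Matrix (Fin u) (Fin p) k)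
    (N' M' : Matrix (Fin 2) (Fin 2) k) (a' c' : Matrix (Fin u) (Fin 2) k)
    (w' : Matrix (Fin p) (Fin 2) k) (d' : Matrix (Fin 2) (Fin u) k)
    (nu' : Matrix (Fin u) (Fin u) k) (th' : Matrix (Fin 2) (Fin p) k)
    (et' : Matrix (Fin u) (Fin p) k) : Fin 3 → Matrix (Ix 2 u p) (Ix 2 u p) k :=
  ![JX k 2 u p, BX N M a c w 0 d nu 0 th et, BX N' M' a' c' w' 0 d' nu' 0 th' et']

/-- `w` is injective -/
def Inj2 {k : Type*} [Field k] {p : ℕ} (w : Matrix (Fin p) (Fin 2) k) : Prop :=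
  ∃ i j, w i 0 * w j 1 - w i 1 * w j 0 ≠ 0

section

variable {k : Type*} [Field k] {u p : ℕ} {ρ : ℕ → ℕ} {N M N' M' : Matrix (Fin 2) (Fin 2) k}
  {a c a' c' : Matrix (Fin u) (Fin 2) k} {w w' : Matrix (Fin p) (Fin 2) k}
  {d d' : Matrix (Fin 2) (Fin u) k} {nu nu' : Matrix (Fin u) (Fin u) k}
  {th th' : Matrix (Fin 2) (Fin p) k} {et et' : Matrix (Fin u) (Fin p) k}

theorem Tr.rel (hT : MaxR ρ (Tr N M a c w d nu th et N' M' a' c' w' d' nu' th' et')) :
    N * N' + d * a' + th * w' = N' * N + d' * a + th' * w ∧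
    a * N' + nu * a' + et * w' = a' * N + nu' * a + et' * w := by
  have h := (BX_comm ..).1 (hT.cn.comm (D8.mem1 _ _ _) (D8.mem2 _ _ _))
  obtain ⟨-, h2, h3, -⟩ := h
  refine ⟨?_, h3⟩
  simpa using h2

theorem Tr.cn (h2 : N * N' + d * a' + th * w' = N' * N + d' * a + th' * w)
    (h3 : a * N' + nu * a' + et * w' = a' * N + nu' * a + et' * w) :
    CN (Tr N M a c w d nu th et N' M' a' c' w' d' nu' th' et') :=
  cnX _ _ _ _ _ _ _ _ _ _ _ _ _ _ _ _ _ _ _ _ _ _ (by simp) (by simpa using h2) h3 (by simp)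
    (by simp) (by simp) (by simp)

/-- linear changes -/
theorem Tr.lin (hT : MaxR ρ (Tr N M a c w d nu th et N' M' a' c' w' d' nu' th' et'))
    (x y z t p q : k) (h : x * t - y * z ≠ 0) :
    MaxR ρ (Tr (x • N + y • N' + p • 1) (x • M + y • M') (x • a + y • a') (x • c + y • c')
      (x • w + y • w') (x • d + y • d') (x • nu + y • nu' + p • 1) (x • th + y • th')
      (x • et + y • et') (z • N + t • N' + q • 1) (z • M + t • M') (z • a + t • a')
      (z • c + t • c') (z • w + t • w') (z • d + t • d') (z • nu + t • nu' + q • 1)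
      (z • th + t • th') (z • et + t • et')) := by
  have h := D8.MaxR.lin hT x y z t p 0 q 0 h
  simp only [zero_smul, add_zero] at h
  rw [JX, BX_smul, BX_smul, BX_smul, BX_smul, BX_smul, BX_smul, BX_add, BX_add, BX_add,
    BX_add] at h
  simp only [smul_zero, add_zero] at h
  exact h

theorem Tr.swap (hT : MaxR ρ (Tr N M a c w d nu th et N' M' a' c' w' d' nu' th' et')) :
    MaxR ρ (Tr N' M' a' c' w' d' nu' th' et' N M a c w d nu th et) := D8.MaxR.swap hT

/-- change of the basis of `E` -/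
theorem Tr.conj (hT : MaxR ρ (Tr N M a c w d nu th et N' M' a' c' w' d' nu' th' et'))
    {g h : Matrix (Fin 2) (Fin 2) k} (hgh : g * h = 1) :
    MaxR ρ (Tr (g * N * h) (g * M * h) (a * h) (c * h) (w * h) (g * d) nu (g * th) et
      (g * N' * h) (g * M' * h) (a' * h) (c' * h) (w' * h) (g * d') nu' (g * th') et') := by
  have h2 := MaxR.conjX g h 1 1 1 1 hT hgh (one_mul 1) (one_mul 1)
  simp only [Matrix.one_mul, Matrix.mul_one, Matrix.mul_zero] at h2
  exact h2

/-- change of the basis of `P` -/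
theorem Tr.conjP (hT : MaxR ρ (Tr N M a c w d nu th et N' M' a' c' w' d' nu' th' et'))
    {l l' : Matrix (Fin p) (Fin p) k} (hl : l * l' = 1) :
    MaxR ρ (Tr N M a c (l * w) d nu (th * l') (et * l') N' M' a' c' (l * w') d' nu' (th' * l')
      (et' * l')) := by
  have h2 := MaxR.conjX 1 1 1 1 l l' hT (one_mul 1) (one_mul 1) hl
  simp only [Matrix.one_mul, Matrix.mul_one, Matrix.mul_zero, Matrix.zero_mul] at h2
  exact h2

/-- there is no maximal bad triple with `w` injective -/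
def NoInj (k : Type*) [Field k] (ρ : ℕ → ℕ) (u p : ℕ) : Prop :=
  ∀ (N M : Matrix (Fin 2) (Fin 2) k) (a c : Matrix (Fin u) (Fin 2) k)
    (w : Matrix (Fin p) (Fin 2) k) (d : Matrix (Fin 2) (Fin u) k) (nu : Matrix (Fin u) (Fin u) k)
    (th : Matrix (Fin 2) (Fin p) k) (et : Matrix (Fin u) (Fin p) k)
    (N' M' : Matrix (Fin 2) (Fin 2) k) (a' c' : Matrix (Fin u) (Fin 2) k)
    (w' : Matrix (Fin p) (Fin 2) k) (d' : Matrix (Fin 2) (Fin u) k)
    (nu' : Matrix (Fin u) (Fin u) k) (th' : Matrix (Fin 2) (Fin p) k)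
    (et' : Matrix (Fin u) (Fin p) k),
    MaxR ρ (Tr N M a c w d nu th et N' M' a' c' w' d' nu' th' et') → Inj2 w → False

/-- no linear combination of `w, w'` is injective -/
theorem X2.lin (Hinj : NoInj k ρ u p)
    (hT : MaxR ρ (Tr N M a c w d nu th et N' M' a' c' w' d' nu' th' et')) (x y : k)
    (hd : Inj2 (x • w + y • w')) : False := by
  have key : ∀ z t : k, x * t - y * z ≠ 0 → False := by
    intro z t h
    exact Hinj _ _ _ _ _ _ _ _ _ _ _ _ _ _ _ _ _ _ (Tr.lin hT x y z t 0 0 h) hd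
  by_cases hx : x = 0
  · by_cases hy : y = 0
    · obtain ⟨i, j, hij⟩ := hd
      apply hij
      rw [hx, hy]
      simp
    · exact key 1 0 (by simpa using hy)
  · exact key 0 1 (by simpa using hx)

theorem X2.minors (Hinj : NoInj k ρ u p)
    (hT : MaxR ρ (Tr N M a c w d nu th et N' M' a' c' w' d' nu' th' et')) (x y : k)
    (i j : Fin p) :
    (x * w i 0 + y * w' i 0) * (x * w j 1 + y * w' j 1) -
      (x * w i 1 + y * w' i 1) * (x * w j 0 + y * w' j 0) = 0 := by
  by_contra h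
  exact X2.lin Hinj hT x y ⟨i, j, by simpa using h⟩

/-- common image of `w, w'` -/
theorem X2.common [Infinite k] (Hinj : NoInj k ρ u p) (hp : 2 ≤ p) {om : Fin p → k}
    {ph ps : Fin 2 → k}
    (hT : MaxR ρ (Tr N M a c (vecMulVec om ph) d nu th et N' M' a' c' (vecMulVec om ps) d' nu'
      th' et')) (i : Fin p) (hom : om i = 1) (hi : ph 0 * ps 1 - ph 1 * ps 0 ≠ 0) : False := by
  haveI : Nontrivial (Fin p) := Fin.nontrivial_iff_two_le.2 hp
  obtain ⟨j, hj⟩ := exists_ne i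
  obtain ⟨nv, hnv⟩ : ∃ nv : Fin p → k, nv = Pi.single j 1 := ⟨_, rfl⟩
  obtain ⟨pv, hpv⟩ : ∃ pv : Fin p → k, pv = Pi.single i 1 := ⟨_, rfl⟩
  have h1 : pv ⬝ᵥ om = 1 := by rw [hpv, single_one_dotProduct, hom]
  obtain ⟨r2, r3⟩ := Tr.rel hT
  obtain ⟨s, hs, h4⟩ := D8.MaxR.line2 hT
    (BX 0 0 0 0 (vecMulVec nv ps) 0 0 0 0 (vecMulVec (th' *ᵥ nv) pv)
      (vecMulVec (et' *ᵥ nv) pv)) (BX 0 0 0 0 0 0 0 0 0 0 0) (fun s => by
      rw [BX_smul, BX_add, BX_smul, BX_add]
      simp only [smul_zero, add_zero]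
      refine Tr.cn ?_ ?_
      · have e1 : (s • vecMulVec (th' *ᵥ nv) pv) * vecMulVec om ps =
            th' * (s • vecMulVec nv ps) := by
          rw [Matrix.smul_mul, Matrix.mul_smul, Matrix.vecMulVec_mul_vecMulVec, h1,
            Matrix.mul_vecMulVec, one_smul]
        rw [Matrix.add_mul, Matrix.mul_add th', e1, ← add_assoc, r2, add_assoc]
      · have e1 : (s • vecMulVec (et' *ᵥ nv) pv) * vecMulVec om ps =
            et' * (s • vecMulVec nv ps) := by
          rw [Matrix.smul_mul, Matrix.mul_smul, Matrix.vecMulVec_mul_vecMulVec, h1,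
            Matrix.mul_vecMulVec, one_smul]
        rw [Matrix.add_mul, Matrix.mul_add et', e1, ← add_assoc, r3, add_assoc])
      (Set.finite_singleton (0 : k))
  rw [BX_smul, BX_add, BX_smul, BX_add] at h4
  simp only [smul_zero, add_zero] at h4
  refine Hinj _ _ _ _ _ _ _ _ _ _ _ _ _ _ _ _ _ _ h4 ⟨i, j, ?_⟩
  have e5 : (vecMulVec om ph + s • vecMulVec nv ps) i 0 *
      (vecMulVec om ph + s • vecMulVec nv ps) j 1 -
      (vecMulVec om ph + s • vecMulVec nv ps) i 1 *
      (vecMulVec om ph + s • vecMulVec nv ps) j 0 = s * (ph 0 * ps 1 - ph 1 * ps 0) := by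
    have e6 : nv i = 0 := by rw [hnv, Pi.single_eq_of_ne hj.symm]
    have e7 : nv j = 1 := by rw [hnv, Pi.single_eq_same]
    simp only [Matrix.add_apply, Matrix.smul_apply, vecMulVec_apply, smul_eq_mul, e6, e7, hom]
    ring
  rw [e5]
  exact mul_ne_zero hs hi

/-- `(w, w')` jointly injective -/
theorem X2.joint [Infinite k] (Hinj : NoInj k ρ u p) (hp : 2 ≤ p)
    (hT : MaxR ρ (Tr N M a c w d nu th et N' M' a' c' w' d' nu' th' et')) (i j : Fin p)
    (hm : w i 0 * w' j 1 - w i 1 * w' j 0 ≠ 0) : False := by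
  have e1 : ∀ l l' : Fin p, w l 0 * w l' 1 = w l 1 * w l' 0 := by
    intro l l'
    have h := X2.minors Hinj hT 1 0 l l'
    linear_combination h
  have e2 : ∀ l l' : Fin p, w' l 0 * w' l' 1 = w' l 1 * w' l' 0 := by
    intro l l'
    have h := X2.minors Hinj hT 0 1 l l'
    linear_combination h
  have e4 : ∀ l l' : Fin p, w l 0 * w' l' 1 + w' l 0 * w l' 1 - w l 1 * w' l' 0 -
      w' l 1 * w l' 0 = 0 := by
    intro l l'
    have h := X2.minors Hinj hT 1 1 l l'
    linear_combination h - e1 l l' - e2 l l'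
  obtain ⟨m, hmd⟩ : ∃ m, m = w i 0 * w' j 1 - w i 1 * w' j 0 := ⟨_, rfl⟩
  rw [← hmd] at hm
  obtain ⟨om, hom⟩ : ∃ om : Fin p → k, ∀ l, om l = (w l 0 * w' j 1 - w l 1 * w' j 0) / m :=
    ⟨fun l => (w l 0 * w' j 1 - w l 1 * w' j 0) / m, fun l => rfl⟩
  obtain ⟨om', hom'⟩ : ∃ om' : Fin p → k, ∀ l, om' l = (w i 0 * w' l 1 - w i 1 * w' l 0) / m :=
    ⟨fun l => (w i 0 * w' l 1 - w i 1 * w' l 0) / m, fun l => rfl⟩
  have hi : om i = 1 := by rw [hom, ← hmd, div_self hm]
  have hj : om' j = 1 := by rw [hom', ← hmd, div_self hm]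
  have hW : ∀ l (c : Fin 2), w l c = om l * w i c := by
    intro l c
    rw [hom, div_mul_eq_mul_div, eq_div_iff hm, hmd]
    have h := e1 l i
    fin_cases c
    · show w l 0 * (w i 0 * w' j 1 - w i 1 * w' j 0) = (w l 0 * w' j 1 - w l 1 * w' j 0) * w i 0
      linear_combination -w' j 0 * h
    · show w l 1 * (w i 0 * w' j 1 - w i 1 * w' j 0) = (w l 0 * w' j 1 - w l 1 * w' j 0) * w i 1
      linear_combination -w' j 1 * h
  have hW' : ∀ l (c : Fin 2), w' l c = om' l * w' j c := by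
    intro l c
    rw [hom', div_mul_eq_mul_div, eq_div_iff hm, hmd]
    have h := e2 l j
    fin_cases c
    · show w' l 0 * (w i 0 * w' j 1 - w i 1 * w' j 0) =
        (w i 0 * w' l 1 - w i 1 * w' l 0) * w' j 0
      linear_combination w i 0 * h
    · show w' l 1 * (w i 0 * w' j 1 - w i 1 * w' j 0) =
        (w i 0 * w' l 1 - w i 1 * w' l 0) * w' j 1
      linear_combination w i 1 * h
  have hpar : ∀ l l', om l * om' l' = om l' * om' l := by
    intro l l'
    have h : (om l * om' l' - om l' * om' l) * m = 0 := by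
      have h := e4 l l'
      rw [hW l 0, hW l 1, hW l' 0, hW l' 1, hW' l 0, hW' l 1, hW' l' 0, hW' l' 1] at h
      rw [hmd]
      linear_combination h
    exact sub_eq_zero.1 ((mul_eq_zero.1 h).resolve_right hm)
  have hc : ∀ l, om' l = om' i * om l := by
    intro l
    have h := hpar i l
    rw [hi, one_mul] at h
    rw [h, mul_comm]
  have hci : om' i ≠ 0 := by
    intro h
    have h1 := hc j
    rw [hj, h, zero_mul] at h1
    exact one_ne_zero h1
  have f1 : w = vecMulVec om (w i) := by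
    ext l c
    rw [vecMulVec_apply, ← hW]
  have f2 : w' = vecMulVec om (om' i • w' j) := by
    ext l c
    rw [vecMulVec_apply, Pi.smul_apply, smul_eq_mul, hW' l c, hc l]
    ring
  have e : w i 0 * (om' i • w' j) 1 - w i 1 * (om' i • w' j) 0 = om' i * m := by
    rw [hmd, Pi.smul_apply, Pi.smul_apply, smul_eq_mul, smul_eq_mul]
    ring
  rw [f1, f2] at hT
  refine X2.common Hinj hp hT i hi ?_
  rw [e]
  exact mul_ne_zero hci hm

/-- the second column of `(w, w')` after a change of the basis of `E` -/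
theorem X2.notinj [Infinite k] (Hinj : NoInj k ρ u p) (hp : 2 ≤ p)
    (hT : MaxR ρ (Tr N M a c w d nu th et N' M' a' c' w' d' nu' th' et')) :
    ∃ f : Fin 2 → k, f ≠ 0 ∧ w *ᵥ f = 0 ∧ w' *ᵥ f = 0 := by
  have e1 : ∀ l l' : Fin p, w l 0 * w l' 1 = w l 1 * w l' 0 := by
    intro l l'
    have h := X2.minors Hinj hT 1 0 l l'
    linear_combination h
  have e2 : ∀ l l' : Fin p, w' l 0 * w' l' 1 = w' l 1 * w' l' 0 := by
    intro l l'
    have h := X2.minors Hinj hT 0 1 l l'
    linear_combination h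
  have e3 : ∀ i j : Fin p, w i 0 * w' j 1 = w i 1 * w' j 0 := by
    intro i j
    by_contra h
    exact X2.joint Hinj hp hT i j (sub_ne_zero.2 h)
  have key : ∀ a b : k, (a ≠ 0 ∨ b ≠ 0) → (∀ l, w l 0 * b = w l 1 * a) →
      (∀ l, w' l 0 * b = w' l 1 * a) →
      ∃ f : Fin 2 → k, f ≠ 0 ∧ w *ᵥ f = 0 ∧ w' *ᵥ f = 0 := by
    intro a b hab h1 h2
    refine ⟨![b, -a], ?_, ?_, ?_⟩
    · intro h
      have g0 := congrFun h 0
      have g1 := congrFun h 1
      simp at g0 g1
      rcases hab with h | h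
      · exact h g1
      · exact h g0
    · ext l
      simp [Matrix.mulVec, dotProduct, Fin.sum_univ_two]
      linear_combination h1 l
    · ext l
      simp [Matrix.mulVec, dotProduct, Fin.sum_univ_two]
      linear_combination h2 l
  by_cases hw : ∃ i c, w i c ≠ 0
  · obtain ⟨i, c, hic⟩ := hw
    refine key (w i 0) (w i 1) ?_ (fun l => e1 l i) (fun l => ?_)
    · fin_cases c
      · exact Or.inl hic
      · exact Or.inr hic
    · linear_combination -e3 i l
  by_cases hw' : ∃ i c, w' i c ≠ 0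
  · obtain ⟨i, c, hic⟩ := hw'
    refine key (w' i 0) (w' i 1) ?_ (fun l => e3 l i) (fun l => e2 l i)
    fin_cases c
    · exact Or.inl hic
    · exact Or.inr hic
  push Not at hw hw'
  exact key 1 0 (Or.inl one_ne_zero) (fun l => by rw [hw, hw]; ring)
    (fun l => by rw [hw', hw']; ring)

/-- after a change of the basis of `E` the second columns of `w, w'` vanish -/
theorem X2.basis [Infinite k] (Hinj : NoInj k ρ u p) (hp : 2 ≤ p)
    (hT : MaxR ρ (Tr N M a c w d nu th et N' M' a' c' w' d' nu' th' et')) :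
    ∃ (N M : Matrix (Fin 2) (Fin 2) k) (a c : Matrix (Fin u) (Fin 2) k)
    (w1 : Matrix (Fin p) (Fin 2) k) (d : Matrix (Fin 2) (Fin u) k)
    (th : Matrix (Fin 2) (Fin p) k)
    (N' M' : Matrix (Fin 2) (Fin 2) k) (a' c' : Matrix (Fin u) (Fin 2) k)
    (w1' : Matrix (Fin p) (Fin 2) k) (d' : Matrix (Fin 2) (Fin u) k)
    (th' : Matrix (Fin 2) (Fin p) k),
    MaxR ρ (Tr N M a c w1 d nu th et N' M' a' c' w1' d' nu' th' et') ∧
      (∀ i, w1 i 1 = 0) ∧ (∀ i, w1' i 1 = 0) ∧ (w ≠ 0 → w1 ≠ 0) ∧ (w' ≠ 0 → w1' ≠ 0) := by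
  obtain ⟨f, hf, h1, h2⟩ := X2.notinj Hinj hp hT
  obtain ⟨g, h, hgh, hhf⟩ : ∃ g h : Matrix (Fin 2) (Fin 2) k, g * h = 1 ∧
      ∀ i, h i 1 = f i := by
    by_cases h0 : f 1 = 0
    · have h1 : f 0 ≠ 0 := by
        intro h2
        apply hf
        funext i
        fin_cases i
        exacts [h2, h0]
      refine ⟨!![0, 1; (f 0)⁻¹, 0], !![0, f 0; 1, 0], ?_, ?_⟩
      · ext i j
        fin_cases i <;> fin_cases j <;> simp [Matrix.mul_apply, Fin.sum_univ_two, h1]
      · intro i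
        fin_cases i <;> simp [h0]
    · refine ⟨!![1, -(f 0) * (f 1)⁻¹; 0, (f 1)⁻¹], !![1, f 0; 0, f 1], ?_, ?_⟩
      · ext i j
        fin_cases i <;> fin_cases j <;> simp [Matrix.mul_apply, Fin.sum_univ_two, h0]
      · intro i
        fin_cases i <;> simp
  have hhg : h * g = 1 := mul_eq_one_comm.1 hgh
  refine ⟨_, _, _, _, w * h, _, _, _, _, _, _, w' * h, _, _, Tr.conj hT hgh, ?_, ?_, ?_, ?_⟩
  · intro i
    have h3 := congrFun h1 i
    rw [Matrix.mulVec, dotProduct, Fin.sum_univ_two] at h3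
    rw [Matrix.mul_apply, Fin.sum_univ_two, hhf, hhf]
    exact h3
  · intro i
    have h3 := congrFun h2 i
    rw [Matrix.mulVec, dotProduct, Fin.sum_univ_two] at h3
    rw [Matrix.mul_apply, Fin.sum_univ_two, hhf, hhf]
    exact h3
  · intro h3 h4
    apply h3
    rw [← Matrix.mul_one w, ← hhg, ← Matrix.mul_assoc, h4, Matrix.zero_mul]
  · intro h3 h4
    apply h3
    rw [← Matrix.mul_one w', ← hhg, ← Matrix.mul_assoc, h4, Matrix.zero_mul]

end

end Pool.Agent.Lib.D10
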