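import Pool.Agent.Lib.D10.ClBasis
import Pool.Agent.Lib.D10.X2W

/-!
# MP_5dcbc3_ag: types `(3, 3, 2^u, 1^p)`, `u + p = 3`, case I: the normal form is `TR (2 + u)`

`f, g` = a basis of `E` with `C f = B g` modulo `E_2 + U_1`, the vectors `C f, C g, B f` are
independent modulo `E_1 + E_2 + U_1`, and `C : E_1 + U_0 + P -> E_2 + U_1` is onto.
-/

namespace Pool.Agent.Lib.D10

open Matrix Pool.Agent.Lib.Q5dc Pool.Agent.Lib.D7 Pool.Agent.Lib.D9

section Vec

variable {k : Type*} [Field k] {e u p : ℕ}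

/-- the vector with components in `E_0, E_1, E_2, U_0, U_1, P` -/
def vX (x0 x1 x2 : Fin e → k) (u0 u1 : Fin u → k) (y : Fin p → k) : Ix e u p → k :=
  fun i => match i with
  | .inl (.inl i) => x0 i
  | .inl (.inr (.inl i)) => x1 i
  | .inl (.inr (.inr i)) => x2 i
  | .inr (.inl (.inl i)) => u0 i
  | .inr (.inl (.inr i)) => u1 i
  | .inr (.inr i) => y i

variable (x0 x1 x2 x0' x1' x2' : Fin e → k) (u0 u1 u0' u1' : Fin u → k) (y y' : Fin p → k)

theorem vX_add : (vX x0 x1 x2 u0 u1 y : Ix e u p → k) + vX x0' x1' x2' u0' u1' y' =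
    vX (x0 + x0') (x1 + x1') (x2 + x2') (u0 + u0') (u1 + u1') (y + y') := by
  funext i
  rcases i with (i | i | i) | ((i | i) | i) <;> rfl

theorem vX_smul (s : k) : s • (vX x0 x1 x2 u0 u1 y : Ix e u p → k) =
    vX (s • x0) (s • x1) (s • x2) (s • u0) (s • u1) (s • y) := by
  funext i
  rcases i with (i | i | i) | ((i | i) | i) <;> rfl

theorem vX_eq_zero (h : (vX x0 x1 x2 u0 u1 y : Ix e u p → k) = 0) :
    x0 = 0 ∧ x1 = 0 ∧ x2 = 0 ∧ u0 = 0 ∧ u1 = 0 ∧ y = 0 :=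
  ⟨funext fun i => congrFun h (.inl (.inl i)), funext fun i => congrFun h (.inl (.inr (.inl i))),
    funext fun i => congrFun h (.inl (.inr (.inr i))),
    funext fun i => congrFun h (.inr (.inl (.inl i))),
    funext fun i => congrFun h (.inr (.inl (.inr i))), funext fun i => congrFun h (.inr (.inr i))⟩

theorem vX_zero : (vX 0 0 0 0 0 0 : Ix e u p → k) = 0 := by
  funext i
  rcases i with (i | i | i) | ((i | i) | i) <;> rfl

variable (N M : Matrix (Fin e) (Fin e) k) (a c : Matrix (Fin u) (Fin e) k)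
  (w : Matrix (Fin p) (Fin e) k) (d : Matrix (Fin e) (Fin u) k) (nu : Matrix (Fin u) (Fin u) k)
  (th : Matrix (Fin e) (Fin p) k) (et : Matrix (Fin u) (Fin p) k)

theorem BX_vX : BX N M a c w 0 d nu 0 th et *ᵥ vX x0 x1 x2 u0 u1 y =
    vX 0 (N *ᵥ x0) (M *ᵥ x0 + N *ᵥ x1 + d *ᵥ u0 + th *ᵥ y) (a *ᵥ x0)
      (c *ᵥ x0 + a *ᵥ x1 + nu *ᵥ u0 + et *ᵥ y) (w *ᵥ x0) := by
  funext i
  rcases i with (i | i | i) | ((i | i) | i) <;>
    simp [BX, vX, Matrix.mulVec, dotProduct, Fintype.sum_sum_type, add_assoc]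

theorem JX_vX : JX k e u p *ᵥ vX x0 x1 x2 u0 u1 y = vX 0 x0 x1 0 u0 0 := by
  rw [JX, BX_vX]
  simp

end Vec

section Sum

variable {k : Type*} [Field k] {u p : ℕ}

/-- the basis of `E_2 + U_1` -/
def e3 (k : Type*) [Field k] (e u p : ℕ) (m : Fin (e + u)) : Ix e u p → k :=
  match finSumFinEquiv.symm m with
  | .inl i => vX 0 0 (Pi.single i 1) 0 0 0
  | .inr i => vX 0 0 0 0 (Pi.single i 1) 0

theorem sum_e3 {e : ℕ} (g : Fin (e + u) → k) : ∑ m, g m • e3 k e u p m =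
    vX 0 0 (fun i => g (finSumFinEquiv (.inl i))) 0 (fun i => g (finSumFinEquiv (.inr i))) 0 := by
  rw [← Equiv.sum_comp finSumFinEquiv]
  simp only [e3, Equiv.symm_apply_apply, Fintype.sum_sum_type]
  funext i
  rcases i with (i | i | i) | ((i | i) | i) <;>
    simp [vX, Finset.sum_apply, Pi.single_apply]

end Sum

theorem cl_TR_X {k : Type*} [Field k] {u p : ℕ} (hup : u + p = 3)
    (hcl : ∀ R : Fin 9 × Fin (2 + u) → k, Cl (TR (2 + u) R))
    {N M N' M' : Matrix (Fin 2) (Fin 2) k} {a c a' c' : Matrix (Fin u) (Fin 2) k}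
    {w w' : Matrix (Fin p) (Fin 2) k} {d d' : Matrix (Fin 2) (Fin u) k}
    {nu nu' : Matrix (Fin u) (Fin u) k} {th th' : Matrix (Fin 2) (Fin p) k}
    {et et' : Matrix (Fin u) (Fin p) k}
    (hT : CN (Tr N M a c w d nu th et N' M' a' c' w' d' nu' th' et')) (f g : Fin 2 → k)
    (hfg : f 0 * g 1 - f 1 * g 0 ≠ 0) (h1 : N' *ᵥ f = N *ᵥ g) (h2 : a' *ᵥ f = a *ᵥ g)
    (h3 : w' *ᵥ f = w *ᵥ g)
    (hG : ∀ x y z : k, x • (a' *ᵥ f) + y • (a' *ᵥ g) + z • (a *ᵥ f) = 0 →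
      x • (w' *ᵥ f) + y • (w' *ᵥ g) + z • (w *ᵥ f) = 0 → x = 0 ∧ y = 0 ∧ z = 0)
    (hs : ∀ (s : Fin 2 → k) (t : Fin u → k), ∃ (x : Fin 2 → k) (v : Fin u → k) (y : Fin p → k),
      N' *ᵥ x + d' *ᵥ v + th' *ᵥ y = s ∧ a' *ᵥ x + nu' *ᵥ v + et' *ᵥ y = t) :
    Cl (Tr N M a c w d nu th et N' M' a' c' w' d' nu' th' et') := by
  obtain ⟨x, v, y, hs1, hs2⟩ := hs (M *ᵥ g - M' *ᵥ f) (c *ᵥ g - c' *ᵥ f)
  have hab : ∀ a b : k, a • f + b • g = 0 → a = 0 ∧ b = 0 := by
    intro a b h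
    have e0 := congrFun h 0
    have e1 := congrFun h 1
    simp only [Pi.add_apply, Pi.smul_apply, smul_eq_mul, Pi.zero_apply] at e0 e1
    constructor
    · refine (mul_eq_zero.1 (?_ : a * _ = 0)).resolve_right hfg
      linear_combination g 1 * e0 - g 0 * e1
    · refine (mul_eq_zero.1 (?_ : b * _ = 0)).resolve_right hfg
      linear_combination f 0 * e1 - f 1 * e0
  set A := JX k 2 u p with hA
  set B := (BX N M a c w 0 d nu 0 th et : Matrix (Ix 2 u p) (Ix 2 u p) k) with hB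
  set C := (BX N' M' a' c' w' 0 d' nu' 0 th' et' : Matrix (Ix 2 u p) (Ix 2 u p) k) with hC
  have hAB : A * B = B * A := hT.1 0 1
  have hAC : A * C = C * A := hT.1 0 2
  have hBC : B * C = C * B := hT.1 1 2
  have key : Cl ![A, C, B] := by
    refine cl_of_TR hcl ?_ hAC hAB hBC.symm (v0 := vX f x 0 v 0 y) (v1 := vX g 0 0 0 0 0) ?_
      (e3 k 2 u p) ?_ ?_ ?_ ?_ ?_
    · simp only [Fintype.card_sum, Fintype.card_fin]
      omega
    · rw [hC, hB, BX_vX, BX_vX, h1, h2, h3]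
      have e1 : M' *ᵥ f + N' *ᵥ x + d' *ᵥ v + th' *ᵥ y = M *ᵥ g := by
        rw [add_assoc, add_assoc, ← add_assoc (N' *ᵥ x), hs1]
        abel
      have e2 : c' *ᵥ f + a' *ᵥ x + nu' *ᵥ v + et' *ᵥ y = c *ᵥ g := by
        rw [add_assoc, add_assoc, ← add_assoc (a' *ᵥ x), hs2]
        abel
      rw [e1, e2]
      simp
    · intro m
      rw [e3, hA]
      rcases finSumFinEquiv.symm m with i | i
      · exact (JX_vX ..).trans vX_zero
      · exact (JX_vX ..).trans vX_zero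
    · intro m
      rw [e3, hC]
      rcases finSumFinEquiv.symm m with i | i <;>
      · show BX N' M' a' c' w' 0 d' nu' 0 th' et' *ᵥ vX _ _ _ _ _ _ = 0
        rw [BX_vX]
        simp [vX_zero]
    · intro m
      rw [e3, hB]
      rcases finSumFinEquiv.symm m with i | i <;>
      · show BX N M a c w 0 d nu 0 th et *ᵥ vX _ _ _ _ _ _ = 0
        rw [BX_vX]
        simp [vX_zero]
    · -- the nine products
      have hr : ∀ (q : Ix 2 u p → k) (s : Fin 2 → k) (t : Fin u → k), q = vX 0 0 s 0 t 0 →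
          ∃ r : Fin (2 + u) → k, q = ∑ m, r m • e3 k 2 u p m := by
        intro q s t hq
        refine ⟨fun m => Sum.elim s t (finSumFinEquiv.symm m), ?_⟩
        rw [sum_e3, hq]
        congr 1
        · funext i
          simp
        · funext i
          simp
      have hAA : ∀ x0 x1 x2 u0 u1 y0, ∃ s t, A *ᵥ (A *ᵥ (vX x0 x1 x2 u0 u1 y0 : Ix 2 u p → k)) =
          vX 0 0 s 0 t 0 := fun x0 x1 x2 u0 u1 y0 => ⟨_, _, by rw [hA, JX_vX, JX_vX]⟩
      have hAX : ∀ (N M : Matrix (Fin 2) (Fin 2) k) (a c : Matrix (Fin u) (Fin 2) k)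
          (w : Matrix (Fin p) (Fin 2) k) (d : Matrix (Fin 2) (Fin u) k)
          (nu : Matrix (Fin u) (Fin u) k) (th : Matrix (Fin 2) (Fin p) k)
          (et : Matrix (Fin u) (Fin p) k) x0 x1 x2 u0 u1 y0, ∃ s t,
          A *ᵥ (BX N M a c w 0 d nu 0 th et *ᵥ (vX x0 x1 x2 u0 u1 y0 : Ix 2 u p → k)) =
          vX 0 0 s 0 t 0 := fun N M a c w d nu th et x0 x1 x2 u0 u1 y0 =>
            ⟨_, _, by rw [hA, BX_vX, JX_vX]⟩
      have hXY : ∀ (N M : Matrix (Fin 2) (Fin 2) k) (a c : Matrix (Fin u) (Fin 2) k)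
          (w : Matrix (Fin p) (Fin 2) k) (d : Matrix (Fin 2) (Fin u) k)
          (nu : Matrix (Fin u) (Fin u) k) (th : Matrix (Fin 2) (Fin p) k)
          (et : Matrix (Fin u) (Fin p) k)
          (N' M' : Matrix (Fin 2) (Fin 2) k) (a' c' : Matrix (Fin u) (Fin 2) k)
          (w' : Matrix (Fin p) (Fin 2) k) (d' : Matrix (Fin 2) (Fin u) k)
          (nu' : Matrix (Fin u) (Fin u) k) (th' : Matrix (Fin 2) (Fin p) k)
          (et' : Matrix (Fin u) (Fin p) k) x0 x1 x2 u0 u1 y0, ∃ s t,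
          BX N M a c w 0 d nu 0 th et *ᵥ (BX N' M' a' c' w' 0 d' nu' 0 th' et' *ᵥ
            (vX x0 x1 x2 u0 u1 y0 : Ix 2 u p → k)) = vX 0 0 s 0 t 0 :=
        fun N M a c w d nu th et N' M' a' c' w' d' nu' th' et' x0 x1 x2 u0 u1 y0 =>
          ⟨N *ᵥ (N' *ᵥ x0) + d *ᵥ (a' *ᵥ x0) + th *ᵥ (w' *ᵥ x0),
            a *ᵥ (N' *ᵥ x0) + nu *ᵥ (a' *ᵥ x0) + et *ᵥ (w' *ᵥ x0), by
            rw [BX_vX, BX_vX]; simp only [Matrix.mulVec_zero, zero_add]⟩
      intro j
      fin_cases j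
      · obtain ⟨s, t, h⟩ := hAA f x 0 v 0 y
        exact hr _ s t h
      · obtain ⟨s, t, h⟩ := hAA g 0 0 0 0 0
        exact hr _ s t h
      · obtain ⟨s, t, h⟩ := hAX N' M' a' c' w' d' nu' th' et' f x 0 v 0 y
        exact hr _ s t h
      · obtain ⟨s, t, h⟩ := hAX N' M' a' c' w' d' nu' th' et' g 0 0 0 0 0
        exact hr _ s t h
      · obtain ⟨s, t, h⟩ := hAX N M a c w d nu th et f x 0 v 0 y
        exact hr _ s t h
      · obtain ⟨s, t, h⟩ := hXY N' M' a' c' w' d' nu' th' et' N' M' a' c' w' d' nu' th' et'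
          f x 0 v 0 y
        exact hr _ s t h
      · obtain ⟨s, t, h⟩ := hXY N' M' a' c' w' d' nu' th' et' N' M' a' c' w' d' nu' th' et'
          g 0 0 0 0 0
        exact hr _ s t h
      · obtain ⟨s, t, h⟩ := hXY N' M' a' c' w' d' nu' th' et' N M a c w d nu th et
          f x 0 v 0 y
        exact hr _ s t h
      · obtain ⟨s, t, h⟩ := hXY N M a c w d nu th et N M a c w d nu th et f x 0 v 0 y
        exact hr _ s t h
    · -- the basis
      intro al be ga h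
      rw [sum_e3, Fin.sum_univ_five] at h
      simp only [fv, Matrix.cons_val_zero, Matrix.cons_val_one, Matrix.cons_val] at h
      rw [hA, hB, hC, JX_vX, JX_vX, BX_vX, BX_vX, BX_vX] at h
      simp only [vX_smul, vX_add] at h
      obtain ⟨z0, z1, z2, z3, z4, z5⟩ := vX_eq_zero _ _ _ _ _ _ h
      simp only [smul_zero, add_zero, zero_add, Matrix.mulVec_zero] at z0 z1 z2 z3 z4 z5
      obtain ⟨a0, a1⟩ := hab _ _ z0
      simp only [a0, a1, zero_smul, zero_add] at z1 z2 z3 z4 z5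
      obtain ⟨b2, b3, b4⟩ := hG _ _ _ z3 z5
      simp only [b2, b3, b4, zero_smul, add_zero] at z1 z2 z4
      obtain ⟨b0, b1⟩ := hab _ _ z1
      simp only [b0, b1, zero_smul, zero_add] at z2 z4
      refine ⟨?_, ?_, ?_⟩
      · funext i
        fin_cases i
        exacts [a0, a1]
      · funext i
        fin_cases i
        exacts [b0, b1, b2, b3, b4]
      · funext m
        obtain ⟨q, rfl⟩ := finSumFinEquiv.surjective m
        rcases q with i | i
        · exact congrFun z2 i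
        · exact congrFun z4 i
  refine cl_of_adj (T' := ![A, C, B]) (fun i => ?_) key
  fin_cases i
  exacts [D8.mem0 _ _ _, D8.mem2 _ _ _, D8.mem1 _ _ _]

end Pool.Agent.Lib.D10
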