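import Pool.Agent.Lib.D10.X212W
import Pool.Agent.Lib.D10.XTR
import Pool.Agent.Lib.D10.X21G
import Pool.Agent.Lib.D10.X21Red

/-!
# MP_5dcbc3_ag: type `(3, 3, 2, 1, 1)`: no maximal bad triple, if all `TR 3 R` are in the closure

Case I, `w = 1` (`P = E = k^2`): everything except `th', et'` is free. Generic point:
`q = a' - a w'`, `f` with `q f = 0`, `g = w' f` is a basis of `E` with `f`; then `C f = B g` modulo
`A E_0` and `E_2 + U_1`, and after subtracting multiples of `A` the triple is `TR 3`.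
-/

namespace Pool.Agent.Lib.D10

open Matrix Pool.Agent.Lib.Q5dc Pool.Agent.Lib.D7 Pool.Agent.Lib.D9

namespace X212Aux

open N33111Aux

variable {k : Type*} [Field k] {ρ : ℕ → ℕ} {N M N' M' : Matrix (Fin 2) (Fin 2) k}
  {a c a' c' : Matrix (Fin 1) (Fin 2) k} {w w' : Matrix (Fin 2) (Fin 2) k}
  {d d' : Matrix (Fin 2) (Fin 1) k} {nu nu' : Matrix (Fin 1) (Fin 1) k}
  {th th' : Matrix (Fin 2) (Fin 2) k} {et et' : Matrix (Fin 1) (Fin 2) k}

/-- `f` -/
def ff (a a' : Matrix (Fin 1) (Fin 2) k) (w' : Matrix (Fin 2) (Fin 2) k) :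
    Matrix (Fin 2) (Fin 1) k :=
  (!![0, 1; -1, 0] : Matrix (Fin 2) (Fin 2) k) * (a' - a * w')ᵀ

/-- the polynomial `det (f, g)` -/
def De (f g : Matrix (Fin 2) (Fin 1) k) : k := f 0 0 * g 1 0 - f 1 0 * g 0 0

/-- `x = (x : f) f + (x : g) g` -/
theorem decomp (f g x : Matrix (Fin 2) (Fin 1) k) (h : De f g ≠ 0) :
    x = (De x g / De f g) • f + (De f x / De f g) • g := by
  ext i j
  rw [Subsingleton.elim j 0, Matrix.add_apply, Matrix.smul_apply, Matrix.smul_apply, smul_eq_mul,
    smul_eq_mul, div_mul_eq_mul_div, div_mul_eq_mul_div, ← add_div, eq_div_iff h]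
  simp only [De]
  fin_cases i
  · show x 0 0 * _ = _ * f 0 0 + _ * g 0 0
    ring
  · show x 1 0 * _ = _ * f 1 0 + _ * g 1 0
    ring

/-- the matrix whose determinant has to be nonzero -/
def Sm (D H : k) (th' : Matrix (Fin 2) (Fin 2) k) (et' : Matrix (Fin 1) (Fin 2) k)
    (d' : Matrix (Fin 2) (Fin 1) k) (nu' : Matrix (Fin 1) (Fin 1) k) :
    Matrix (Fin 2 ⊕ Fin 1) (Fin 2 ⊕ Fin 1) k :=
  fromBlocks th' (D • d') et' (D • nu' - H • 1)

theorem gen (hcl : ∀ R : Fin 9 × Fin 3 → k, Cl (TR 3 R))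
    (hT : MaxR ρ (Tr N M a c 1 d nu th et N' M' a' c' w' d' nu' th' et'))
    (hD : De (ff a a' w') (w' * ff a a' w') ≠ 0)
    (hS : (Sm (De (ff a a' w') (w' * ff a a' w'))
      (De (N' * ff a a' w' - N * (w' * ff a a' w')) (w' * ff a a' w')) th' et' d' nu').det ≠ 0) :
    False := by
  set f := ff a a' w' with hf
  set g := w' * f with hg
  set D := De f g with hDd
  set H := De (N' * f - N * g) g with hH
  have hdec := decomp f g (N' * f - N * g) hD
  rw [← hDd, ← hH] at hdec
  set h1 := H / D with hh1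
  set h2 := De f (N' * f - N * g) / D with hh2
  have hL := Tr.lin hT 1 0 0 1 h2 (-h1) (by simp)
  simp only [one_smul, zero_smul, zero_add, add_zero] at hL
  have hqf : (a' - a * w') * f = 0 := by
    rw [hf, ff]
    ext i j
    rw [Subsingleton.elim i 0, Subsingleton.elim j 0]
    generalize a' - a * w' = q
    simp only [Matrix.mul_apply, Fin.sum_univ_two, Matrix.transpose_apply, Matrix.zero_apply,
      Matrix.of_apply, Matrix.cons_val', Matrix.cons_val_zero, Matrix.cons_val_one,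
      Matrix.cons_val_fin_one]
    ring
  have haf : a' * f = a * g := by
    rw [Matrix.sub_mul, Matrix.mul_assoc] at hqf
    exact sub_eq_zero.1 hqf
  have hqg : ((a' - a * w') * g) 0 0 = D := by
    rw [hDd, De, hf, ff]
    generalize a' - a * w' = q
    simp only [Matrix.mul_apply, Fin.sum_univ_two, Matrix.transpose_apply,
      Matrix.of_apply, Matrix.cons_val', Matrix.cons_val_zero, Matrix.cons_val_one,
      Matrix.cons_val_fin_one]
    ring
  -- vectors
  have hcol : ∀ {r : ℕ} (X : Matrix (Fin r) (Fin 2) k) (v : Matrix (Fin 2) (Fin 1) k),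
      X *ᵥ (fun i => v i 0) = fun i => (X * v) i 0 := fun X v => rfl
  refine hL.ncl (cl_TR_X (u := 1) (p := 2) rfl hcl hL.cn (fun i => f i 0) (fun i => g i 0)
    hD ?_ ?_ ?_ ?_ ?_)
  · rw [hcol, hcol]
    funext i
    have e : (N' + (-h1) • 1) * f = (N + h2 • 1) * g := by
      rw [Matrix.add_mul, Matrix.add_mul, Matrix.smul_mul, Matrix.smul_mul, Matrix.one_mul,
        Matrix.one_mul]
      have e2 : N' * f = N * g + (h1 • f + h2 • g) := by rw [← hdec]; abel
      rw [e2, neg_smul]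
      abel
    rw [e]
  · rw [hcol, hcol, haf]
  · rw [hcol, hcol, Matrix.one_mul]
  · intro x y z e1 e2
    rw [hcol, hcol, hcol] at e1 e2
    have e1' := congrFun e1 0
    have e20 := congrFun e2 0
    have e21 := congrFun e2 1
    simp only [Pi.add_apply, Pi.smul_apply, smul_eq_mul, Pi.zero_apply] at e1' e20 e21
    have e3 : (a * (w' * f)) 0 0 = a 0 0 * (w' * f) 0 0 + a 0 1 * (w' * f) 1 0 := by
      rw [Matrix.mul_apply, Fin.sum_univ_two]
    have e4 : (a * (w' * g)) 0 0 = a 0 0 * (w' * g) 0 0 + a 0 1 * (w' * g) 1 0 := by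
      rw [Matrix.mul_apply, Fin.sum_univ_two]
    have e5 : (a * f) 0 0 = a 0 0 * ((1 : Matrix (Fin 2) (Fin 2) k) * f) 0 0 +
        a 0 1 * ((1 : Matrix (Fin 2) (Fin 2) k) * f) 1 0 := by
      rw [Matrix.one_mul, Matrix.mul_apply, Fin.sum_univ_two]
    have e6 : (a' * f) 0 0 = (a * (w' * f)) 0 0 := by rw [haf]
    have e7 : (a' * g) 0 0 - (a * (w' * g)) 0 0 = D := by
      rw [← hqg, Matrix.sub_mul, Matrix.mul_assoc]
      rfl
    have hy : y = 0 := by
      refine (mul_eq_zero.1 (?_ : y * D = 0)).resolve_right hD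
      rw [← e7]
      linear_combination e1' - a 0 0 * e20 - a 0 1 * e21 - x * e6 - x * e3 - y * e4 - z * e5
    subst hy
    simp only [Matrix.one_mul, zero_mul, add_zero] at e20 e21
    rw [← hg] at e20 e21
    refine ⟨?_, rfl, ?_⟩
    · refine (mul_eq_zero.1 (?_ : x * D = 0)).resolve_right hD
      rw [hDd, De]
      linear_combination f 0 0 * e21 - f 1 0 * e20
    · refine (mul_eq_zero.1 (?_ : z * D = 0)).resolve_right hD
      rw [hDd, De]
      linear_combination g 1 0 * e20 - g 0 0 * e21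
  · intro s t
    obtain ⟨q, hq⟩ : ∃ q, Sm D H th' et' d' nu' *ᵥ q = Sum.elim s t := by
      have hu : IsUnit (Sm D H th' et' d' nu').det := isUnit_iff_ne_zero.2 hS
      refine ⟨(Sm D H th' et' d' nu')⁻¹ *ᵥ Sum.elim s t, ?_⟩
      rw [Matrix.mulVec_mulVec, Matrix.mul_nonsing_inv _ hu, Matrix.one_mulVec]
    rw [Sm, fromBlocks_mulVec] at hq
    have q1 : th' *ᵥ (q ∘ Sum.inl) + (D • d') *ᵥ (q ∘ Sum.inr) = s := by
      funext i
      exact congrFun hq (Sum.inl i)
    have q2 : et' *ᵥ (q ∘ Sum.inl) + (D • nu' - H • 1) *ᵥ (q ∘ Sum.inr) = t := by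
      funext i
      exact congrFun hq (Sum.inr i)
    refine ⟨0, D • (q ∘ Sum.inr), q ∘ Sum.inl, ?_, ?_⟩
    · rw [Matrix.mulVec_zero, zero_add, Matrix.mulVec_smul, ← Matrix.smul_mulVec, add_comm]
      exact q1
    · rw [Matrix.mulVec_zero, zero_add, Matrix.mulVec_smul, ← Matrix.smul_mulVec, add_comm]
      have e : D • (nu' + (-h1) • 1) = D • nu' - H • (1 : Matrix (Fin 1) (Fin 1) k) := by
        rw [smul_add, smul_smul, hh1, sub_eq_add_neg, ← neg_smul]
        congr 2
        field_simp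
      rw [e]
      exact q2

theorem poly_smul {a b : Type*} {D : k → k} {M : k → Matrix a b k} (hD : D7.IsPoly D)
    (hM : ∀ x y, D7.IsPoly fun s => M s x y) : ∀ x y, D7.IsPoly fun s => (D s • M s) x y :=
  fun x y => hD.mul (hM x y)

theorem poly_De {f g : k → Matrix (Fin 2) (Fin 1) k} (hf : ∀ x y, D7.IsPoly fun s => f s x y)
    (hg : ∀ x y, D7.IsPoly fun s => g s x y) : D7.IsPoly fun s => De (f s) (g s) :=
  ((hf 0 0).mul (hg 1 0)).sub ((hf 1 0).mul (hg 0 0))

/-- case I, `w = 1` -/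
theorem main [CharZero k] (hcl : ∀ R : Fin 9 × Fin 3 → k, Cl (TR 3 R))
    (hT : MaxR ρ (Tr N M a c 1 d nu th et N' M' a' c' w' d' nu' th' et')) : False := by
  haveI : Infinite k := Infinite.of_injective (Nat.cast : ℕ → k) Nat.cast_injective
  obtain ⟨r2, r3⟩ := Tr.rel hT
  rw [Matrix.mul_one] at r2 r3
  obtain ⟨J, hJ⟩ : ∃ J : Matrix (Fin 2) (Fin 2) k, J = !![0, 1; 1, 0] := ⟨_, rfl⟩
  have hJJ : J * J = 1 := by
    rw [hJ]
    ext i j
    fin_cases i <;> fin_cases j <;> simp [Matrix.mul_apply, Fin.sum_univ_two]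
  -- the family
  set Nf : k → Matrix (Fin 2) (Fin 2) k := fun s => (1 - s) • N + s • 0 with hNf
  set Nf' : k → Matrix (Fin 2) (Fin 2) k := fun s => (1 - s) • N' + s • 0 with hNf'
  set af : k → Matrix (Fin 1) (Fin 2) k := fun s => (1 - s) • a + s • 0 with haf
  set af' : k → Matrix (Fin 1) (Fin 2) k := fun s => (1 - s) • a' + s • !![0, 1] with haf'
  set df : k → Matrix (Fin 2) (Fin 1) k := fun s => (1 - s) • d + s • 0 with hdf
  set df' : k → Matrix (Fin 2) (Fin 1) k := fun s => (1 - s) • d' + s • 0 with hdf'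
  set nuf : k → Matrix (Fin 1) (Fin 1) k := fun s => (1 - s) • nu + s • 0 with hnuf
  set nuf' : k → Matrix (Fin 1) (Fin 1) k := fun s => (1 - s) • nu' + s • 1 with hnuf'
  set wf' : k → Matrix (Fin 2) (Fin 2) k := fun s => (1 - s) • w' + s • J with hwf'
  set thf : k → Matrix (Fin 2) (Fin 2) k := fun s => (1 - s) • th + s • J with hthf
  set etf : k → Matrix (Fin 1) (Fin 2) k := fun s => (1 - s) • et + s • 0 with hetf
  set RE : k → Matrix (Fin 2) (Fin 2) k := fun s =>
    Nf s * Nf' s - Nf' s * Nf s + (df s * af' s - df' s * af s) + thf s * wf' s with hRE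
  set RU : k → Matrix (Fin 1) (Fin 2) k := fun s =>
    af s * Nf' s - af' s * Nf s + (nuf s * af' s - nuf' s * af s) + etf s * wf' s with hRU
  have pN := poly_seg N 0
  have pN' := poly_seg N' 0
  have pa := poly_seg a 0
  have pa' := poly_seg a' !![0, 1]
  have pd := poly_seg d 0
  have pd' := poly_seg d' 0
  have pnu := poly_seg nu 0
  have pnu' := poly_seg nu' 1
  have pw' := poly_seg w' J
  have pth := poly_seg th J
  have pet := poly_seg et 0
  have pRE : ∀ x y, D7.IsPoly fun s => RE s x y :=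
    poly_add (poly_add (poly_sub (poly_mul pN pN') (poly_mul pN' pN))
      (poly_sub (poly_mul pd pa') (poly_mul pd' pa))) (poly_mul pth pw')
  have pRU : ∀ x y, D7.IsPoly fun s => RU s x y :=
    poly_add (poly_add (poly_sub (poly_mul pa pN') (poly_mul pa' pN))
      (poly_sub (poly_mul pnu pa') (poly_mul pnu' pa))) (poly_mul pet pw')
  have n0 : Nf 0 = N := by simp only [hNf, sub_zero, one_smul, zero_smul, add_zero]
  have n0' : Nf' 0 = N' := by simp only [hNf', sub_zero, one_smul, zero_smul, add_zero]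
  have a0 : af 0 = a := by simp only [haf, sub_zero, one_smul, zero_smul, add_zero]
  have a0' : af' 0 = a' := by simp only [haf', sub_zero, one_smul, zero_smul, add_zero]
  have d0 : df 0 = d := by simp only [hdf, sub_zero, one_smul, zero_smul, add_zero]
  have d0' : df' 0 = d' := by simp only [hdf', sub_zero, one_smul, zero_smul, add_zero]
  have nu0 : nuf 0 = nu := by simp only [hnuf, sub_zero, one_smul, zero_smul, add_zero]
  have nu0' : nuf' 0 = nu' := by simp only [hnuf', sub_zero, one_smul, zero_smul, add_zero]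
  have w0' : wf' 0 = w' := by simp only [hwf', sub_zero, one_smul, zero_smul, add_zero]
  have th0 : thf 0 = th := by simp only [hthf, sub_zero, one_smul, zero_smul, add_zero]
  have et0 : etf 0 = et := by simp only [hetf, sub_zero, one_smul, zero_smul, add_zero]
  have RE0 : RE 0 = th' := by
    show Nf 0 * Nf' 0 - Nf' 0 * Nf 0 + (df 0 * af' 0 - df' 0 * af 0) + thf 0 * wf' 0 = _
    rw [n0, n0', a0, d0, d0', a0', w0', th0]
    have e : N * N' - N' * N + (d * a' - d' * a) + th * w' =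
        (N * N' + d * a' + th * w') - N' * N - d' * a := by abel
    rw [e, r2]
    abel
  have RU0 : RU 0 = et' := by
    show af 0 * Nf' 0 - af' 0 * Nf 0 + (nuf 0 * af' 0 - nuf' 0 * af 0) + etf 0 * wf' 0 = _
    rw [n0, n0', a0, nu0, nu0', a0', w0', et0]
    have e : a * N' - a' * N + (nu * a' - nu' * a) + et * w' =
        (a * N' + nu * a' + et * w') - a' * N - nu' * a := by abel
    rw [e, r3]
    abel
  obtain ⟨E', hE', hgood⟩ := hT.deform (fun s => Tr (Nf s) M (af s) c 1 (df s) (nuf s) (thf s)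
    (etf s) (Nf' s) M' (af' s) c' (wf' s) (df' s) (nuf' s) (RE s) (RU s)) (by
      intro i
      fin_cases i
      · exact fun x y => D7.IsPoly.const _
      · exact isPoly_BX pN (poly_const M) pa (poly_const c) (poly_const 1) (poly_const 0) pd pnu
          (poly_const 0) pth pet
      · exact isPoly_BX pN' (poly_const M') pa' (poly_const c') pw' (poly_const 0)
          pd' pnu' (poly_const 0) pRE pRU) (by
      show Tr (Nf 0) M (af 0) c 1 (df 0) (nuf 0) (thf 0) (etf 0) (Nf' 0) M' (af' 0) c' (wf' 0)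
        (df' 0) (nuf' 0) (RE 0) (RU 0) = _
      rw [n0, n0', a0, a0', d0, d0', nu0, nu0', w0', th0, et0, RE0, RU0]) Set.finite_empty (by
      intro s _
      refine Tr.cn ?_ ?_
      · rw [Matrix.mul_one]
        show Nf s * Nf' s + df s * af' s + thf s * wf' s =
          Nf' s * Nf s + df' s * af s + (Nf s * Nf' s - Nf' s * Nf s + (df s * af' s -
            df' s * af s) + thf s * wf' s)
        abel
      · rw [Matrix.mul_one]
        show af s * Nf' s + nuf s * af' s + etf s * wf' s =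
          af' s * Nf s + nuf' s * af s + (af s * Nf' s - af' s * Nf s + (nuf s * af' s -
            nuf' s * af s) + etf s * wf' s)
        abel)
  -- the two conditions
  have pq := poly_sub pa' (poly_mul pa pw')
  have pf : ∀ x y, D7.IsPoly fun s => ff (af s) (af' s) (wf' s) x y :=
    poly_mul (poly_const (!![0, 1; -1, 0] : Matrix (Fin 2) (Fin 2) k)) (fun x y => pq y x)
  have pg := poly_mul pw' pf
  have pD := poly_De pf pg
  have pH := poly_De (poly_sub (poly_mul pN' pf) (poly_mul pN pg)) pg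
  have pS : ∀ x y, D7.IsPoly fun s => Sm (De (ff (af s) (af' s) (wf' s))
      (wf' s * ff (af s) (af' s) (wf' s))) (De (Nf' s * ff (af s) (af' s) (wf' s) -
      Nf s * (wf' s * ff (af s) (af' s) (wf' s))) (wf' s * ff (af s) (af' s) (wf' s)))
      (RE s) (RU s) (df' s) (nuf' s) x y := by
    intro x y
    rcases x with x | x <;> rcases y with y | y
    · exact pRE x y
    · exact poly_smul pD pd' x y
    · exact pRU x y
    · exact poly_sub (poly_smul pD pnu') (poly_smul pH (poly_const 1)) x y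
  have f1 := isPoly_det pS
  have n1 : Nf 1 = 0 := by simp only [hNf, sub_self, zero_smul, one_smul, add_zero]
  have n1' : Nf' 1 = 0 := by simp only [hNf', sub_self, zero_smul, one_smul, add_zero]
  have a1 : af 1 = 0 := by simp only [haf, sub_self, zero_smul, one_smul, add_zero]
  have a1' : af' 1 = !![0, 1] := by simp only [haf', sub_self, zero_smul, one_smul, zero_add]
  have d1 : df 1 = 0 := by simp only [hdf, sub_self, zero_smul, one_smul, add_zero]
  have d1' : df' 1 = 0 := by simp only [hdf', sub_self, zero_smul, one_smul, add_zero]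
  have nu1 : nuf 1 = 0 := by simp only [hnuf, sub_self, zero_smul, one_smul, add_zero]
  have nu1' : nuf' 1 = 1 := by simp only [hnuf', sub_self, zero_smul, one_smul, zero_add]
  have w1' : wf' 1 = J := by simp only [hwf', sub_self, zero_smul, one_smul, zero_add]
  have th1 : thf 1 = J := by simp only [hthf, sub_self, zero_smul, one_smul, zero_add]
  have et1 : etf 1 = 0 := by simp only [hetf, sub_self, zero_smul, one_smul, add_zero]
  have RE1 : RE 1 = 1 := by
    show Nf 1 * Nf' 1 - Nf' 1 * Nf 1 + (df 1 * af' 1 - df' 1 * af 1) + thf 1 * wf' 1 = _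
    rw [n1, a1, d1, d1', w1', th1, hJJ]
    simp
  have RU1 : RU 1 = 0 := by
    show af 1 * Nf' 1 - af' 1 * Nf 1 + (nuf 1 * af' 1 - nuf' 1 * af 1) + etf 1 * wf' 1 = _
    rw [n1, a1, nu1, et1]
    simp
  have ff1 : ff (af 1) (af' 1) (wf' 1) = !![1; 0] := by
    rw [a1, a1', w1', ff, Matrix.zero_mul, sub_zero]
    ext i j
    rw [Subsingleton.elim j 0]
    fin_cases i <;> simp [Matrix.mul_apply, Fin.sum_univ_two]
  have gg1 : wf' 1 * (!![1; 0] : Matrix (Fin 2) (Fin 1) k) = !![0; 1] := by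
    rw [w1', hJ]
    ext i j
    rw [Subsingleton.elim j 0]
    fin_cases i <;> simp [Matrix.mul_apply, Fin.sum_univ_two]
  have D1 : De (!![1; 0] : Matrix (Fin 2) (Fin 1) k) !![0; 1] = 1 := by
    simp [De]
  have g1 := pD.finite (s₁ := 1) (by
    show De (ff (af 1) (af' 1) (wf' 1)) (wf' 1 * ff (af 1) (af' 1) (wf' 1)) ≠ 0
    rw [ff1, gg1, D1]
    exact one_ne_zero)
  have g2 := f1.finite (s₁ := 1) (by
    show (Sm (De (ff (af 1) (af' 1) (wf' 1))
      (wf' 1 * ff (af 1) (af' 1) (wf' 1))) (De (Nf' 1 * ff (af 1) (af' 1) (wf' 1) -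
      Nf 1 * (wf' 1 * ff (af 1) (af' 1) (wf' 1))) (wf' 1 * ff (af 1) (af' 1) (wf' 1)))
      (RE 1) (RU 1) (df' 1) (nuf' 1)).det ≠ 0
    rw [ff1, gg1, D1, RE1, RU1, d1', nu1', n1, n1', Matrix.zero_mul, Matrix.zero_mul, sub_zero,
      Sm]
    have e : De (0 : Matrix (Fin 2) (Fin 1) k) !![0; 1] = 0 := by simp [De]
    rw [e, smul_zero, zero_smul, sub_zero, one_smul, fromBlocks_one, Matrix.det_one]
    exact one_ne_zero)
  obtain ⟨s, hs⟩ := ((hE'.union g1).union g2).infinite_compl.nonempty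
  simp only [Set.mem_compl_iff, Set.mem_union, not_or, Set.mem_ofPred_eq] at hs
  obtain ⟨⟨hs0, hs1⟩, hs2⟩ := hs
  exact gen hcl (hgood s hs0) hs1 hs2

end X212Aux

theorem no_inj212 {k : Type*} [Field k] [CharZero k] {ρ : ℕ → ℕ}
    (hcl : ∀ R : Fin 9 × Fin 3 → k, Cl (TR 3 R)) : NoInj k ρ 1 2 := by
  intro N M a c w d nu th et N' M' a' c' w' d' nu' th' et' hT hw
  have hu : IsUnit w.det := by
    rw [isUnit_iff_ne_zero, Matrix.det_fin_two]
    obtain ⟨i, j, hij⟩ := hw
    intro h
    apply hij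
    fin_cases i <;> fin_cases j
    · show w 0 0 * w 0 1 - w 0 1 * w 0 0 = 0
      ring
    · show w 0 0 * w 1 1 - w 0 1 * w 1 0 = 0
      exact h
    · show w 1 0 * w 0 1 - w 1 1 * w 0 0 = 0
      linear_combination -h
    · show w 1 0 * w 1 1 - w 1 1 * w 1 0 = 0
      ring
  have h1 := Tr.conjP hT (Matrix.nonsing_inv_mul w hu)
  rw [Matrix.nonsing_inv_mul w hu] at h1
  exact X212Aux.main hcl h1

theorem no_X212 {k : Type*} [Field k] [IsAlgClosed k] [CharZero k] {ρ : ℕ → ℕ}
    (hcl : ∀ R : Fin 9 × Fin 3 → k, Cl (TR 3 R))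
    {T : Fin 3 → Matrix (Ix 2 1 2) (Ix 2 1 2) k} (hT : MaxR ρ T)
    (hρ : ∀ i, ρ i = (JX k 2 1 2 ^ i).rank) (h0 : T 0 = JX k 2 1 2) : False :=
  no_X21_of_I (fun _ _ _ _ _ _ _ _ _ _ _ _ _ _ _ _ _ _ _ h =>
    X212.of_inj (no_inj212 hcl) le_rfl h) hT hρ h0

end Pool.Agent.Lib.D10
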