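import Pool.Agent.Lib.D10.X2K

/-!
# MP_5dcbc3_ag: types `(3, 3, 2, 1^p)`, `p >= 2`, case I: reduction to `w` injective

`w = (om, 0)`, `w' = (om', 0)`, `om <> 0`, `f = e1` (the second basis vector of `E`).
If `N f` is not in `k f` or `a f <> 0` (or the same for `C`), `C` can be moved so that `w' f <> 0`.
Otherwise `N f = N' f = 0` after subtracting multiples of `A`; the `2 x 2` minor
`N 0 0 nu - d 0 a 0` is made nonzero by a deformation, and then again `w' f` can be made nonzero.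
-/

namespace Pool.Agent.Lib.D10

open Matrix Pool.Agent.Lib.Q5dc Pool.Agent.Lib.D7 Pool.Agent.Lib.D9

section

variable {k : Type*} [Field k] {p : ℕ} {ρ : ℕ → ℕ} {N M N' M' : Matrix (Fin 2) (Fin 2) k}
  {a c a' c' : Matrix (Fin 1) (Fin 2) k} {w w' : Matrix (Fin p) (Fin 2) k}
  {d d' : Matrix (Fin 2) (Fin 1) k} {nu nu' : Matrix (Fin 1) (Fin 1) k}
  {th th' : Matrix (Fin 2) (Fin p) k} {et et' : Matrix (Fin 1) (Fin p) k}

/-- `w = (om, 0)`, a row `r` with `r om = 1` -/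
theorem X212.row {w : Matrix (Fin p) (Fin 2) k} (h1 : ∀ i, w i 1 = 0) {i : Fin p}
    (hi : w i 0 ≠ 0) {n : Type*} (x : n → k) :
    (vecMulVec x ((w i 0)⁻¹ • (Pi.single i 1 : Fin p → k))) * w =
      Matrix.of fun r (t : Fin 2) => if t = 0 then x r else 0 := by
  ext r t
  rw [Matrix.vecMulVec_mul, vecMulVec_apply, Matrix.smul_vecMul, Matrix.single_one_vecMul]
  fin_cases t
  · simp [hi]
  · simp [h1]

/-- the move of `C` -/
theorem X212.moveC [Infinite k] (Hinj : NoInj k ρ 1 p) (hp : 2 ≤ p)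
    (hT : MaxR ρ (Tr N M a c w d nu th et N' M' a' c' w' d' nu' th' et')) (h1 : ∀ i, w i 1 = 0)
    (h1' : ∀ i, w' i 1 = 0) (i : Fin p) (hi : w i 0 ≠ 0) (ps : Fin p → k) (hps : ps ≠ 0)
    (n1 : Matrix (Fin 2) (Fin 2) k) (a1 : Matrix (Fin 1) (Fin 2) k)
    (d1 : Matrix (Fin 2) (Fin 1) k) (nu1 : Matrix (Fin 1) (Fin 1) k)
    (g2 : ∀ r, (N * n1 + d * a1 + vecMulVec (th *ᵥ ps) ![0, 1]) r 1 = (n1 * N + d1 * a) r 1)
    (g3 : ∀ r, (a * n1 + nu * a1 + vecMulVec (et *ᵥ ps) ![0, 1]) r 1 = (a1 * N + nu1 * a) r 1) :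
    False := by
  obtain ⟨r2, r3⟩ := Tr.rel hT
  obtain ⟨x2, hx2⟩ : ∃ x2 : Fin 2 → k, x2 = fun r => (N * n1 + d * a1) r 0 -
    (n1 * N + d1 * a) r 0 := ⟨_, rfl⟩
  obtain ⟨x3, hx3⟩ : ∃ x3 : Fin 1 → k, x3 = fun r => (a * n1 + nu * a1) r 0 -
    (a1 * N + nu1 * a) r 0 := ⟨_, rfl⟩
  obtain ⟨ro, hro⟩ : ∃ ro : Fin p → k, ro = (w i 0)⁻¹ • (Pi.single i 1 : Fin p → k) := ⟨_, rfl⟩
  have e2 : N * n1 + d * a1 + vecMulVec (th *ᵥ ps) ![0, 1] =
      n1 * N + d1 * a + vecMulVec x2 ro * w := by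
    rw [hro, X212.row h1 hi]
    ext r t
    fin_cases t
    · rw [Matrix.add_apply, Matrix.add_apply (n1 * N + d1 * a)]
      simp [hx2, vecMulVec_apply]
    · have h := g2 r
      rw [Matrix.add_apply (n1 * N + d1 * a)]
      simp only [Fin.mk_one, Matrix.of_apply, one_ne_zero, if_false, add_zero]
      exact h
  have e3 : a * n1 + nu * a1 + vecMulVec (et *ᵥ ps) ![0, 1] =
      a1 * N + nu1 * a + vecMulVec x3 ro * w := by
    rw [hro, X212.row h1 hi]
    ext r t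
    fin_cases t
    · rw [Matrix.add_apply, Matrix.add_apply (a1 * N + nu1 * a)]
      simp [hx3, vecMulVec_apply]
    · have h := g3 r
      rw [Matrix.add_apply (a1 * N + nu1 * a)]
      simp only [Fin.mk_one, Matrix.of_apply, one_ne_zero, if_false, add_zero]
      exact h
  obtain ⟨s, hs, h4⟩ := D8.MaxR.line2 hT 0
    (BX n1 0 a1 0 (vecMulVec ps ![0, 1]) 0 d1 nu1 0 (vecMulVec x2 ro) (vecMulVec x3 ro))
    (fun s => by
      rw [BX_smul, BX_add]
      simp only [smul_zero, add_zero, zero_add]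
      refine Tr.cn ?_ ?_
      · have e4 := congrArg (fun X => s • X) e2
        simp only [smul_add] at e4
        simp only [Matrix.mul_add, Matrix.add_mul, Matrix.mul_smul, Matrix.smul_mul,
          Matrix.mul_vecMulVec]
        calc N * N' + s • (N * n1) + (d * a' + s • (d * a1)) + (th * w' +
              s • vecMulVec (th *ᵥ ps) ![0, 1])
            = (N * N' + d * a' + th * w') + (s • (N * n1) + s • (d * a1) +
              s • vecMulVec (th *ᵥ ps) ![0, 1]) := by abel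
          _ = (N' * N + d' * a + th' * w) + (s • (n1 * N) + s • (d1 * a) +
              s • (vecMulVec x2 ro * w)) := by rw [r2, e4]
          _ = _ := by abel
      · have e4 := congrArg (fun X => s • X) e3
        simp only [smul_add] at e4
        simp only [Matrix.mul_add, Matrix.add_mul, Matrix.mul_smul, Matrix.smul_mul,
          Matrix.mul_vecMulVec]
        calc a * N' + s • (a * n1) + (nu * a' + s • (nu * a1)) + (et * w' +
              s • vecMulVec (et *ᵥ ps) ![0, 1])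
            = (a * N' + nu * a' + et * w') + (s • (a * n1) + s • (nu * a1) +
              s • vecMulVec (et *ᵥ ps) ![0, 1]) := by abel
          _ = (a' * N + nu' * a + et' * w) + (s • (a1 * N) + s • (nu1 * a) +
              s • (vecMulVec x3 ro * w)) := by rw [r3, e4]
          _ = _ := by abel) (Set.finite_singleton (0 : k))
  rw [BX_smul, BX_add] at h4
  simp only [smul_zero, add_zero, zero_add] at h4
  obtain ⟨j, hj⟩ := Function.ne_iff.1 hps
  refine X2.joint Hinj hp h4 i j ?_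
  have e : w i 0 * (w' + s • vecMulVec ps ![0, 1]) j 1 -
      w i 1 * (w' + s • vecMulVec ps ![0, 1]) j 0 = w i 0 * (s * ps j) := by
    simp only [Matrix.add_apply, Matrix.smul_apply, vecMulVec_apply, smul_eq_mul, h1, h1']
    simp
  rw [e]
  exact mul_ne_zero hi (mul_ne_zero hs hj)

theorem X212.F1 [Infinite k] (Hinj : NoInj k ρ 1 p) (hp : 2 ≤ p)
    (hT : MaxR ρ (Tr N M a c w d nu th et N' M' a' c' w' d' nu' th' et')) (h1 : ∀ i, w i 1 = 0)
    (h1' : ∀ i, w' i 1 = 0) (i : Fin p) (hi : w i 0 ≠ 0) (h : N 0 1 ≠ 0 ∨ a 0 1 ≠ 0) :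
    False := by
  obtain ⟨x, z, hxz⟩ : ∃ x z : k, N 0 1 * x + a 0 1 * z = 1 := by
    rcases h with h | h
    · exact ⟨(N 0 1)⁻¹, 0, by rw [mul_inv_cancel₀ h, mul_zero, add_zero]⟩
    · exact ⟨0, (a 0 1)⁻¹, by rw [mul_inv_cancel₀ h, mul_zero, zero_add]⟩
  obtain ⟨q, hq⟩ : ∃ q : Fin 2 → k, q = th *ᵥ (Pi.single i 1) := ⟨_, rfl⟩
  obtain ⟨q', hq'⟩ : ∃ q' : Fin 1 → k, q' = et *ᵥ (Pi.single i 1) := ⟨_, rfl⟩
  refine X212.moveC Hinj hp hT h1 h1' i hi (Pi.single i 1) (by simp)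
    !![x * q 0, 0; x * q 1, 0] !![x * q' 0, 0] !![z * q 0; z * q 1] !![z * q' 0] ?_ ?_
  · intro r
    rw [← hq]
    simp only [Matrix.add_apply, Matrix.mul_apply, Fin.sum_univ_two, Fin.sum_univ_one,
      vecMulVec_apply]
    fin_cases r
    · simp
      linear_combination -q 0 * hxz
    · simp
      linear_combination -q 1 * hxz
  · intro r
    rw [← hq']
    simp only [Matrix.add_apply, Matrix.mul_apply, Fin.sum_univ_two, Fin.sum_univ_one,
      vecMulVec_apply]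
    fin_cases r
    simp
    linear_combination -q' 0 * hxz

/-- `N f = a f = 0`, the minor is not zero -/
theorem X212.F3b [Infinite k] (Hinj : NoInj k ρ 1 p) (hp : 2 ≤ p)
    (hT : MaxR ρ (Tr N M a c w d nu th et N' M' a' c' w' d' nu' th' et')) (h1 : ∀ i, w i 1 = 0)
    (h1' : ∀ i, w' i 1 = 0) (i : Fin p) (hi : w i 0 ≠ 0) (hN : N 0 1 = 0) (hN1 : N 1 1 = 0)
    (ha : a 0 1 = 0) (hm : N 0 0 * nu 0 0 - d 0 0 * a 0 0 ≠ 0) : False := by
  obtain ⟨m, hmd⟩ : ∃ m, m = N 0 0 * nu 0 0 - d 0 0 * a 0 0 := ⟨_, rfl⟩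
  rw [← hmd] at hm
  -- the vector
  obtain ⟨ps, hps, hk⟩ : ∃ ps : Fin p → k, ps ≠ 0 ∧
      (N 1 0 * nu 0 0 - a 0 0 * d 1 0) * (th *ᵥ ps) 0 - m * (th *ᵥ ps) 1 +
        (N 0 0 * d 1 0 - N 1 0 * d 0 0) * (et *ᵥ ps) 0 = 0 := by
    set F : (Fin p → k) →ₗ[k] k :=
      { toFun := fun v => (N 1 0 * nu 0 0 - a 0 0 * d 1 0) * (th *ᵥ v) 0 - m * (th *ᵥ v) 1 +
          (N 0 0 * d 1 0 - N 1 0 * d 0 0) * (et *ᵥ v) 0
        map_add' := fun v v' => by
          simp only [Matrix.mulVec_add, Pi.add_apply]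
          ring
        map_smul' := fun c v => by
          simp only [Matrix.mulVec_smul, Pi.smul_apply, smul_eq_mul, RingHom.id_apply]
          ring } with hF
    have h2 : LinearMap.ker F ≠ ⊥ := by
      refine LinearMap.ker_ne_bot_of_finrank_lt ?_
      simp only [Module.finrank_fin_fun, Module.finrank_self]
      omega
    obtain ⟨v, hv, hv0⟩ := (Submodule.ne_bot_iff _).1 h2
    rw [LinearMap.mem_ker] at hv
    exact ⟨v, hv0, hv⟩
  obtain ⟨q, hq⟩ : ∃ q : Fin 2 → k, q = th *ᵥ ps := ⟨_, rfl⟩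
  obtain ⟨q', hq'⟩ : ∃ q' : Fin 1 → k, q' = et *ᵥ ps := ⟨_, rfl⟩
  rw [← hq, ← hq'] at hk
  obtain ⟨v0, hv0⟩ : ∃ v0, v0 = (-(q 0) * nu 0 0 + q' 0 * d 0 0) / m := ⟨_, rfl⟩
  obtain ⟨v2, hv2⟩ : ∃ v2, v2 = (-(N 0 0) * q' 0 + a 0 0 * q 0) / m := ⟨_, rfl⟩
  have s0 : N 0 0 * v0 + d 0 0 * v2 + q 0 = 0 := by
    rw [hv0, hv2]
    field_simp
    rw [hmd]
    ring
  have s1 : N 1 0 * v0 + d 1 0 * v2 + q 1 = 0 := by
    have h : (N 1 0 * v0 + d 1 0 * v2 + q 1) * m = 0 := by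
      rw [hv0, hv2]
      field_simp
      linear_combination -hk
    exact (mul_eq_zero.1 h).resolve_right hm
  have s2 : a 0 0 * v0 + nu 0 0 * v2 + q' 0 = 0 := by
    rw [hv0, hv2]
    field_simp
    rw [hmd]
    ring
  refine X212.moveC Hinj hp hT h1 h1' i hi ps hps
    !![0, v0; 0, 0] !![0, v2] 0 0 ?_ ?_
  · intro r
    rw [← hq]
    simp only [Matrix.add_apply, Matrix.mul_apply, Fin.sum_univ_two, Fin.sum_univ_one,
      vecMulVec_apply]
    fin_cases r
    · simp [hN1]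
      linear_combination s0
    · simp
      linear_combination s1
  · intro r
    rw [← hq']
    simp only [Matrix.add_apply, Matrix.mul_apply, Fin.sum_univ_two, Fin.sum_univ_one,
      vecMulVec_apply]
    fin_cases r
    simp [hN1]
    linear_combination s2

/-- `N f = a f = N' f = a' f = 0` -/
theorem X212.F3a [Infinite k] (Hinj : NoInj k ρ 1 p) (hp : 2 ≤ p)
    (hT : MaxR ρ (Tr N M a c w d nu th et N' M' a' c' w' d' nu' th' et')) (h1 : ∀ i, w i 1 = 0)
    (h1' : ∀ i, w' i 1 = 0) (i : Fin p) (hi : w i 0 ≠ 0) (hN : N 0 1 = 0) (hN1 : N 1 1 = 0)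
    (ha : a 0 1 = 0) (hN' : N' 0 1 = 0) (hN1' : N' 1 1 = 0) (ha' : a' 0 1 = 0) : False := by
  obtain ⟨r2, r3⟩ := Tr.rel hT
  obtain ⟨ro, hro⟩ : ∃ ro : Fin p → k, ro = (w i 0)⁻¹ • (Pi.single i 1 : Fin p → k) := ⟨_, rfl⟩
  obtain ⟨Z, hZ⟩ : ∃ Z : Matrix (Fin 2) (Fin 2) k, Z = !![1, 0; 0, 0] := ⟨_, rfl⟩
  have e2 : Z * N' = N' * Z + vecMulVec ![0, -(N' 1 0)] ro * w := by
    rw [hro, X212.row h1 hi, hZ]
    ext r t
    simp only [Matrix.add_apply, Matrix.mul_apply, Fin.sum_univ_two, Matrix.of_apply]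
    fin_cases r <;> fin_cases t <;> simp [hN']
  have e3 : a' = a' * Z := by
    rw [hZ]
    ext r t
    rw [Subsingleton.elim r 0]
    simp only [Matrix.mul_apply, Fin.sum_univ_two]
    fin_cases t <;> simp [ha']
  obtain ⟨s, hs, h4⟩ := D8.MaxR.line2 hT (BX Z 0 0 0 0 0 0 1 0 0 0)
    (BX 0 0 0 0 0 0 0 0 0 (vecMulVec ![0, -(N' 1 0)] ro) 0) (fun s => by
      rw [BX_smul, BX_add, BX_smul, BX_add]
      simp only [smul_zero, add_zero]
      refine Tr.cn ?_ ?_
      · have e4 := congrArg (fun X => s • X) e2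
        simp only [smul_add] at e4
        simp only [Matrix.mul_add, Matrix.add_mul, Matrix.mul_smul, Matrix.smul_mul]
        calc N * N' + s • (Z * N') + d * a' + th * w'
            = (N * N' + d * a' + th * w') + s • (Z * N') := by abel
          _ = (N' * N + d' * a + th' * w) + (s • (N' * Z) +
              s • (vecMulVec ![0, -(N' 1 0)] ro * w)) := by rw [r2, e4]
          _ = _ := by abel
      · have e4 := congrArg (fun X => s • X) e3
        simp only [Matrix.mul_add, Matrix.add_mul, Matrix.mul_smul, Matrix.smul_mul,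
          Matrix.one_mul]
        calc a * N' + (nu * a' + s • a') + et * w'
            = (a * N' + nu * a' + et * w') + s • a' := by abel
          _ = (a' * N + nu' * a + et' * w) + s • (a' * Z) := by rw [r3, e4]
          _ = _ := by abel)
    (D8.finite_quad (a := N 0 0 * nu 0 0 - d 0 0 * a 0 0) (b := N 0 0 + nu 0 0) (c := 1)
      (Or.inr (Or.inr one_ne_zero)))
  rw [BX_smul, BX_add, BX_smul, BX_add] at h4
  simp only [smul_zero, add_zero] at h4
  refine X212.F3b Hinj hp h4 h1 h1' i hi ?_ ?_ ha ?_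
  · simp [hZ, hN]
  · simp [hZ, hN1]
  · intro h5
    apply hs
    show _ + _ * s + 1 * s ^ 2 = 0
    rw [hZ] at h5
    simp at h5
    linear_combination h5

theorem X212.nz1 [CharZero k] (Hinj : NoInj k ρ 1 p) (hp : 2 ≤ p)
    (hT : MaxR ρ (Tr N M a c w d nu th et N' M' a' c' w' d' nu' th' et')) (h1 : ∀ i, w i 1 = 0)
    (h1' : ∀ i, w' i 1 = 0) (i : Fin p) (hi : w i 0 ≠ 0) : False := by
  haveI : Infinite k := Infinite.of_injective (Nat.cast : ℕ → k) Nat.cast_injective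
  by_cases hF : N 0 1 ≠ 0 ∨ a 0 1 ≠ 0
  · exact X212.F1 Hinj hp hT h1 h1' i hi hF
  push Not at hF
  obtain ⟨hN, ha⟩ := hF
  by_cases hF' : N' 0 1 ≠ 0 ∨ a' 0 1 ≠ 0
  · have key : ∀ t : k, t ≠ 0 → w i 0 + t * w' i 0 ≠ 0 → False := by
      intro t ht h
      have hL := Tr.lin hT 1 t 0 1 0 0 (by simp)
      simp only [one_smul, zero_smul, zero_add, add_zero] at hL
      refine X212.F1 Hinj hp hL (fun j => ?_) h1' i ?_ ?_
      · simp [h1, h1']
      · simpa using h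
      · simpa [hN, ha, ht] using hF'
    by_cases h : w i 0 + 1 * w' i 0 = 0
    · refine key (-1) (by simp) ?_
      have e : w i 0 + -1 * w' i 0 = 2 * w i 0 := by linear_combination -h
      rw [e]
      exact mul_ne_zero two_ne_zero hi
    · exact key 1 one_ne_zero h
  · push Not at hF'
    obtain ⟨hN', ha'⟩ := hF'
    have hL := Tr.lin hT 1 0 0 1 (-N 1 1) (-N' 1 1) (by simp)
    simp only [one_smul, zero_smul, zero_add, add_zero] at hL
    refine X212.F3a Hinj hp hL h1 h1' i hi ?_ ?_ ha ?_ ?_ ha'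
    · simp [hN]
    · simp
    · simp [hN']
    · simp

/-- case I for `p >= 2` reduces to `w` injective -/
theorem X212.of_inj [CharZero k] (Hinj : NoInj k ρ 1 p) (hp : 2 ≤ p)
    (hT : MaxR ρ (Tr N M a c w d nu th et N' M' a' c' w' d' nu' th' et')) : False := by
  haveI : Infinite k := Infinite.of_injective (Nat.cast : ℕ → k) Nat.cast_injective
  refine X2.of_ne (by omega) (fun w1 w2 h hw => ?_) hT
  obtain ⟨N1, M1, a1, c1, w1, d1, th1, N2, M2, a2, c2, w2, d2, th2, h4, g1, g2, g3, g4⟩ :=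
    X2.basis Hinj hp h
  rcases hw with hw | hw
  · obtain ⟨i, hi⟩ := exists_entry (g3 hw) g1
    exact X212.nz1 Hinj hp h4 g1 g2 i hi
  · obtain ⟨i, hi⟩ := exists_entry (g4 hw) g2
    exact X212.nz1 Hinj hp (Tr.swap h4) g2 g1 i hi

end

end Pool.Agent.Lib.D10
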