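import Pool.Agent.Lib.D10.X2W

/-!
# MP_5dcbc3_ag: types `(3, 3, 2^u, 1^p)`, case I: the moves `w + s x phi`, `w' + s x' phi`

with `th x' = th' x`, `et x' = et' x`. There are enough solutions `(x, x')` if `2 p > u + 3`:
then a maximal bad triple of case I can be moved to one with `w` injective (`X2.of_inj`).
For `2 p > u + 2` it can be moved to one with `(w, w')` not zero (`X2.of_ne`).
-/

namespace Pool.Agent.Lib.D10

open Matrix Pool.Agent.Lib.Q5dc Pool.Agent.Lib.D7 Pool.Agent.Lib.D9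

section

variable {k : Type*} [Field k] {u p : ℕ}

/-- solutions of `th x' = th' x`, `et x' = et' x` with one more linear condition -/
theorem X2.sol (th th' : Matrix (Fin 2) (Fin p) k) (et et' : Matrix (Fin u) (Fin p) k)
    (r r' : Fin p → k) (h : u + 3 < 2 * p) :
    ∃ x x' : Fin p → k, (x ≠ 0 ∨ x' ≠ 0) ∧ th *ᵥ x' = th' *ᵥ x ∧ et *ᵥ x' = et' *ᵥ x ∧
      r ⬝ᵥ x + r' ⬝ᵥ x' = 0 := by
  set F : ((Fin p → k) × (Fin p → k)) →ₗ[k] ((Fin 2 → k) × (Fin u → k) × k) :=
    { toFun := fun v => (th *ᵥ v.2 - th' *ᵥ v.1, et *ᵥ v.2 - et' *ᵥ v.1, r ⬝ᵥ v.1 + r' ⬝ᵥ v.2)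
      map_add' := fun v v' => by
        ext1
        · simp only [Prod.fst_add, Prod.snd_add, Matrix.mulVec_add]
          abel
        · ext1
          · simp only [Prod.fst_add, Prod.snd_add, Matrix.mulVec_add]
            abel
          · simp only [Prod.fst_add, Prod.snd_add, dotProduct_add]
            ring
      map_smul' := fun c v => by
        ext1
        · simp only [Prod.smul_fst, Prod.smul_snd, Matrix.mulVec_smul, RingHom.id_apply, smul_sub]
        · ext1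
          · simp only [Prod.smul_fst, Prod.smul_snd, Matrix.mulVec_smul, RingHom.id_apply,
              smul_sub]
          · simp only [Prod.smul_fst, Prod.smul_snd, dotProduct_smul, RingHom.id_apply,
              smul_eq_mul]
            ring } with hF
  have h1 : LinearMap.ker F ≠ ⊥ := by
    refine LinearMap.ker_ne_bot_of_finrank_lt ?_
    simp only [Module.finrank_prod, Module.finrank_fin_fun, Module.finrank_self]
    omega
  obtain ⟨v, hv, hv0⟩ := (Submodule.ne_bot_iff _).1 h1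
  rw [LinearMap.mem_ker] at hv
  have hv1 : th *ᵥ v.2 - th' *ᵥ v.1 = 0 := congrArg Prod.fst hv
  have hv2 : et *ᵥ v.2 - et' *ᵥ v.1 = 0 := congrArg (fun z => z.2.1) hv
  have hv3 : r ⬝ᵥ v.1 + r' ⬝ᵥ v.2 = 0 := congrArg (fun z => z.2.2) hv
  refine ⟨v.1, v.2, ?_, sub_eq_zero.1 hv1, sub_eq_zero.1 hv2, hv3⟩
  by_contra hc
  push Not at hc
  exact hv0 (Prod.ext hc.1 hc.2)

/-- solutions of `th x' = th' x`, `et x' = et' x` -/
theorem X2.sol0 (th th' : Matrix (Fin 2) (Fin p) k) (et et' : Matrix (Fin u) (Fin p) k)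
    (h : u + 2 < 2 * p) :
    ∃ x x' : Fin p → k, (x ≠ 0 ∨ x' ≠ 0) ∧ th *ᵥ x' = th' *ᵥ x ∧ et *ᵥ x' = et' *ᵥ x := by
  set F : ((Fin p → k) × (Fin p → k)) →ₗ[k] ((Fin 2 → k) × (Fin u → k)) :=
    { toFun := fun v => (th *ᵥ v.2 - th' *ᵥ v.1, et *ᵥ v.2 - et' *ᵥ v.1)
      map_add' := fun v v' => by
        ext1
        · simp only [Prod.fst_add, Prod.snd_add, Matrix.mulVec_add]
          abel
        · simp only [Prod.fst_add, Prod.snd_add, Matrix.mulVec_add]
          abel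
      map_smul' := fun c v => by
        ext1
        · simp only [Prod.smul_fst, Prod.smul_snd, Matrix.mulVec_smul, RingHom.id_apply, smul_sub]
        · simp only [Prod.smul_fst, Prod.smul_snd, Matrix.mulVec_smul, RingHom.id_apply,
            smul_sub] } with hF
  have h1 : LinearMap.ker F ≠ ⊥ := by
    refine LinearMap.ker_ne_bot_of_finrank_lt ?_
    simp only [Module.finrank_prod, Module.finrank_fin_fun]
    omega
  obtain ⟨v, hv, hv0⟩ := (Submodule.ne_bot_iff _).1 h1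
  rw [LinearMap.mem_ker] at hv
  have hv1 : th *ᵥ v.2 - th' *ᵥ v.1 = 0 := congrArg Prod.fst hv
  have hv2 : et *ᵥ v.2 - et' *ᵥ v.1 = 0 := congrArg Prod.snd hv
  refine ⟨v.1, v.2, ?_, sub_eq_zero.1 hv1, sub_eq_zero.1 hv2⟩
  by_contra hc
  push Not at hc
  exact hv0 (Prod.ext hc.1 hc.2)

variable {ρ : ℕ → ℕ} {N M N' M' : Matrix (Fin 2) (Fin 2) k}
  {a c a' c' : Matrix (Fin u) (Fin 2) k} {w w' : Matrix (Fin p) (Fin 2) k}
  {d d' : Matrix (Fin 2) (Fin u) k} {nu nu' : Matrix (Fin u) (Fin u) k}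
  {th th' : Matrix (Fin 2) (Fin p) k} {et et' : Matrix (Fin u) (Fin p) k}

/-- the move -/
theorem X2.move [Infinite k]
    (hT : MaxR ρ (Tr N M a c w d nu th et N' M' a' c' w' d' nu' th' et'))
    {x x' : Fin p → k} (h1 : th *ᵥ x' = th' *ᵥ x) (h2 : et *ᵥ x' = et' *ᵥ x) (ph : Fin 2 → k) :
    ∃ s : k, s ≠ 0 ∧ MaxR ρ (Tr N M a c (w + s • vecMulVec x ph) d nu th et N' M' a' c'
      (w' + s • vecMulVec x' ph) d' nu' th' et') := by
  obtain ⟨r2, r3⟩ := Tr.rel hT
  obtain ⟨s, hs, h4⟩ := D8.MaxR.line2 hT (BX 0 0 0 0 (vecMulVec x ph) 0 0 0 0 0 0)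
    (BX 0 0 0 0 (vecMulVec x' ph) 0 0 0 0 0 0) (fun s => by
      rw [BX_smul, BX_add, BX_smul, BX_add]
      simp only [smul_zero, add_zero]
      refine Tr.cn ?_ ?_
      · rw [Matrix.mul_add, Matrix.mul_add th', Matrix.mul_smul, Matrix.mul_smul,
          Matrix.mul_vecMulVec, Matrix.mul_vecMulVec, h1, ← add_assoc, r2, add_assoc]
      · rw [Matrix.mul_add, Matrix.mul_add et', Matrix.mul_smul, Matrix.mul_smul,
          Matrix.mul_vecMulVec, Matrix.mul_vecMulVec, h2, ← add_assoc, r3, add_assoc])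
      (Set.finite_singleton (0 : k))
  rw [BX_smul, BX_add, BX_smul, BX_add] at h4
  simp only [smul_zero, add_zero] at h4
  exact ⟨s, hs, h4⟩

/-- if `w` has a nonzero entry and both second columns vanish -/
theorem X2.nz1 [Infinite k] (Hinj : NoInj k ρ u p) (hp : 2 ≤ p) (h : u + 3 < 2 * p)
    (hT : MaxR ρ (Tr N M a c w d nu th et N' M' a' c' w' d' nu' th' et')) (h1 : ∀ i, w i 1 = 0)
    (h1' : ∀ i, w' i 1 = 0) (i : Fin p) (hi : w i 0 ≠ 0) : False := by
  obtain ⟨x, x', hx, g1, g2, g3⟩ := X2.sol th th' et et' (Pi.single i 1) 0 h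
  rw [single_one_dotProduct, zero_dotProduct, add_zero] at g3
  obtain ⟨s, hs, h4⟩ := X2.move hT g1 g2 ![0, 1]
  rcases hx with hx | hx
  · obtain ⟨j, hj⟩ := Function.ne_iff.1 hx
    refine Hinj _ _ _ _ _ _ _ _ _ _ _ _ _ _ _ _ _ _ h4 ⟨i, j, ?_⟩
    have e : (w + s • vecMulVec x ![0, 1]) i 0 * (w + s • vecMulVec x ![0, 1]) j 1 -
        (w + s • vecMulVec x ![0, 1]) i 1 * (w + s • vecMulVec x ![0, 1]) j 0 =
        w i 0 * (s * x j) := by
      simp only [Matrix.add_apply, Matrix.smul_apply, vecMulVec_apply, smul_eq_mul, h1, g3]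
      simp
    rw [e]
    exact mul_ne_zero hi (mul_ne_zero hs hj)
  · obtain ⟨j, hj⟩ := Function.ne_iff.1 hx
    refine X2.joint Hinj hp h4 i j ?_
    have e : (w + s • vecMulVec x ![0, 1]) i 0 * (w' + s • vecMulVec x' ![0, 1]) j 1 -
        (w + s • vecMulVec x ![0, 1]) i 1 * (w' + s • vecMulVec x' ![0, 1]) j 0 =
        w i 0 * (s * x' j) := by
      simp only [Matrix.add_apply, Matrix.smul_apply, vecMulVec_apply, smul_eq_mul, h1, h1', g3]
      simp
    rw [e]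
    exact mul_ne_zero hi (mul_ne_zero hs hj)

theorem exists_entry {w : Matrix (Fin p) (Fin 2) k} (hw : w ≠ 0) (h1 : ∀ i, w i 1 = 0) :
    ∃ i, w i 0 ≠ 0 := by
  by_contra hc
  push Not at hc
  apply hw
  ext i j
  fin_cases j
  · exact hc i
  · exact h1 i

/-- if `(w, w')` is not zero -/
theorem X2.nz [Infinite k] (Hinj : NoInj k ρ u p) (hp : 2 ≤ p) (h : u + 3 < 2 * p)
    (hT : MaxR ρ (Tr N M a c w d nu th et N' M' a' c' w' d' nu' th' et'))
    (hw : w ≠ 0 ∨ w' ≠ 0) : False := by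
  obtain ⟨N1, M1, a1, c1, w1, d1, th1, N2, M2, a2, c2, w2, d2, th2, h4, g1, g2, g3, g4⟩ :=
    X2.basis Hinj hp hT
  rcases hw with hw | hw
  · obtain ⟨i, hi⟩ := exists_entry (g3 hw) g1
    exact X2.nz1 Hinj hp h h4 g1 g2 i hi
  · obtain ⟨i, hi⟩ := exists_entry (g4 hw) g2
    exact X2.nz1 Hinj hp h (Tr.swap h4) g2 g1 i hi

/-- reduction to `(w, w')` not zero -/
theorem X2.of_ne [Infinite k] (h : u + 2 < 2 * p)
    (Hne : ∀ (w1 w2 : Matrix (Fin p) (Fin 2) k),
      MaxR ρ (Tr N M a c w1 d nu th et N' M' a' c' w2 d' nu' th' et') → w1 ≠ 0 ∨ w2 ≠ 0 → False)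
    (hT : MaxR ρ (Tr N M a c w d nu th et N' M' a' c' w' d' nu' th' et')) : False := by
  by_cases hw : w = 0
  · by_cases hw' : w' = 0
    · subst hw hw'
      obtain ⟨x, x', hx, g1, g2⟩ := X2.sol0 th th' et et' h
      obtain ⟨s, hs, h4⟩ := X2.move hT g1 g2 ![1, 0]
      rw [zero_add, zero_add] at h4
      refine Hne _ _ h4 ?_
      have key : ∀ y : Fin p → k, y ≠ 0 → s • vecMulVec y ![(1 : k), 0] ≠ 0 := by
        intro y hy h5
        obtain ⟨i, hi⟩ := Function.ne_iff.1 hy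
        apply hi
        have h6 := congrFun (congrFun h5 i) 0
        rw [Matrix.smul_apply, vecMulVec_apply] at h6
        simpa [hs] using h6
      exact hx.imp (key x) (key x')
    · exact Hne _ _ hT (Or.inr hw')
  · exact Hne _ _ hT (Or.inl hw)

/-- reduction to `w` injective -/
theorem X2.of_inj [Infinite k] (Hinj : NoInj k ρ u p) (hp : 2 ≤ p) (h : u + 3 < 2 * p)
    (hT : MaxR ρ (Tr N M a c w d nu th et N' M' a' c' w' d' nu' th' et')) : False :=
  X2.of_ne (by omega) (fun _ _ h1 h2 => X2.nz Hinj hp h h1 h2) hT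

end

end Pool.Agent.Lib.D10
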