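import Pool.Agent.Lib.D9.Blk

/-!
# MP_5dcbc3_ag: types `(3^e, 2^u, 1^p)`, case I (`b = pi = 0` for both): a raise

`de` in `P` with `th de = 0`, `et de = 0` and `(th' de, et' de) <> 0`; a functional `(ps, ph)` on
`U_0 + P` which vanishes on `B E_0` and on `de`, but not on `C E_0`. Then `K = de (ps, ph)`
commutes with `A` and `B`, `K^2 = 0`, and `(C + s K)^3 = s (C de) ((ps, ph) C) <> 0`.
-/

namespace Pool.Agent.Lib.D10

open Matrix Pool.Agent.Lib.Q5dc Pool.Agent.Lib.D7 Pool.Agent.Lib.D9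

namespace XRaiseAux

variable {k : Type*} [Field k] {e u p : ℕ}

/-- vectors in `P` -/
def vP (x : Fin p → k) : Ix e u p → k := fun i => match i with
  | .inr (.inr i) => x i
  | _ => 0

/-- functionals on `U_0 + P` -/
def fG (y : Fin u → k) (x : Fin p → k) : Ix e u p → k := fun i => match i with
  | .inr (.inl (.inl i)) => y i
  | .inr (.inr i) => x i
  | _ => 0

/-- vectors in `E_2 + U_1` -/
def vF (x : Fin e → k) (y : Fin u → k) : Ix e u p → k := fun i => match i with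
  | .inl (.inr (.inr i)) => x i
  | .inr (.inl (.inr i)) => y i
  | _ => 0

/-- functionals on `E_0` -/
def fE (x : Fin e → k) : Ix e u p → k := fun i => match i with
  | .inl (.inl i) => x i
  | _ => 0

variable (N M : Matrix (Fin e) (Fin e) k) (a c : Matrix (Fin u) (Fin e) k)
  (w : Matrix (Fin p) (Fin e) k) (d : Matrix (Fin e) (Fin u) k) (nu : Matrix (Fin u) (Fin u) k)
  (th : Matrix (Fin e) (Fin p) k) (et : Matrix (Fin u) (Fin p) k)

theorem mulVec_vP (x : Fin p → k) :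
    BX N M a c w 0 d nu 0 th et *ᵥ (vP x : Ix e u p → k) = vF (th *ᵥ x) (et *ᵥ x) := by
  funext i
  rcases i with (i | i | i) | ((i | i) | i) <;>
    simp [BX, vP, vF, Matrix.mulVec, dotProduct, Fintype.sum_sum_type]

theorem vecMul_fG (y : Fin u → k) (x : Fin p → k) :
    (fG y x : Ix e u p → k) ᵥ* BX N M a c w 0 d nu 0 th et = fE (y ᵥ* a + x ᵥ* w) := by
  funext i
  rcases i with (i | i | i) | ((i | i) | i) <;>
    simp [BX, fG, fE, Matrix.vecMul, dotProduct, Fintype.sum_sum_type]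

theorem mulVec_vF (x : Fin e → k) (y : Fin u → k) :
    BX N M a c w 0 d nu 0 th et *ᵥ (vF x y : Ix e u p → k) = 0 := by
  funext i
  rcases i with (i | i | i) | ((i | i) | i) <;>
    simp [BX, vF, Matrix.mulVec, dotProduct, Fintype.sum_sum_type]

theorem vecMul_fE (x : Fin e → k) :
    (fE x : Ix e u p → k) ᵥ* BX N M a c w 0 d nu 0 th et = 0 := by
  funext i
  rcases i with (i | i | i) | ((i | i) | i) <;>
    simp [BX, fE, Matrix.vecMul, dotProduct, Fintype.sum_sum_type]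

theorem JX_vP (x : Fin p → k) : JX k e u p *ᵥ (vP x : Ix e u p → k) = 0 := by
  funext i
  rcases i with (i | i | i) | ((i | i) | i) <;>
    simp [JX, BX, vP, Matrix.mulVec, dotProduct, Fintype.sum_sum_type]

theorem fG_JX (y : Fin u → k) (x : Fin p → k) : (fG y x : Ix e u p → k) ᵥ* JX k e u p = 0 := by
  funext i
  rcases i with (i | i | i) | ((i | i) | i) <;>
    simp [JX, BX, fG, Matrix.vecMul, dotProduct, Fintype.sum_sum_type]

theorem fG_vP (y : Fin u → k) (x z : Fin p → k) :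
    (fG y x : Ix e u p → k) ⬝ᵥ vP z = x ⬝ᵥ z := by
  simp [fG, vP, dotProduct, Fintype.sum_sum_type]

theorem fG_vF (y : Fin u → k) (x : Fin p → k) (z : Fin e → k) (t : Fin u → k) :
    (fG y x : Ix e u p → k) ⬝ᵥ vF z t = 0 := by
  simp [fG, vF, dotProduct, Fintype.sum_sum_type]

theorem fE_vP (y : Fin e → k) (x : Fin p → k) : (fE y : Ix e u p → k) ⬝ᵥ vP x = 0 := by
  simp [fE, vP, dotProduct, Fintype.sum_sum_type]

theorem vF_zero : (vF (0 : Fin e → k) (0 : Fin u → k) : Ix e u p → k) = 0 := by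
  funext i
  rcases i with (i | i | i) | ((i | i) | i) <;> simp [vF]

theorem fE_zero : (fE (0 : Fin e → k) : Ix e u p → k) = 0 := by
  funext i
  rcases i with (i | i | i) | ((i | i) | i) <;> simp [fE]

theorem vF_ne {x : Fin e → k} {y : Fin u → k} (h : x ≠ 0 ∨ y ≠ 0) :
    (vF x y : Ix e u p → k) ≠ 0 := by
  intro h0
  rcases h with h | h
  · exact h (funext fun i => congrFun h0 (.inl (.inr (.inr i))))
  · exact h (funext fun i => congrFun h0 (.inr (.inl (.inr i))))

theorem fE_ne {x : Fin e → k} (h : x ≠ 0) : (fE x : Ix e u p → k) ≠ 0 := by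
  intro h0
  exact h (funext fun i => congrFun h0 (.inl (.inl i)))

end XRaiseAux

open XRaiseAux in
theorem raiseK {k : Type*} [Field k] [CharZero k] {e u p : ℕ} {ρ : ℕ → ℕ} (h3 : ρ 3 = 0)
    {N M N' M' : Matrix (Fin e) (Fin e) k} {a c a' c' : Matrix (Fin u) (Fin e) k}
    {w w' : Matrix (Fin p) (Fin e) k} {d d' : Matrix (Fin e) (Fin u) k}
    {nu nu' : Matrix (Fin u) (Fin u) k} {th th' : Matrix (Fin e) (Fin p) k}
    {et et' : Matrix (Fin u) (Fin p) k}
    (hT : MaxR ρ ![JX k e u p, BX N M a c w 0 d nu 0 th et, BX N' M' a' c' w' 0 d' nu' 0 th' et'])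
    (de : Fin p → k) (ps : Fin u → k) (ph : Fin p → k) (h1 : th *ᵥ de = 0) (h2 : et *ᵥ de = 0)
    (hde : th' *ᵥ de ≠ 0 ∨ et' *ᵥ de ≠ 0) (g1 : ps ᵥ* a + ph ᵥ* w = 0) (g2 : ph ⬝ᵥ de = 0)
    (g3 : ps ᵥ* a' + ph ᵥ* w' ≠ 0) : False := by
  set K : Matrix (Ix e u p) (Ix e u p) k := vecMulVec (vP de) (fG ps ph) with hK
  set A := JX k e u p with hA
  set B := (BX N M a c w 0 d nu 0 th et : Matrix (Ix e u p) (Ix e u p) k) with hB
  set C := (BX N' M' a' c' w' 0 d' nu' 0 th' et' : Matrix (Ix e u p) (Ix e u p) k) with hC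
  have kAK : A * K = 0 := by
    rw [hK, hA, Matrix.mul_vecMulVec, JX_vP, Matrix.zero_vecMulVec]
  have kKA : K * A = 0 := by
    rw [hK, hA, Matrix.vecMulVec_mul, fG_JX, Matrix.vecMulVec_zero]
  have kBK : B * K = 0 := by
    rw [hK, hB, Matrix.mul_vecMulVec, mulVec_vP, h1, h2, vF_zero, Matrix.zero_vecMulVec]
  have kKB : K * B = 0 := by
    rw [hK, hB, Matrix.vecMulVec_mul, vecMul_fG, g1, fE_zero, Matrix.vecMulVec_zero]
  have kKK : K * K = 0 := by
    rw [hK, Matrix.vecMulVec_mul_vecMulVec, fG_vP, g2]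
    simp
  have kCK : C * K = vecMulVec (vF (th' *ᵥ de) (et' *ᵥ de)) (fG ps ph) := by
    rw [hK, hC, Matrix.mul_vecMulVec, mulVec_vP]
  have kKC : K * C = vecMulVec (vP de) (fE (ps ᵥ* a' + ph ᵥ* w')) := by
    rw [hK, hC, Matrix.vecMulVec_mul, vecMul_fG]
  have kCKC : C * K * C = vecMulVec (vF (th' *ᵥ de) (et' *ᵥ de))
      (fE (ps ᵥ* a' + ph ᵥ* w')) := by
    rw [kCK, hC, Matrix.vecMulVec_mul, vecMul_fG]
  have z1 : C * (C * K) = 0 := by
    rw [kCK, Matrix.mul_vecMulVec, hC, mulVec_vF, Matrix.zero_vecMulVec]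
  have z2 : K * C * C = 0 := by
    rw [kKC, Matrix.vecMulVec_mul, hC, vecMul_fE, Matrix.vecMulVec_zero]
  have z3 : K * C * K = 0 := by
    rw [kKC, hK, Matrix.vecMulVec_mul_vecMulVec, fE_vP]
    simp
  have z4 : C * C * C = 0 :=
    D8.mul3 hT h3 (D8.mem2 A B C) (D8.mem2 A B C) (D8.mem2 A B C)
  have cube : ∀ s : k, (C + s • K) ^ 3 = s • (C * K * C) := by
    intro s
    have e : (C + s • K) ^ 3 = C * C * C + s • (C * (C * K)) + s • (C * K * C) +
        s • (K * C * C) + (s * s) • (C * (K * K)) + (s * s) • (K * C * K) +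
        (s * s) • ((K * K) * C) + (s * s * s) • (K * K * K) := by
      simp only [pow_succ, pow_zero, one_mul, mul_add, add_mul, smul_mul_assoc, mul_smul_comm,
        smul_smul, smul_add, mul_assoc]
      abel
    rw [e, z1, z2, z3, z4, kKK]
    simp
  refine D8.MaxR.raise0 hT 0 0 K ?_ 3 h3 0 0 1 ?_
  · intro s
    rw [smul_zero, add_zero, add_zero]
    refine D8.cn3 ?_ ?_ ?_ ?_ ?_ ?_
    · exact hT.cn.1 0 1
    · rw [add_mul, mul_add, smul_mul_assoc, mul_smul_comm, kKA, kAK]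
      have h := hT.cn.1 0 2
      exact congrArg (· + s • (0 : Matrix (Ix e u p) (Ix e u p) k)) h
    · rw [add_mul, mul_add, smul_mul_assoc, mul_smul_comm, kKB, kBK]
      have h := hT.cn.1 1 2
      exact congrArg (· + s • (0 : Matrix (Ix e u p) (Ix e u p) k)) h
    · exact JX_nil
    · exact BX_nil ..
    · refine ⟨4, ?_⟩
      have e : C * K * C * C = 0 := by rw [mul_assoc, mul_assoc, ← mul_assoc K, z2, mul_zero]
      have e' : C * K * C * K = 0 := by rw [mul_assoc, mul_assoc, ← mul_assoc K, z3, mul_zero]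
      rw [pow_succ, cube, mul_add, smul_mul_assoc, e, smul_mul_assoc, mul_smul_comm, e']
      simp
  · refine Set.Infinite.mono (s := {0}ᶜ) (fun s hs => ?_)
      (Set.finite_singleton (0 : k)).infinite_compl
    rw [Set.mem_compl_singleton_iff] at hs
    show (_ : Matrix (Ix e u p) (Ix e u p) k) ^ 3 ≠ 0
    rw [one_smul, zero_smul, zero_smul, zero_add, zero_add, cube, kCKC]
    rw [Ne, smul_eq_zero, not_or]
    refine ⟨hs, fun h => ?_⟩
    obtain ⟨i, hi⟩ := Function.ne_iff.1 (vF_ne (p := p) hde)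
    obtain ⟨j, hj⟩ := Function.ne_iff.1 (fE_ne (u := u) (p := p) g3)
    have h5 := congrFun (congrFun h i) j
    rw [Matrix.vecMulVec_apply] at h5
    exact (mul_ne_zero hi hj) h5

end Pool.Agent.Lib.D10
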