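import Pool.Agent.Lib.D9.N33111
import Pool.Agent.Lib.D10.X2K
import Pool.Agent.Lib.D10.XRaise

/-!
# MP_5dcbc3_ag: types `(3, 3, 2, 1^p)`, `p >= 3`, case I: no maximal bad triple

`w` injective: left inverse `lw`, a vector `v` with `lw v = 0` and a functional `mu` with
`mu w = 0`, `mu v = 1`. The parameters `N, a, d, nu, th, et, N', a', w', d', nu'` and `th' v`,
`et' v` are free. Generic point: the `3 x 3` matrix `(th' (w, v); et' (w, v))` is invertible and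
`q = a' - a lw w'`, `r = mu w'` are independent. Then some `B + t C` kills a vector `de` in
`<w, v>`, and `raiseK` applies to `(A, B + t C, C)`.
-/

namespace Pool.Agent.Lib.D10

open Matrix Pool.Agent.Lib.Q5dc Pool.Agent.Lib.D7 Pool.Agent.Lib.D9

namespace X21RAux

section

variable {k : Type*} [Field k] {p : ℕ}

/-- the matrix `(th (w, v); et (w, v))` -/
def DD (th : Matrix (Fin 2) (Fin p) k) (et : Matrix (Fin 1) (Fin p) k)
    (w : Matrix (Fin p) (Fin 2) k) (v : Matrix (Fin p) (Fin 1) k) :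
    Matrix (Fin 2 ⊕ Fin 1) (Fin 2 ⊕ Fin 1) k :=
  fromBlocks (th * w) (th * v) (et * w) (et * v)

theorem DD_mulVec (th : Matrix (Fin 2) (Fin p) k) (et : Matrix (Fin 1) (Fin p) k)
    (w : Matrix (Fin p) (Fin 2) k) (v : Matrix (Fin p) (Fin 1) k) (z : Fin 2 ⊕ Fin 1 → k) :
    DD th et w v *ᵥ z = Sum.elim (th *ᵥ (w *ᵥ (z ∘ Sum.inl) + v *ᵥ (z ∘ Sum.inr)))
      (et *ᵥ (w *ᵥ (z ∘ Sum.inl) + v *ᵥ (z ∘ Sum.inr))) := by
  rw [DD, fromBlocks_mulVec]
  simp only [Matrix.mulVec_add, Matrix.mulVec_mulVec]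

/-- a common zero of `B + t C` -/
theorem exists_de [IsAlgClosed k] (th th' : Matrix (Fin 2) (Fin p) k)
    (et et' : Matrix (Fin 1) (Fin p) k) (w : Matrix (Fin p) (Fin 2) k)
    (v : Matrix (Fin p) (Fin 1) k) (h : (DD th' et' w v).det ≠ 0) :
    ∃ (t : k) (de : Fin p → k), (th + t • th') *ᵥ de = 0 ∧ (et + t • et') *ᵥ de = 0 ∧
      (th' *ᵥ de ≠ 0 ∨ et' *ᵥ de ≠ 0) := by
  set D1 := DD th' et' w v with hD1
  set D0 := DD th et w v with hD0
  have hu : IsUnit D1.det := isUnit_iff_ne_zero.2 h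
  obtain ⟨lam, hlam⟩ := Module.End.exists_eigenvalue (Matrix.toLin' (D1⁻¹ * D0))
  obtain ⟨z, hz⟩ := hlam.exists_hasEigenvector
  have h1 : (D1⁻¹ * D0) *ᵥ z = lam • z := by
    have := hz.apply_eq_smul
    rwa [Matrix.toLin'_apply] at this
  have hz0 : z ≠ 0 := hz.2
  have h2 : D0 *ᵥ z = lam • (D1 *ᵥ z) := by
    rw [← Matrix.mulVec_smul, ← h1, Matrix.mulVec_mulVec, ← Matrix.mul_assoc,
      Matrix.mul_nonsing_inv _ hu, Matrix.one_mul]
  have h3 : D1 *ᵥ z ≠ 0 := by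
    intro h4
    apply hz0
    have h5 : (D1⁻¹ * D1) *ᵥ z = 0 := by rw [← Matrix.mulVec_mulVec, h4, Matrix.mulVec_zero]
    rwa [Matrix.nonsing_inv_mul _ hu, Matrix.one_mulVec] at h5
  rw [hD0, hD1, DD_mulVec, DD_mulVec] at h2
  rw [hD1, DD_mulVec] at h3
  set de : Fin p → k := w *ᵥ (z ∘ Sum.inl) + v *ᵥ (z ∘ Sum.inr) with hde
  have h4 : th *ᵥ de = lam • (th' *ᵥ de) := by
    funext i
    exact congrFun h2 (Sum.inl i)
  have h5 : et *ᵥ de = lam • (et' *ᵥ de) := by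
    funext i
    exact congrFun h2 (Sum.inr i)
  refine ⟨-lam, de, ?_, ?_, ?_⟩
  · rw [Matrix.add_mulVec, Matrix.smul_mulVec, h4]
    simp
  · rw [Matrix.add_mulVec, Matrix.smul_mulVec, h5]
    simp
  · by_contra hc
    rw [not_or, not_not, not_not] at hc
    apply h3
    rw [hc.1, hc.2]
    funext i
    rcases i with i | i <;> rfl

/-- the functional -/
theorem exists_fun (a a' : Matrix (Fin 1) (Fin 2) k) (w w' : Matrix (Fin p) (Fin 2) k)
    (lw : Matrix (Fin 2) (Fin p) k) (mu : Matrix (Fin 1) (Fin p) k) (hlw : lw * w = 1)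
    (hmu : mu * w = 0)
    (hq : (a' - a * (lw * w')) 0 0 * (mu * w') 0 1 - (a' - a * (lw * w')) 0 1 * (mu * w') 0 0 ≠ 0)
    (t : k) (de : Fin p → k) :
    ∃ (ps : Fin 1 → k) (ph : Fin p → k), ps ᵥ* (a + t • a') + ph ᵥ* (w + t • w') = 0 ∧
      ph ⬝ᵥ de = 0 ∧ ps ᵥ* a' + ph ᵥ* w' ≠ 0 := by
  set F : ((Fin 1 → k) × (Fin 2 → k) × (Fin 1 → k)) →ₗ[k] ((Fin 2 → k) × k) :=
    { toFun := fun v => (v.1 ᵥ* (a + t • a') + (v.2.1 ᵥ* lw + v.2.2 ᵥ* mu) ᵥ* (w + t • w'),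
        (v.2.1 ᵥ* lw + v.2.2 ᵥ* mu) ⬝ᵥ de)
      map_add' := fun v v' => by
        ext1
        · simp only [Prod.fst_add, Prod.snd_add, Matrix.add_vecMul]
          abel
        · simp only [Prod.fst_add, Prod.snd_add, Matrix.add_vecMul, add_dotProduct]
          ring
      map_smul' := fun c v => by
        ext1
        · simp only [Prod.smul_fst, Prod.smul_snd, Matrix.smul_vecMul, RingHom.id_apply,
            Matrix.add_vecMul, smul_add]
        · simp only [Prod.smul_fst, Prod.smul_snd, Matrix.smul_vecMul, RingHom.id_apply,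
            add_dotProduct, smul_dotProduct, smul_eq_mul, mul_add] } with hF
  have h1 : LinearMap.ker F ≠ ⊥ := by
    refine LinearMap.ker_ne_bot_of_finrank_lt ?_
    simp only [Module.finrank_prod, Module.finrank_fin_fun, Module.finrank_self]
    omega
  obtain ⟨v, hv, hv0⟩ := (Submodule.ne_bot_iff _).1 h1
  rw [LinearMap.mem_ker] at hv
  have hv1 : v.1 ᵥ* (a + t • a') + (v.2.1 ᵥ* lw + v.2.2 ᵥ* mu) ᵥ* (w + t • w') = 0 :=
    congrArg Prod.fst hv
  have hv2 : (v.2.1 ᵥ* lw + v.2.2 ᵥ* mu) ⬝ᵥ de = 0 := congrArg Prod.snd hv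
  refine ⟨v.1, v.2.1 ᵥ* lw + v.2.2 ᵥ* mu, hv1, hv2, fun h2 => hv0 ?_⟩
  have h3 : v.1 ᵥ* a + (v.2.1 ᵥ* lw + v.2.2 ᵥ* mu) ᵥ* w = 0 := by
    have e : v.1 ᵥ* (a + t • a') + (v.2.1 ᵥ* lw + v.2.2 ᵥ* mu) ᵥ* (w + t • w') =
        (v.1 ᵥ* a + (v.2.1 ᵥ* lw + v.2.2 ᵥ* mu) ᵥ* w) +
          t • (v.1 ᵥ* a' + (v.2.1 ᵥ* lw + v.2.2 ᵥ* mu) ᵥ* w') := by
      rw [Matrix.vecMul_add, Matrix.vecMul_add, Matrix.vecMul_smul, Matrix.vecMul_smul, smul_add]
      abel
    rw [e, h2, smul_zero, add_zero] at hv1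
    exact hv1
  have h4 : v.2.1 = -(v.1 ᵥ* a) := by
    rw [Matrix.add_vecMul, Matrix.vecMul_vecMul, Matrix.vecMul_vecMul, hlw, hmu,
      Matrix.vecMul_one, Matrix.vecMul_zero, add_zero] at h3
    exact eq_neg_of_add_eq_zero_right h3
  have h5 : v.1 ᵥ* (a' - a * (lw * w')) + v.2.2 ᵥ* (mu * w') = 0 := by
    rw [Matrix.vecMul_sub, ← Matrix.vecMul_vecMul v.1 a]
    rw [Matrix.add_vecMul, Matrix.vecMul_vecMul, Matrix.vecMul_vecMul, h4] at h2
    rw [← h2, Matrix.neg_vecMul]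
    abel
  have e0 := congrFun h5 0
  have e1 := congrFun h5 1
  simp only [Pi.add_apply, Matrix.vecMul, dotProduct, Finset.univ_unique, Finset.sum_singleton,
    Fin.default_eq_zero, Pi.zero_apply] at e0 e1
  have hx : v.1 0 = 0 := by
    refine (mul_eq_zero.1 (?_ : v.1 0 * _ = 0)).resolve_right hq
    linear_combination (mu * w') 0 1 * e0 - (mu * w') 0 0 * e1
  have hz : v.2.2 0 = 0 := by
    refine (mul_eq_zero.1 (?_ : v.2.2 0 * _ = 0)).resolve_right hq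
    linear_combination (a' - a * (lw * w')) 0 0 * e1 - (a' - a * (lw * w')) 0 1 * e0
  have hx' : v.1 = 0 := by
    funext i
    rw [Subsingleton.elim i 0]
    exact hx
  have hz' : v.2.2 = 0 := by
    funext i
    rw [Subsingleton.elim i 0]
    exact hz
  have hy' : v.2.1 = 0 := by rw [h4, hx', Matrix.zero_vecMul, neg_zero]
  exact Prod.ext hx' (Prod.ext hy' hz')

end

variable {k : Type*} [Field k] {p : ℕ} {ρ : ℕ → ℕ} {N M N' M' : Matrix (Fin 2) (Fin 2) k}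
  {a c a' c' : Matrix (Fin 1) (Fin 2) k} {w w' : Matrix (Fin p) (Fin 2) k}
  {d d' : Matrix (Fin 2) (Fin 1) k} {nu nu' : Matrix (Fin 1) (Fin 1) k}
  {th th' : Matrix (Fin 2) (Fin p) k} {et et' : Matrix (Fin 1) (Fin p) k}

/-- the generic point -/
theorem gen [IsAlgClosed k] [CharZero k] (h3 : ρ 3 = 0)
    (hT : MaxR ρ (Tr N M a c w d nu th et N' M' a' c' w' d' nu' th' et'))
    (lw : Matrix (Fin 2) (Fin p) k) (v : Matrix (Fin p) (Fin 1) k) (mu : Matrix (Fin 1) (Fin p) k)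
    (hlw : lw * w = 1) (hmu : mu * w = 0) (hD : (DD th' et' w v).det ≠ 0)
    (hq : (a' - a * (lw * w')) 0 0 * (mu * w') 0 1 - (a' - a * (lw * w')) 0 1 * (mu * w') 0 0 ≠ 0) :
    False := by
  obtain ⟨t, de, h1, h2, h4⟩ := exists_de th th' et et' w v hD
  obtain ⟨ps, ph, g1, g2, g3⟩ := exists_fun a a' w w' lw mu hlw hmu hq t de
  have hL := Tr.lin hT 1 t 0 1 0 0 (by simp)
  simp only [one_smul, zero_smul, zero_add, add_zero] at hL
  exact raiseK h3 hL de ps ph h1 h2 h4 g1 g2 g3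

end X21RAux

end Pool.Agent.Lib.D10
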